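import Pool.Agent.helper55.BG.Big1D
import Pool.Agent.helper55.BG.Big2D
import Pool.Agent.helper55.BG.Big1E
import Pool.Agent.helper55.BG.Big2E

/-!
# MP_c8d30a, exponent 12: a leg at a bigon, both legs in a bigon: drops
-/

set_option autoImplicit false

namespace Pool.Agent.helper55.BG

open NTH Pool.Agent.helper32.RH List

variable {Ω : Type} [DecidableEq Ω] {p : Ω → Ω}

theorem ldp {s : St Ω} {u v : Ω} (h : ¬ ((u ∈ s.1 ↔ v ∈ s.1) ∧ (p u ∈ s.1 ↔ p v ∈ s.1)))
    (h' : ¬ ((u ∈ s.1 ↔ p v ∈ s.1) ∧ (p u ∈ s.1 ↔ p (p v) ∈ s.1))) : u ≠ v ∧ u ≠ p v :=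
  ⟨fun e => h (by rw [e]; exact ⟨Iff.rfl, Iff.rfl⟩), fun e => h' (by rw [e]; exact ⟨Iff.rfl, Iff.rfl⟩)⟩

theorem sc_fix2 {s : St Ω} (hn : (s.1 ++ s.2).Nodup) {a z : Ω} (ha : a ∈ s.2) (hz : z ∈ s.2) (hz' : p z ∈ s.2) (hne : p z ≠ z)
    (h : NA.sc s a = a) : False := by
  rw [sc_mem2 hn ha, List.formPerm_apply_mem_eq_self_iff _ (List.nodup_append.mp hn).2.1 _ ha] at h
  have h1 : ([z, p z] : List Ω).Nodup := by simp [hne.symm]
  have h2 := (List.subperm_of_subset h1 (fun t ht => by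
    simp only [List.mem_cons, List.not_mem_nil, or_false] at ht
    rcases ht with rfl | rfl <;> assumption : [z, p z] ⊆ s.2)).length_le
  simp only [List.length_cons, List.length_nil] at h2
  omega

theorem sc_fix1 {s : St Ω} (hn : (s.1 ++ s.2).Nodup) {a z : Ω} (ha : a ∈ s.1) (hz : z ∈ s.1) (hz' : p z ∈ s.1) (hne : p z ≠ z)
    (h : NA.sc s a = a) : False := by
  rw [sc_mem1 hn ha, List.formPerm_apply_mem_eq_self_iff _ (List.nodup_append.mp hn).1 _ ha] at h
  have h1 : ([z, p z] : List Ω).Nodup := by simp [hne.symm]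
  have h2 := (List.subperm_of_subset h1 (fun t ht => by
    simp only [List.mem_cons, List.not_mem_nil, or_false] at ht
    rcases ht with rfl | rfl <;> assumption : [z, p z] ⊆ s.1)).length_le
  simp only [List.length_cons, List.length_nil] at h2
  omega

section

variable {s : St Ω} {f t g x d z : Ω}

/-- a red leg at a bigon. -/
theorem big1A (hs : WF p s) (hl : s.2.getLast? = some f) (hf : p f ∈ s.1) (tA : t ∈ s.1) (tA' : p t ∈ s.1) (gA : g ∈ s.1)
    (gB : p g ∈ s.2) (xA : x ∈ s.1) (xB : p x ∈ s.2) (h1 : NA.sc s g = t) (h2 : NA.sc s t = x) (h3 : NA.sc s (p g) = p x)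
    (hgf : g ≠ p f) (dA : d ∈ s.1) (dA' : p d ∈ s.1) (hdt : d ≠ t) (hdt' : d ≠ p t) (zB : z ∈ s.2) (zB' : p z ∈ s.2) :
    Dr p 7 f s := by
  have hp := hs.inv
  have hne := hs.ne
  have hn := hs.nd
  have fB : f ∈ s.2 := List.mem_of_getLast? hl
  have dis : ∀ v, v ∈ s.2 → v ∉ s.1 := fun v hv => fix_of_disj hn hv
  have n1 := dis _ gB
  have n2 := dis _ xB
  have n3 := dis _ zB
  have n4 := dis _ zB'
  have n5 := dis _ fB
  have hxg : x ≠ g := by
    intro e
    rw [e] at h3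
    exact sc_fix2 hn gB zB zB' (hne z) h3
  have l1 : t ≠ x ∧ t ≠ p x := ldp (s := s) (by simp [tA, xA, tA', n2]) (by simp [tA, n2])
  have l2 : t ≠ g ∧ t ≠ p g := ldp (s := s) (by simp [tA, gA, tA', n1]) (by simp [tA, n1])
  have l3 : t ≠ d ∧ t ≠ p d := ⟨hdt.symm, fun e => hdt' (by rw [e, hp])⟩
  have l4 : t ≠ z ∧ t ≠ p z := ldp (s := s) (by simp [tA, n3]) (by simp [tA, n4])
  have l5 : t ≠ f ∧ t ≠ p f := ldp (s := s) (by simp [tA, n5]) (by simp [tA, hf, hp, tA', n5])
  have l6 : x ≠ g ∧ x ≠ p g := ⟨hxg, fun e => n1 (e ▸ xA)⟩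
  have l7 : x ≠ d ∧ x ≠ p d := ldp (s := s) (by simp [xA, dA, dA', n2]) (by simp [xA, dA, dA', n2, hp])
  have l8 : x ≠ z ∧ x ≠ p z := ldp (s := s) (by simp [xA, n3]) (by simp [xA, n4])
  have l9 : g ≠ d ∧ g ≠ p d := ldp (s := s) (by simp [gA, dA, dA', n1]) (by simp [gA, dA, dA', n1, hp])
  have l10 : g ≠ z ∧ g ≠ p z := ldp (s := s) (by simp [gA, n3]) (by simp [gA, n4])
  have l11 : g ≠ f ∧ g ≠ p f := ⟨fun e => n5 (e ▸ gA), hgf⟩
  have l12 : d ≠ z ∧ d ≠ p z := ldp (s := s) (by simp [dA, n3]) (by simp [dA, n4])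
  have l13 : d ≠ f ∧ d ≠ p f := ldp (s := s) (by simp [dA, n5]) (by simp [dA, dA', hf, hp, n5])
  have l14 : z ≠ f ∧ z ≠ p f := ldp (s := s) (by simp [n3, n4, hf, n5]) (by simp [n3, hf])
  set a : ℕ → Ω := fun n => match n with | 0 => t | 1 => x | 2 => g | 3 => d | 4 => z | _ => f with ha
  by_cases hxf : x = p f
  · -- at the end
    have hLD : LD p ([0, 2, 3, 4, 5].map a) := by
      simp only [LD, ha, List.map_cons, List.map_nil, List.pairwise_cons, List.mem_cons, List.not_mem_nil, or_false,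
        forall_eq_or_imp, forall_eq, List.Pairwise.nil, and_true]
      (first | grind | tauto)
    refine leaf_thm (a := a) k_BAf (S := [0, 2, 3, 4, 5]) (by decide +kernel) hs hl hf rfl hLD ?_ ⟨t, tA, tA'⟩ ⟨z, zB, zB'⟩
    refine ⟨?_, ?_, ?_, ?_, ?_, ?_, ?_, ?_⟩
    · intro m hm
      simp [T_BAf] at hm
      rcases hm with rfl | rfl | rfl | rfl | rfl | rfl <;> simp [tk, ha] <;> assumption
    · intro m hm
      simp [T_BAf] at hm
      rcases hm with rfl | rfl | rfl | rfl <;> simp [tk, ha] <;> assumption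
    · simp [T_BAf]
    · simp [T_BAf]
    · simp [T_BAf, Sq, tk, ha, h1, h2, hxf]
    · simp [T_BAf, Sq, tk, ha, h3, hxf, hp]
    · simp [T_BAf]
    · simp [T_BAf]
  · have l15 : x ≠ f ∧ x ≠ p f := ⟨fun e => n5 (e ▸ xA), hxf⟩
    have hLD : LD p ([0, 1, 2, 3, 4, 5].map a) := by
      simp only [LD, ha, List.map_cons, List.map_nil, List.pairwise_cons, List.mem_cons, List.not_mem_nil, or_false,
        forall_eq_or_imp, forall_eq, List.Pairwise.nil, and_true]
      (first | grind | tauto)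
    refine leaf_thm (a := a) k_BA (S := [0, 1, 2, 3, 4, 5]) (by decide +kernel) hs hl hf rfl hLD ?_ ⟨t, tA, tA'⟩ ⟨z, zB, zB'⟩
    refine ⟨?_, ?_, ?_, ?_, ?_, ?_, ?_, ?_⟩
    · intro m hm
      simp [T_BA] at hm
      rcases hm with rfl | rfl | rfl | rfl | rfl | rfl | rfl <;> simp [tk, ha] <;> assumption
    · intro m hm
      simp [T_BA] at hm
      rcases hm with rfl | rfl | rfl | rfl | rfl <;> simp [tk, ha] <;> assumption
    · simp [T_BA]
    · simp [T_BA]
    · simp [T_BA]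
    · simp [T_BA]
    · intro u hu
      simp [T_BA] at hu
      rcases hu with rfl | rfl | rfl | rfl <;> simp [Sq, tk, ha, h1, h2]
    · intro u hu
      simp [T_BA] at hu
      rcases hu with rfl | rfl | rfl <;> simp [Sq, tk, ha, h3]

/-- a blue leg at a bigon. -/
theorem big1B (hs : WF p s) (hl : s.2.getLast? = some f) (hf : p f ∈ s.1) (tB : t ∈ s.2) (tB' : p t ∈ s.2) (gB : g ∈ s.2)
    (gA : p g ∈ s.1) (xB : x ∈ s.2) (xA : p x ∈ s.1) (h1 : NA.sc s g = t) (h2 : NA.sc s t = x) (h3 : NA.sc s (p g) = p x)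
    (hgf : g ≠ f) (dB : d ∈ s.2) (dB' : p d ∈ s.2) (hdt : d ≠ t) (hdt' : d ≠ p t) (zA : z ∈ s.1) (zA' : p z ∈ s.1) :
    Dr p 7 f s := by
  have hp := hs.inv
  have hne := hs.ne
  have hn := hs.nd
  have fB : f ∈ s.2 := List.mem_of_getLast? hl
  have dis : ∀ v, v ∈ s.2 → v ∉ s.1 := fun v hv => fix_of_disj hn hv
  have n1 := dis _ gB
  have n2 := dis _ xB
  have n3 := dis _ tB
  have n4 := dis _ tB'
  have n5 := dis _ fB
  have n6 := dis _ dB
  have n7 := dis _ dB'
  have hxg : x ≠ g := by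
    intro e
    rw [e] at h3
    exact sc_fix1 hn gA zA zA' (hne z) h3
  have l1 : t ≠ x ∧ t ≠ p x := ldp (s := s) (by simp [n3, n2, n4, xA]) (by simp [n3, xA])
  have l2 : t ≠ g ∧ t ≠ p g := ldp (s := s) (by simp [n3, n1, n4, gA]) (by simp [n3, gA])
  have l3 : t ≠ d ∧ t ≠ p d := ⟨hdt.symm, fun e => hdt' (by rw [e, hp])⟩
  have l4 : t ≠ z ∧ t ≠ p z := ldp (s := s) (by simp [n3, zA]) (by simp [n3, zA'])
  have l5 : t ≠ f ∧ t ≠ p f := ldp (s := s) (by simp [n3, n5, n4, hf]) (by simp [n3, hf])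
  have l6 : x ≠ g ∧ x ≠ p g := ⟨hxg, fun e => n2 (e ▸ gA)⟩
  have l7 : x ≠ d ∧ x ≠ p d := ldp (s := s) (by simp [n2, n6, n7, xA]) (by simp [n2, n6, n7, xA, hp])
  have l8 : x ≠ z ∧ x ≠ p z := ldp (s := s) (by simp [n2, zA]) (by simp [n2, zA'])
  have l9 : g ≠ d ∧ g ≠ p d := ldp (s := s) (by simp [n1, n6, n7, gA]) (by simp [n1, n6, n7, gA, hp])
  have l10 : g ≠ z ∧ g ≠ p z := ldp (s := s) (by simp [n1, zA]) (by simp [n1, zA'])
  have l11 : g ≠ f ∧ g ≠ p f := ⟨hgf, fun e => n1 (e ▸ hf)⟩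
  have l12 : d ≠ z ∧ d ≠ p z := ldp (s := s) (by simp [n6, zA]) (by simp [n6, zA'])
  have l13 : d ≠ f ∧ d ≠ p f := ldp (s := s) (by simp [n6, n7, n5, hf]) (by simp [n6, hf])
  have l14 : z ≠ f ∧ z ≠ p f := ldp (s := s) (by simp [zA, n5]) (by simp [zA, zA', hf, hp, n5])
  set a : ℕ → Ω := fun n => match n with | 0 => t | 1 => x | 2 => g | 3 => d | 4 => z | _ => f with ha
  by_cases hxf : x = f
  · -- at the end
    have hLD : LD p ([0, 2, 3, 4, 5].map a) := by
      simp only [LD, ha, List.map_cons, List.map_nil, List.pairwise_cons, List.mem_cons, List.not_mem_nil, or_false,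
        forall_eq_or_imp, forall_eq, List.Pairwise.nil, and_true]
      (first | grind | tauto)
    refine leaf_thm (a := a) k_BBf (S := [0, 2, 3, 4, 5]) (by decide +kernel) hs hl hf rfl hLD ?_ ⟨z, zA, zA'⟩ ⟨t, tB, tB'⟩
    refine ⟨?_, ?_, ?_, ?_, ?_, ?_, ?_, ?_⟩
    · intro m hm
      simp [T_BBf] at hm
      rcases hm with rfl | rfl | rfl | rfl <;> simp [tk, ha] <;> assumption
    · intro m hm
      simp [T_BBf] at hm
      rcases hm with rfl | rfl | rfl | rfl | rfl | rfl <;> simp [tk, ha] <;> assumption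
    · simp [T_BBf]
    · simp [T_BBf]
    · simp [T_BBf, Sq, tk, ha, h3, hxf]
    · simp [T_BBf, Sq, tk, ha, h1, h2, hxf]
    · simp [T_BBf]
    · simp [T_BBf]
  · have l15 : x ≠ f ∧ x ≠ p f := ⟨hxf, fun e => n2 (e ▸ hf)⟩
    have hLD : LD p ([0, 1, 2, 3, 4, 5].map a) := by
      simp only [LD, ha, List.map_cons, List.map_nil, List.pairwise_cons, List.mem_cons, List.not_mem_nil, or_false,
        forall_eq_or_imp, forall_eq, List.Pairwise.nil, and_true]
      (first | grind | tauto)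
    refine leaf_thm (a := a) k_BB (S := [0, 1, 2, 3, 4, 5]) (by decide +kernel) hs hl hf rfl hLD ?_ ⟨z, zA, zA'⟩ ⟨t, tB, tB'⟩
    refine ⟨?_, ?_, ?_, ?_, ?_, ?_, ?_, ?_⟩
    · intro m hm
      simp [T_BB] at hm
      rcases hm with rfl | rfl | rfl | rfl | rfl <;> simp [tk, ha] <;> assumption
    · intro m hm
      simp [T_BB] at hm
      rcases hm with rfl | rfl | rfl | rfl | rfl | rfl | rfl <;> simp [tk, ha] <;> assumption
    · simp [T_BB]
    · simp [T_BB]
    · simp [T_BB]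
    · simp [T_BB]
    · intro u hu
      simp [T_BB] at hu
      rcases hu with rfl | rfl | rfl <;> simp [Sq, tk, ha, h3]
    · intro u hu
      simp [T_BB] at hu
      rcases hu with rfl | rfl | rfl | rfl <;> simp [Sq, tk, ha, h1, h2]

/-- both legs of a red letter in a bigon; the other letters are mixed. -/
theorem big2A (hs : WF p s) (hl : s.2.getLast? = some f) (hf : p f ∈ s.1) (tA : t ∈ s.1) (tA' : p t ∈ s.1) (gA : g ∈ s.1)
    (gB : p g ∈ s.2) (xA : x ∈ s.1) (xB : p x ∈ s.2) (h1 : NA.sc s g = t) (h0 : NA.sc s t = p t) (h2 : NA.sc s (p t) = x)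
    (h3 : NA.sc s (p g) = p x) (dA : d ∈ s.1) (dA' : p d ∈ s.1) (hdt : d ≠ t) (hdt' : d ≠ p t) (zB : z ∈ s.2) (zB' : p z ∈ s.2)
    (hmA : ∀ v ∈ s.1, v ≠ t → v ≠ p t → v ≠ d → v ≠ p d → p v ∈ s.2) (hmB : ∀ v ∈ s.2, v ≠ z → v ≠ p z → p v ∈ s.1) :
    Dr p 8 f s := by
  have hp := hs.inv
  have hne := hs.ne
  have hn := hs.nd
  have fB : f ∈ s.2 := List.mem_of_getLast? hl
  have dis : ∀ v, v ∈ s.2 → v ∉ s.1 := fun v hv => fix_of_disj hn hv
  have n1 := dis _ gB
  have n2 := dis _ xB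
  have n3 := dis _ zB
  have n4 := dis _ zB'
  have n5 := dis _ fB
  have hxg : x ≠ g := by
    intro e
    rw [e] at h3
    exact sc_fix2 hn gB zB zB' (hne z) h3
  have l1 : t ≠ x ∧ t ≠ p x := ldp (s := s) (by simp [tA, xA, tA', n2]) (by simp [tA, n2])
  have l2 : t ≠ g ∧ t ≠ p g := ldp (s := s) (by simp [tA, gA, tA', n1]) (by simp [tA, n1])
  have l3 : t ≠ d ∧ t ≠ p d := ⟨hdt.symm, fun e => hdt' (by rw [e, hp])⟩
  have l4 : t ≠ z ∧ t ≠ p z := ldp (s := s) (by simp [tA, n3]) (by simp [tA, n4])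
  have l5 : t ≠ f ∧ t ≠ p f := ldp (s := s) (by simp [tA, n5]) (by simp [tA, hf, hp, tA', n5])
  have l6 : x ≠ g ∧ x ≠ p g := ⟨hxg, fun e => n1 (e ▸ xA)⟩
  have l7 : x ≠ d ∧ x ≠ p d := ldp (s := s) (by simp [xA, dA, dA', n2]) (by simp [xA, dA, dA', n2, hp])
  have l8 : x ≠ z ∧ x ≠ p z := ldp (s := s) (by simp [xA, n3]) (by simp [xA, n4])
  have l9 : g ≠ d ∧ g ≠ p d := ldp (s := s) (by simp [gA, dA, dA', n1]) (by simp [gA, dA, dA', n1, hp])
  have l10 : g ≠ z ∧ g ≠ p z := ldp (s := s) (by simp [gA, n3]) (by simp [gA, n4])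
  have l12 : d ≠ z ∧ d ≠ p z := ldp (s := s) (by simp [dA, n3]) (by simp [dA, n4])
  have l13 : d ≠ f ∧ d ≠ p f := ldp (s := s) (by simp [dA, n5]) (by simp [dA, dA', hf, hp, n5])
  have l14 : z ≠ f ∧ z ≠ p f := ldp (s := s) (by simp [n3, n4, hf, n5]) (by simp [n3, hf])
  set a : ℕ → Ω := fun n => match n with | 0 => t | 1 => x | 2 => g | 3 => d | 4 => z | _ => f with ha
  by_cases hxf : x = p f
  · -- at the end
    have l11 : g ≠ f ∧ g ≠ p f := ⟨fun e => n5 (e ▸ gA), fun e => hxg (hxf.trans e.symm)⟩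
    have hLD : LD p ([0, 2, 3, 4, 5].map a) := by
      simp only [LD, ha, List.map_cons, List.map_nil, List.pairwise_cons, List.mem_cons, List.not_mem_nil, or_false,
        forall_eq_or_imp, forall_eq, List.Pairwise.nil, and_true]
      (first | grind | tauto)
    have key := root_thm (Q := False) (a := a) k_DAf (S := [0, 2, 3, 4, 5]) (by decide +kernel) hs hl hf rfl hLD ?_ ?_ ?_
      ⟨t, tA, tA'⟩ ⟨z, zB, zB'⟩ (fun W _ A B h => absurd h (by simp [exN]))
    · exact key.resolve_right (fun h => h)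
    · refine ⟨?_, ?_, ?_, ?_, ?_, ?_, ?_, ?_⟩
      · intro m hm
        simp [T_DAf] at hm
        rcases hm with rfl | rfl | rfl | rfl | rfl | rfl <;> simp [tk, ha] <;> assumption
      · intro m hm
        simp [T_DAf] at hm
        rcases hm with rfl | rfl | rfl | rfl <;> simp [tk, ha] <;> assumption
      · simp [T_DAf]
      · simp [T_DAf]
      · simp [T_DAf, Sq, tk, ha, h0, h1, h2, hxf]
      · simp [T_DAf, Sq, tk, ha, h3, hxf, hp]
      · simp [T_DAf]
      · simp [T_DAf]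
    · intro v hv hm
      exact hmA v hv (hm 0 (by decide +kernel)) (hm 1 (by decide +kernel)) (hm 6 (by decide +kernel)) (hm 7 (by decide +kernel))
    · intro v hv hm
      exact hmB v hv (hm 8 (by decide +kernel)) (hm 9 (by decide +kernel))
  have l15 : x ≠ f ∧ x ≠ p f := ⟨fun e => n5 (e ▸ xA), hxf⟩
  by_cases hgf : g = p f
  · -- at the start
    have hLD : LD p ([0, 1, 3, 4, 5].map a) := by
      simp only [LD, ha, List.map_cons, List.map_nil, List.pairwise_cons, List.mem_cons, List.not_mem_nil, or_false,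
        forall_eq_or_imp, forall_eq, List.Pairwise.nil, and_true]
      (first | grind | tauto)
    have key := root_thm (Q := False) (a := a) k_DAs (S := [0, 1, 3, 4, 5]) (by decide +kernel) hs hl hf rfl hLD ?_ ?_ ?_
      ⟨t, tA, tA'⟩ ⟨z, zB, zB'⟩ (fun W _ A B h => absurd h (by simp [exN]))
    · exact key.resolve_right (fun h => h)
    · rw [hgf] at h1 h3
      rw [hp] at h3
      refine ⟨?_, ?_, ?_, ?_, ?_, ?_, ?_, ?_⟩
      · intro m hm
        simp [T_DAs] at hm
        rcases hm with rfl | rfl | rfl | rfl | rfl | rfl <;> simp [tk, ha] <;> assumption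
      · intro m hm
        simp [T_DAs] at hm
        rcases hm with rfl | rfl | rfl | rfl <;> simp [tk, ha] <;> assumption
      · simp [T_DAs, Sq, tk, ha, h0, h1, h2]
      · simp [T_DAs, Sq, tk, ha, h3]
      · simp [T_DAs]
      · simp [T_DAs]
      · simp [T_DAs]
      · simp [T_DAs]
    · intro v hv hm
      exact hmA v hv (hm 0 (by decide +kernel)) (hm 1 (by decide +kernel)) (hm 6 (by decide +kernel)) (hm 7 (by decide +kernel))
    · intro v hv hm
      exact hmB v hv (hm 8 (by decide +kernel)) (hm 9 (by decide +kernel))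
  · have l11 : g ≠ f ∧ g ≠ p f := ⟨fun e => n5 (e ▸ gA), hgf⟩
    have hLD : LD p ([0, 1, 2, 3, 4, 5].map a) := by
      simp only [LD, ha, List.map_cons, List.map_nil, List.pairwise_cons, List.mem_cons, List.not_mem_nil, or_false,
        forall_eq_or_imp, forall_eq, List.Pairwise.nil, and_true]
      (first | grind | tauto)
    have key := root_thm (Q := False) (a := a) k_DA (S := [0, 1, 2, 3, 4, 5]) (by decide +kernel) hs hl hf rfl hLD ?_ ?_ ?_
      ⟨t, tA, tA'⟩ ⟨z, zB, zB'⟩ (fun W _ A B h => absurd h (by simp [exN]))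
    · exact key.resolve_right (fun h => h)
    · refine ⟨?_, ?_, ?_, ?_, ?_, ?_, ?_, ?_⟩
      · intro m hm
        simp [T_DA] at hm
        rcases hm with rfl | rfl | rfl | rfl | rfl | rfl | rfl <;> simp [tk, ha] <;> assumption
      · intro m hm
        simp [T_DA] at hm
        rcases hm with rfl | rfl | rfl | rfl | rfl <;> simp [tk, ha] <;> assumption
      · simp [T_DA]
      · simp [T_DA]
      · simp [T_DA]
      · simp [T_DA]
      · intro u hu
        simp [T_DA] at hu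
        rcases hu with rfl | rfl | rfl <;> simp [Sq, tk, ha, h0, h1, h2]
      · intro u hu
        simp [T_DA] at hu
        rcases hu with rfl | rfl | rfl <;> simp [Sq, tk, ha, h3]
    · intro v hv hm
      exact hmA v hv (hm 0 (by decide +kernel)) (hm 1 (by decide +kernel)) (hm 6 (by decide +kernel)) (hm 7 (by decide +kernel))
    · intro v hv hm
      exact hmB v hv (hm 8 (by decide +kernel)) (hm 9 (by decide +kernel))

/-- both legs of a blue letter in a bigon; the other letters are mixed. -/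
theorem big2B (hs : WF p s) (hl : s.2.getLast? = some f) (hf : p f ∈ s.1) (tB : t ∈ s.2) (tB' : p t ∈ s.2) (gB : g ∈ s.2)
    (gA : p g ∈ s.1) (xB : x ∈ s.2) (xA : p x ∈ s.1) (h1 : NA.sc s g = t) (h0 : NA.sc s t = p t) (h2 : NA.sc s (p t) = x)
    (h3 : NA.sc s (p g) = p x) (dB : d ∈ s.2) (dB' : p d ∈ s.2) (hdt : d ≠ t) (hdt' : d ≠ p t) (zA : z ∈ s.1) (zA' : p z ∈ s.1)
    (hmA : ∀ v ∈ s.1, v ≠ z → v ≠ p z → p v ∈ s.2) (hmB : ∀ v ∈ s.2, v ≠ t → v ≠ p t → v ≠ d → v ≠ p d → p v ∈ s.1) :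
    Dr p 8 f s := by
  have hp := hs.inv
  have hne := hs.ne
  have hn := hs.nd
  have fB : f ∈ s.2 := List.mem_of_getLast? hl
  have dis : ∀ v, v ∈ s.2 → v ∉ s.1 := fun v hv => fix_of_disj hn hv
  have n1 := dis _ gB
  have n2 := dis _ xB
  have n3 := dis _ tB
  have n4 := dis _ tB'
  have n5 := dis _ fB
  have n6 := dis _ dB
  have n7 := dis _ dB'
  have hxg : x ≠ g := by
    intro e
    rw [e] at h3
    exact sc_fix1 hn gA zA zA' (hne z) h3
  have l1 : t ≠ x ∧ t ≠ p x := ldp (s := s) (by simp [n3, n2, n4, xA]) (by simp [n3, xA])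
  have l2 : t ≠ g ∧ t ≠ p g := ldp (s := s) (by simp [n3, n1, n4, gA]) (by simp [n3, gA])
  have l3 : t ≠ d ∧ t ≠ p d := ⟨hdt.symm, fun e => hdt' (by rw [e, hp])⟩
  have l4 : t ≠ z ∧ t ≠ p z := ldp (s := s) (by simp [n3, zA]) (by simp [n3, zA'])
  have l5 : t ≠ f ∧ t ≠ p f := ldp (s := s) (by simp [n3, n5, n4, hf]) (by simp [n3, hf])
  have l6 : x ≠ g ∧ x ≠ p g := ⟨hxg, fun e => n2 (e ▸ gA)⟩
  have l7 : x ≠ d ∧ x ≠ p d := ldp (s := s) (by simp [n2, n6, n7, xA]) (by simp [n2, n6, n7, xA, hp])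
  have l8 : x ≠ z ∧ x ≠ p z := ldp (s := s) (by simp [n2, zA]) (by simp [n2, zA'])
  have l9 : g ≠ d ∧ g ≠ p d := ldp (s := s) (by simp [n1, n6, n7, gA]) (by simp [n1, n6, n7, gA, hp])
  have l10 : g ≠ z ∧ g ≠ p z := ldp (s := s) (by simp [n1, zA]) (by simp [n1, zA'])
  have l12 : d ≠ z ∧ d ≠ p z := ldp (s := s) (by simp [n6, zA]) (by simp [n6, zA'])
  have l13 : d ≠ f ∧ d ≠ p f := ldp (s := s) (by simp [n6, n7, n5, hf]) (by simp [n6, hf])
  have l14 : z ≠ f ∧ z ≠ p f := ldp (s := s) (by simp [zA, n5]) (by simp [zA, zA', hf, hp, n5])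
  set a : ℕ → Ω := fun n => match n with | 0 => t | 1 => x | 2 => g | 3 => d | 4 => z | _ => f with ha
  by_cases hxf : x = f
  · -- at the end
    have l11 : g ≠ f ∧ g ≠ p f := ⟨fun e => hxg (hxf.trans e.symm), fun e => n1 (e ▸ hf)⟩
    have hLD : LD p ([0, 2, 3, 4, 5].map a) := by
      simp only [LD, ha, List.map_cons, List.map_nil, List.pairwise_cons, List.mem_cons, List.not_mem_nil, or_false,
        forall_eq_or_imp, forall_eq, List.Pairwise.nil, and_true]
      (first | grind | tauto)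
    have key := root_thm (Q := False) (a := a) k_DBf (S := [0, 2, 3, 4, 5]) (by decide +kernel) hs hl hf rfl hLD ?_ ?_ ?_
      ⟨z, zA, zA'⟩ ⟨t, tB, tB'⟩ (fun W _ A B h => absurd h (by simp [exN]))
    · exact key.resolve_right (fun h => h)
    · refine ⟨?_, ?_, ?_, ?_, ?_, ?_, ?_, ?_⟩
      · intro m hm
        simp [T_DBf] at hm
        rcases hm with rfl | rfl | rfl | rfl <;> simp [tk, ha] <;> assumption
      · intro m hm
        simp [T_DBf] at hm
        rcases hm with rfl | rfl | rfl | rfl | rfl | rfl <;> simp [tk, ha] <;> assumption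
      · simp [T_DBf]
      · simp [T_DBf]
      · simp [T_DBf, Sq, tk, ha, h3, hxf]
      · simp [T_DBf, Sq, tk, ha, h0, h1, h2, hxf]
      · simp [T_DBf]
      · simp [T_DBf]
    · intro v hv hm
      exact hmA v hv (hm 8 (by decide +kernel)) (hm 9 (by decide +kernel))
    · intro v hv hm
      exact hmB v hv (hm 0 (by decide +kernel)) (hm 1 (by decide +kernel)) (hm 6 (by decide +kernel)) (hm 7 (by decide +kernel))
  have l15 : x ≠ f ∧ x ≠ p f := ⟨hxf, fun e => n2 (e ▸ hf)⟩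
  by_cases hgf : g = f
  · -- at the start
    have hLD : LD p ([0, 1, 3, 4, 5].map a) := by
      simp only [LD, ha, List.map_cons, List.map_nil, List.pairwise_cons, List.mem_cons, List.not_mem_nil, or_false,
        forall_eq_or_imp, forall_eq, List.Pairwise.nil, and_true]
      (first | grind | tauto)
    have key := root_thm (Q := False) (a := a) k_DBs (S := [0, 1, 3, 4, 5]) (by decide +kernel) hs hl hf rfl hLD ?_ ?_ ?_
      ⟨z, zA, zA'⟩ ⟨t, tB, tB'⟩ (fun W _ A B h => absurd h (by simp [exN]))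
    · exact key.resolve_right (fun h => h)
    · rw [hgf] at h1 h3
      refine ⟨?_, ?_, ?_, ?_, ?_, ?_, ?_, ?_⟩
      · intro m hm
        simp [T_DBs] at hm
        rcases hm with rfl | rfl | rfl | rfl <;> simp [tk, ha] <;> assumption
      · intro m hm
        simp [T_DBs] at hm
        rcases hm with rfl | rfl | rfl | rfl | rfl | rfl <;> simp [tk, ha] <;> assumption
      · simp [T_DBs, Sq, tk, ha, h3]
      · simp [T_DBs, Sq, tk, ha, h0, h1, h2]
      · simp [T_DBs]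
      · simp [T_DBs]
      · simp [T_DBs]
      · simp [T_DBs]
    · intro v hv hm
      exact hmA v hv (hm 8 (by decide +kernel)) (hm 9 (by decide +kernel))
    · intro v hv hm
      exact hmB v hv (hm 0 (by decide +kernel)) (hm 1 (by decide +kernel)) (hm 6 (by decide +kernel)) (hm 7 (by decide +kernel))
  · have l11 : g ≠ f ∧ g ≠ p f := ⟨hgf, fun e => n1 (e ▸ hf)⟩
    have hLD : LD p ([0, 1, 2, 3, 4, 5].map a) := by
      simp only [LD, ha, List.map_cons, List.map_nil, List.pairwise_cons, List.mem_cons, List.not_mem_nil, or_false,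
        forall_eq_or_imp, forall_eq, List.Pairwise.nil, and_true]
      (first | grind | tauto)
    have key := root_thm (Q := False) (a := a) k_DB (S := [0, 1, 2, 3, 4, 5]) (by decide +kernel) hs hl hf rfl hLD ?_ ?_ ?_
      ⟨z, zA, zA'⟩ ⟨t, tB, tB'⟩ (fun W _ A B h => absurd h (by simp [exN]))
    · exact key.resolve_right (fun h => h)
    · refine ⟨?_, ?_, ?_, ?_, ?_, ?_, ?_, ?_⟩
      · intro m hm
        simp [T_DB] at hm
        rcases hm with rfl | rfl | rfl | rfl | rfl <;> simp [tk, ha] <;> assumption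
      · intro m hm
        simp [T_DB] at hm
        rcases hm with rfl | rfl | rfl | rfl | rfl | rfl | rfl <;> simp [tk, ha] <;> assumption
      · simp [T_DB]
      · simp [T_DB]
      · simp [T_DB]
      · simp [T_DB]
      · intro u hu
        simp [T_DB] at hu
        rcases hu with rfl | rfl | rfl <;> simp [Sq, tk, ha, h3]
      · intro u hu
        simp [T_DB] at hu
        rcases hu with rfl | rfl | rfl <;> simp [Sq, tk, ha, h0, h1, h2]
    · intro v hv hm
      exact hmA v hv (hm 8 (by decide +kernel)) (hm 9 (by decide +kernel))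
    · intro v hv hm
      exact hmB v hv (hm 0 (by decide +kernel)) (hm 1 (by decide +kernel)) (hm 6 (by decide +kernel)) (hm 7 (by decide +kernel))

end

end Pool.Agent.helper55.BG
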