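import Pool.Agent.helper55.BG.BigT
import Pool.Agent.helper51.T1.Glue

/-!
# MP_c8d30a, exponent 12: the tables BIG1, BIG2 in the form used by the glue
-/

set_option autoImplicit false

namespace Pool.Agent.helper55.BG

open NTH T1C Pool.Agent.helper32.RH

/-- the table BIG1. -/
theorem big1_stmt : Pool.Agent.helper51.T1.BIG1_stmt 7 := by
  intro Ω _ p f s c d z g w hT hg hw n1 n2 h1 h2 h3
  have e : NA.pd s c = g := NA.pd_of_sc h1
  refine BIG1 hT.gp hT.cc ?_ ?_ ?_ ?_ ?_ hT.cd hT.sd hT.ne hT.ne' hT.cz hT.sz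
  · rw [e]; exact hg
  · rw [h2]; exact hw
  · rw [e, h2]; exact h3
  · rw [e]; exact n1
  · rw [e]; exact n2

/-- the table BIG2. -/
theorem big2_stmt : Pool.Agent.helper51.T1.BIG2_stmt 8 := by
  intro Ω _ p f s c d z g w hT hg hw _ _ h1 h2 h3 h4
  have e : NA.pd s c = g := NA.pd_of_sc h1
  refine BIG2 hT h2 ?_ ?_ ?_
  · rw [e]; exact hg
  · rw [h3]; exact hw
  · rw [e, h3]; exact h4

end Pool.Agent.helper55.BG
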