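import Pool.Agent.helper55.BG.Nest
import Pool.Agent.helper14.NTN.Asm

/-!
# MP_c8d30a, exponent 12: drops and good pairs
-/

set_option autoImplicit false

namespace Pool.Agent.helper55.BG

open Pool.Agent.helper32.RH

variable {Ω : Type} {p : Ω → Ω}

/-- a good pair after the drop. -/
theorem Dr.gp {K : ℕ} {f : Ω} {s : NTH.St Ω} (h : Dr p K f s) : ∃ s', RTs p K s s' ∧ NTH.GP p f s' ∧
    (s'.1 ++ s'.2).Perm (s.1 ++ s.2) ∧ NTS.D2 p s' < NTS.D2 p s := by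
  obtain ⟨s', h1, h2, h3, h4, ⟨o, h5⟩, ⟨o', h6⟩, h7, h8⟩ := h
  exact ⟨s', h1, ⟨h2, h3, h4, ⟨o, h5⟩, ⟨o', h6⟩⟩, h8, h7⟩

end Pool.Agent.helper55.BG
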