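import Pool.Agent.helper55.BG.Big
import Pool.Agent.helper55.BG.Good
import Pool.Agent.helper72.T1.Hyp

/-!
# MP_c8d30a, exponent 12: bigons, in the vocabulary of the contact lemma
-/

set_option autoImplicit false

namespace Pool.Agent.helper55.BG

open NTH T1C Pool.Agent.helper32.RH

variable {Ω : Type} [DecidableEq Ω] {p : Ω → Ω} {s : St Ω} {f : Ω}

theorem Dr.dg {K : ℕ} (h : Dr p K f s) : DG p K f s := h.gp

/-- **BIG1**: an isolated leg `t` at a bigon (all other letters arbitrary). -/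
theorem BIG1 (hg : GP p f s) {t d z : Ω} (ht : Cd p s t) (hgm : T1C.Mx p s (NA.pd s t)) (hxm : T1C.Mx p s (NA.sc s t))
    (h : NA.sc s (p (NA.pd s t)) = p (NA.sc s t)) (hf1 : NA.pd s t ≠ f) (hf2 : NA.pd s t ≠ p f) (hd : Cd p s d)
    (sd : d ∈ s.1 ↔ t ∈ s.1) (ne : d ≠ t) (ne' : d ≠ p t) (hz : Cd p s z) (sz : z ∈ s.1 ↔ t ∉ s.1) : DG p 7 f s := by
  have hw := hg.wf
  have hn := hw.nd
  have dis : ∀ v, v ∈ s.2 → v ∉ s.1 := fun v hv => fix_of_disj hn hv
  have scA : ∀ v, v ∈ s.1 → NA.sc s v ∈ s.1 := by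
    intro v hv; rw [sc_mem1 hn hv]; exact List.formPerm_apply_mem_of_mem hv
  have scB : ∀ v, v ∈ s.2 → NA.sc s v ∈ s.2 := by
    intro v hv; rw [sc_mem2 hn hv]; exact List.formPerm_apply_mem_of_mem hv
  have h1 : NA.sc s (NA.pd s t) = t := by simp [NA.pd]
  rcases ht with ht | ht
  · have hd' : NA.Red p s d := by
      rcases hd with hd | hd
      · exact hd
      · exact absurd (sd.mpr ht.1) (dis _ hd.1)
    have hz' : NA.Blu p s z := by
      rcases hz with hz | hz
      · exact absurd ht.1 (sz.mp hz.1)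
      · exact hz
    have hgm' : NA.MA p s (NA.pd s t) := by
      rcases hgm with h2 | h2
      · exact h2
      · exact absurd ht.1 (dis _ (h1 ▸ scB _ h2.1))
    have hxm' : NA.MA p s (NA.sc s t) := by
      rcases hxm with h2 | h2
      · exact h2
      · exact absurd (scA _ ht.1) (dis _ h2.1)
    exact (big1A hw hg.last hg.fA ht.1 ht.2 hgm'.1 hgm'.2 hxm'.1 hxm'.2 h1 rfl h hf2 hd'.1 hd'.2 ne ne' hz'.1 hz'.2).dg
  · have hnt := dis _ ht.1
    have hd' : NA.Blu p s d := by
      rcases hd with hd | hd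
      · exact absurd (sd.mp hd.1) hnt
      · exact hd
    have hz' : NA.Red p s z := by
      rcases hz with hz | hz
      · exact hz
      · exact absurd (sz.mpr hnt) (dis _ hz.1)
    have hgm' : NA.MB p s (NA.pd s t) := by
      rcases hgm with h2 | h2
      · exact absurd (h1 ▸ scA _ h2.1) hnt
      · exact h2
    have hxm' : NA.MB p s (NA.sc s t) := by
      rcases hxm with h2 | h2
      · exact absurd h2.1 (dis _ (scB _ ht.1))
      · exact h2
    exact (big1B hw hg.last hg.fA ht.1 ht.2 hgm'.1 hgm'.2 hxm'.1 hxm'.2 h1 rfl h hf1 hd'.1 hd'.2 ne ne' hz'.1 hz'.2).dg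

/-- **BIG2**: both legs of `c` in one bigon; `c`, `d`, `z` are the coloured letters. -/
theorem BIG2 {c d z : Ω} (h : Tri p f s c d z) (h0 : NA.sc s c = p c) (hgm : T1C.Mx p s (NA.pd s c))
    (hxm : T1C.Mx p s (NA.sc s (p c))) (h3 : NA.sc s (p (NA.pd s c)) = p (NA.sc s (p c))) : DG p 8 f s := by
  have hg := h.gp
  have hw := hg.wf
  have hn := hw.nd
  have hp := hw.inv
  have dis : ∀ v, v ∈ s.2 → v ∉ s.1 := fun v hv => fix_of_disj hn hv
  have scA : ∀ v, v ∈ s.1 → NA.sc s v ∈ s.1 := by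
    intro v hv; rw [sc_mem1 hn hv]; exact List.formPerm_apply_mem_of_mem hv
  have scB : ∀ v, v ∈ s.2 → NA.sc s v ∈ s.2 := by
    intro v hv; rw [sc_mem2 hn hv]; exact List.formPerm_apply_mem_of_mem hv
  have h1 : NA.sc s (NA.pd s c) = c := by simp [NA.pd]
  have mix : ∀ v ∈ s.1 ++ s.2, v ∉ tri p c d z → (v ∈ s.1 → p v ∈ s.2) ∧ (v ∈ s.2 → p v ∈ s.1) := by
    intro v hv hv'
    have h2 : ¬ Cd p s v := fun h4 => hv' (h.only v h4)
    have h4 := hw.cl v hv
    rw [List.mem_append] at h4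
    constructor
    · intro h5
      rcases h4 with h4 | h4
      · exact absurd (Or.inl ⟨h5, h4⟩) h2
      · exact h4
    · intro h5
      rcases h4 with h4 | h4
      · exact h4
      · exact absurd (Or.inr ⟨h5, h4⟩) h2
  rcases h.cc with hc | hc
  · have hd' : NA.Red p s d := by
      rcases h.cd with hd | hd
      · exact hd
      · exact absurd (h.sd.mpr hc.1) (dis _ hd.1)
    have hz' : NA.Blu p s z := by
      rcases h.cz with hz | hz
      · exact absurd hc.1 (h.sz.mp hz.1)
      · exact hz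
    have hgm' : NA.MA p s (NA.pd s c) := by
      rcases hgm with h2 | h2
      · exact h2
      · exact absurd hc.1 (dis _ (h1 ▸ scB _ h2.1))
    have hxm' : NA.MA p s (NA.sc s (p c)) := by
      rcases hxm with h2 | h2
      · exact h2
      · exact absurd (scA _ hc.2) (dis _ h2.1)
    refine (big2A hw hg.last hg.fA hc.1 hc.2 hgm'.1 hgm'.2 hxm'.1 hxm'.2 h1 h0 rfl h3 hd'.1 hd'.2 h.ne h.ne' hz'.1 hz'.2 ?_ ?_).dg
    · intro v hv v1 v2 v3 v4
      refine (mix v (List.mem_append_left _ hv) ?_).1 hv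
      rw [mem_tri]
      rintro (e | e | e | e | e | e)
      · exact v1 e
      · exact v2 e
      · exact v3 e
      · exact v4 e
      · exact dis _ hz'.1 (e ▸ hv)
      · exact dis _ hz'.2 (e ▸ hv)
    · intro v hv v1 v2
      refine (mix v (List.mem_append_right _ hv) ?_).2 hv
      rw [mem_tri]
      rintro (e | e | e | e | e | e)
      · exact dis _ hv (e ▸ hc.1)
      · exact dis _ hv (e ▸ hc.2)
      · exact dis _ hv (e ▸ hd'.1)
      · exact dis _ hv (e ▸ hd'.2)
      · exact v1 e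
      · exact v2 e
  · have hnt := dis _ hc.1
    have hd' : NA.Blu p s d := by
      rcases h.cd with hd | hd
      · exact absurd (h.sd.mp hd.1) hnt
      · exact hd
    have hz' : NA.Red p s z := by
      rcases h.cz with hz | hz
      · exact hz
      · exact absurd (h.sz.mpr hnt) (dis _ hz.1)
    have hgm' : NA.MB p s (NA.pd s c) := by
      rcases hgm with h2 | h2
      · exact absurd (h1 ▸ scA _ h2.1) hnt
      · exact h2
    have hxm' : NA.MB p s (NA.sc s (p c)) := by
      rcases hxm with h2 | h2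
      · exact absurd h2.1 (dis _ (scB _ hc.2))
      · exact h2
    refine (big2B hw hg.last hg.fA hc.1 hc.2 hgm'.1 hgm'.2 hxm'.1 hxm'.2 h1 h0 rfl h3 hd'.1 hd'.2 h.ne h.ne' hz'.1 hz'.2 ?_ ?_).dg
    · intro v hv v1 v2
      refine (mix v (List.mem_append_left _ hv) ?_).1 hv
      rw [mem_tri]
      rintro (e | e | e | e | e | e)
      · exact dis _ hc.1 (e ▸ hv)
      · exact dis _ hc.2 (e ▸ hv)
      · exact dis _ hd'.1 (e ▸ hv)
      · exact dis _ hd'.2 (e ▸ hv)
      · exact v1 e
      · exact v2 e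
    · intro v hv v1 v2 v3 v4
      refine (mix v (List.mem_append_right _ hv) ?_).2 hv
      rw [mem_tri]
      rintro (e | e | e | e | e | e)
      · exact v1 e
      · exact v2 e
      · exact v3 e
      · exact v4 e
      · exact dis _ hv (e ▸ hz'.1)
      · exact dis _ hv (e ▸ hz'.2)

end Pool.Agent.helper55.BG
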