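import Pool.Agent.helper32.RH.Main
import Pool.Agent.helper32.RH.RhoL
import Pool.Agent.helper55.NTS.Lift

/-!
# MP_c8d30a, exponent 12: checked drops

A leaf: symbolic words `A`, `B`, target words `A'`, `B'` with fewer coloured letters, routes both ways.
Atoms: `10`, `11` the tokens of the letter of the marker (`10` is the last atom of `B`), `12`, `13` are
reserved for the fresh letter `e`.
-/

set_option autoImplicit false

namespace Pool.Agent.helper55.BG

open NTH Pool.Agent.helper32.RH

variable {Ω : Type} {p : Ω → Ω}

/-- the number of tokens with the partner in the same word. -/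
def cnw (V : List ℕ) : List ℕ → ℕ
  | [] => 0
  | a :: w => match Nat.blt a 64 with
    | true => match mb (a ^^^ 1) V with
      | true => cnw V w + 1
      | false => cnw V w
    | false => cnw V w

/-- all blocks of the word are in `V`. -/
def hmb (V : List ℕ) : List ℕ → Bool
  | [] => true
  | a :: w => match Nat.blt a 64 with
    | true => hmb V w
    | false => match mb a V with
      | true => hmb V w
      | false => false

/-- all atoms of the word are in `V`. -/
def sub (V : List ℕ) : List ℕ → Bool
  | [] => true
  | a :: w => match mb a V with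
    | true => sub V w
    | false => false

/-- no atom twice. -/
def ndp : List ℕ → Bool
  | [] => true
  | a :: w => match mb a w with
    | true => false
    | false => ndp w

/-- the last atom. -/
def lstb (b : ℕ) : List ℕ → Bool
  | [] => false
  | [a] => Nat.beq a b
  | _ :: c :: w => lstb b (c :: w)

/-- the tokens of the word have their partners in `V`. -/
def clob (V : List ℕ) : List ℕ → Bool
  | [] => true
  | a :: w => match Nat.blt a 64 with
    | false => clob V w
    | true => match mb (a ^^^ 1) V with
      | true => clob V w
      | false => false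

theorem mb_iff (t : ℕ) (w : List ℕ) : mb t w = true ↔ t ∈ w := by
  refine ⟨mb_spec t w, ?_⟩
  induction w with
  | nil => intro h; simp at h
  | cons a w ih =>
    intro h
    unfold mb
    cases hb : Nat.beq a t with
    | true => rfl
    | false =>
      rcases List.mem_cons.mp h with rfl | h
      · rw [Nat.beq_refl] at hb; simp at hb
      · exact ih h

theorem mb_false (t : ℕ) (w : List ℕ) : mb t w = false ↔ t ∉ w := by
  rw [← mb_iff]; simp

theorem blt_iff (a : ℕ) : Nat.blt a 64 = true ↔ a < 64 := by simp [Nat.blt_eq]

theorem blt_false (a : ℕ) : Nat.blt a 64 = false ↔ 64 ≤ a := by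
  rw [← not_iff_not]
  simp

theorem cnw_eq (V w : List ℕ) : cnw V w = (w.filter (fun a => decide (a < 64))).countP (fun a => decide (a ^^^ 1 ∈ V)) := by
  induction w with
  | nil => rfl
  | cons a w ih =>
    unfold cnw
    cases h1 : Nat.blt a 64 with
    | false =>
      have h2 : ¬ a < 64 := by have := (blt_false a).mp h1; omega
      simp [h2, ih]
    | true =>
      have h2 : a < 64 := (blt_iff a).mp h1
      cases h3 : mb (a ^^^ 1) V with
      | true =>
        have h4 := (mb_iff _ _).mp h3
        simp [h2, h4, ih]
      | false =>
        have h4 := (mb_false _ _).mp h3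
        simp [h2, h4, ih]

theorem hmb_spec {V w : List ℕ} (h : hmb V w = true) : ∀ a ∈ w, 64 ≤ a → a ∈ V := by
  induction w with
  | nil => intro a ha; simp at ha
  | cons b w ih =>
    unfold hmb at h
    intro a ha h64
    cases h1 : Nat.blt b 64 with
    | true =>
      rw [h1] at h
      rcases List.mem_cons.mp ha with rfl | ha
      · have := (blt_iff a).mp h1; omega
      · exact ih h a ha h64
    | false =>
      rw [h1] at h
      cases h2 : mb b V with
      | false => rw [h2] at h; exact absurd h (by simp)
      | true =>
        rw [h2] at h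
        rcases List.mem_cons.mp ha with rfl | ha
        · exact (mb_iff _ _).mp h2
        · exact ih h a ha h64

theorem sub_spec {V w : List ℕ} (h : sub V w = true) : ∀ a ∈ w, a ∈ V := by
  induction w with
  | nil => intro a ha; simp at ha
  | cons b w ih =>
    unfold sub at h
    intro a ha
    cases h2 : mb b V with
    | false => rw [h2] at h; exact absurd h (by simp)
    | true =>
      rw [h2] at h
      rcases List.mem_cons.mp ha with rfl | ha
      · exact (mb_iff _ _).mp h2
      · exact ih h a ha

theorem ndp_spec {w : List ℕ} (h : ndp w = true) : w.Nodup := by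
  induction w with
  | nil => exact List.nodup_nil
  | cons b w ih =>
    unfold ndp at h
    cases h2 : mb b w with
    | true => rw [h2] at h; exact absurd h (by simp)
    | false =>
      rw [h2] at h
      exact List.nodup_cons.mpr ⟨(mb_false _ _).mp h2, ih h⟩

theorem lstb_spec {b : ℕ} : ∀ {w : List ℕ}, lstb b w = true → ∃ v, w = v ++ [b]
  | [], h => by simp [lstb] at h
  | [a], h => ⟨[], by
      have := Nat.eq_of_beq_eq_true (show Nat.beq a b = true from h)
      simp [this]⟩
  | a :: c :: w, h => by
    obtain ⟨v, hv⟩ := lstb_spec (w := c :: w) h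
    exact ⟨a :: v, by rw [hv]; rfl⟩

theorem clob_spec {V w : List ℕ} (h : clob V w = true) : ∀ a ∈ w, a < 64 → a ^^^ 1 ∈ V := by
  induction w with
  | nil => intro a ha; simp at ha
  | cons b w ih =>
    unfold clob at h
    intro a ha h64
    cases h1 : Nat.blt b 64 with
    | false =>
      rw [h1] at h
      rcases List.mem_cons.mp ha with rfl | ha
      · have := (blt_false a).mp h1; omega
      · exact ih h a ha h64
    | true =>
      rw [h1] at h
      cases h2 : mb (b ^^^ 1) V with
      | false => rw [h2] at h; exact absurd h (by simp)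
      | true =>
        rw [h2] at h
        rcases List.mem_cons.mp ha with rfl | ha
        · exact (mb_iff _ _).mp h2
        · exact ih h a ha h64

/-- the check of a leaf without the routes. -/
def lfc (A B A' B' : List ℕ) : Bool :=
  sub (A ++ B) (A' ++ B') && (sub (A' ++ B') (A ++ B) && (ndp (A' ++ B') && (ndp (A ++ B) && (lstb 10 B' &&
  (mb 11 A' && (hmb A' A && (hmb B' B && (clob (A ++ B) (A ++ B) && (!(mb 12 (A ++ B)) && (!(mb 13 (A ++ B)) &&
  (pr A' A' && (pr B' B' && Nat.blt (cnw A' A' + cnw B' B') (cnw A A + cnw B B)))))))))))))

/-- a route; it starts with the second word if the first number is `0`. -/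
def gz (ks : List ℕ) (U V : List ℕ) : Option (List ℕ × List ℕ × ℕ) :=
  match ks with
  | [] => some (U, V, 0)
  | k :: r => match Nat.beq k 0 with
    | true => go r false U V 0
    | false => go (k :: r) true U V 0

/-- a checked route of at most `K` runs. -/
def okz (K : ℕ) (ks : List ℕ) (U V U' V' : List ℕ) : Bool :=
  match pr U U with
  | false => false
  | true => match pr V V with
    | false => false
    | true => match gz ks U V with
      | none => false
      | some r => match eqw r.1 U' with
        | false => false
        | true => match eqw r.2.1 V' with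
          | false => false
          | true => Nat.ble r.2.2 K

theorem okz_sound {K : ℕ} {ks : List ℕ} {U V U' V' : List ℕ} (h : okz K ks U V U' V' = true)
    (τ : ℕ → Ω) (σ : ℕ → List Ω) (hτ : ∀ t, t < 64 → τ (t ^^^ 1) = p (τ t)) :
    Rn p (N p) K (vl τ σ U, vl τ σ V) (vl τ σ U', vl τ σ V') := by
  unfold okz at h
  cases h1 : pr U U with
  | false => rw [h1] at h; simp at h
  | true =>
    rw [h1] at h
    simp only at h
    cases h2 : pr V V with
    | false => rw [h2] at h; simp at h
    | true =>
      rw [h2] at h
      simp only at h
      cases h3 : gz ks U V with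
      | none => rw [h3] at h; simp at h
      | some r =>
        rw [h3] at h
        simp only at h
        cases h4 : eqw r.1 U' with
        | false => rw [h4] at h; simp at h
        | true =>
          rw [h4] at h
          simp only at h
          cases h5 : eqw r.2.1 V' with
          | false => rw [h5] at h; simp at h
          | true =>
            rw [h5] at h
            simp only at h
            have h6 : r.2.2 ≤ K := Nat.le_of_ble_eq_true h
            have hN : N p (vl τ σ U, vl τ σ V) := ⟨pr_pair τ σ hτ h1, pr_pair τ σ hτ h2⟩
            rw [← eqw_eq _ _ h4, ← eqw_eq _ _ h5]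
            unfold gz at h3
            match ks, h3 with
            | [], h3 =>
              simp only [Option.some.injEq] at h3
              subst h3
              exact (Rn.refl 0 _ hN).mono (by omega)
            | k :: r', h3 =>
              simp only at h3
              cases h7 : Nat.beq k 0 with
              | true =>
                rw [h7] at h3
                obtain ⟨d, h8, h9⟩ := go_sound (p := p) τ σ hτ r' false U V 0 r.1 r.2.1 r.2.2 h3 hN
                exact h9.mono (by omega)
              | false =>
                rw [h7] at h3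
                obtain ⟨d, h8, h9⟩ := go_sound (p := p) τ σ hτ (k :: r') true U V 0 r.1 r.2.1 r.2.2 h3 hN
                exact h9.mono (by omega)

/-- the check of a leaf. -/
def lf (K : ℕ) (A B A' B' k1 k2 : List ℕ) : Bool :=
  match okz K k1 (A ++ [13]) (12 :: B) (A' ++ [13]) (12 :: B') with
  | false => false
  | true => match okz K k2 (A' ++ [13]) (12 :: B') (A ++ [13]) (12 :: B) with
    | false => false
    | true => lfc A B A' B'

/-- a valid valuation. -/
structure Vd (p : Ω → Ω) (τ : ℕ → Ω) (σ : ℕ → List Ω) (A B : List ℕ) : Prop where
  part : ∀ t, t < 64 → τ (t ^^^ 1) = p (τ t)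
  wf : WF p (vl τ σ A, vl τ σ B)

/-- the state drops with at most `K` runs. -/
def Dr (p : Ω → Ω) (K : ℕ) (f : Ω) (s : St Ω) : Prop :=
  ∃ s', RTs p K s s' ∧ WF p s' ∧ s'.2.getLast? = some f ∧ p f ∈ s'.1 ∧ (∃ o, o ∈ s'.1 ∧ p o ∈ s'.1) ∧
    (∃ o, o ∈ s'.2 ∧ p o ∈ s'.2) ∧ NTS.D2 p s' < NTS.D2 p s ∧ (s'.1 ++ s'.2).Perm (s.1 ++ s.2)

theorem vl_perm {τ : ℕ → Ω} {σ : ℕ → List Ω} {v w : List ℕ} (h : v.Perm w) : (vl τ σ v).Perm (vl τ σ w) :=
  h.flatMap_right _

theorem vl_congr {τ τ' : ℕ → Ω} {σ σ' : ℕ → List Ω} {w : List ℕ} (h : ∀ a ∈ w, at1 τ' σ' a = at1 τ σ a) :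
    vl τ' σ' w = vl τ σ w := List.flatMap_congr h

theorem mem_vl' {τ : ℕ → Ω} {σ : ℕ → List Ω} {w : List ℕ} {t : Ω} : t ∈ vl τ σ w ↔ ∃ a ∈ w, t ∈ at1 τ σ a :=
  List.mem_flatMap

theorem D2_congr {s t : St Ω} (h1 : s.1.Perm t.1) (h2 : s.2.Perm t.2) : NTS.D2 p s = NTS.D2 p t := by
  classical
  unfold NTS.D2
  congr 1
  · rw [h1.countP_eq]
    apply List.countP_congr
    intro a _
    simp [h1.mem_iff]
  · rw [h2.countP_eq]
    apply List.countP_congr
    intro a _
    simp [h2.mem_iff]

end Pool.Agent.helper55.BG
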