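import Pool.Agent.helper55.BG.Leaf

/-!
# MP_c8d30a, exponent 12: soundness of a leaf
-/

set_option autoImplicit false

namespace Pool.Agent.helper55.BG

open NTH Pool.Agent.helper32.RH

variable {Ω : Type} {p : Ω → Ω}

theorem xor_xor (a : ℕ) : a ^^^ 1 ^^^ 1 = a := by rw [Nat.xor_assoc, Nat.xor_self, Nat.xor_zero]

/-- different explicit atoms have different meanings. -/
theorem tok_ne {τ : ℕ → Ω} {σ : ℕ → List Ω} {W : List ℕ} (hn : (vl τ σ W).Nodup) {a b : ℕ} (ha : a ∈ W) (hb : b ∈ W)
    (ha64 : a < 64) (hb64 : b < 64) (h : τ a = τ b) : a = b := by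
  by_contra hab
  have := at1_pw τ σ hn ha hb hab
  rw [show at1 τ σ a = [τ a] by simp [at1, ha64], show at1 τ σ b = [τ b] by simp [at1, hb64]] at this
  exact this (List.mem_singleton.mpr rfl) (by rw [h]; exact List.mem_singleton.mpr rfl)

/-- explicit tokens of a sub word. -/
theorem filt_tok {τ : ℕ → Ω} {σ : ℕ → List Ω} {W : List ℕ} (hn : (vl τ σ W).Nodup) (K : Ω → Bool)
    (hK : ∀ t, K t = true ↔ ∃ a ∈ W, a < 64 ∧ τ a = t) (L : List ℕ) (hL : ∀ a ∈ L, a ∈ W) :
    (vl τ σ L).filter K = (L.filter (fun a => decide (a < 64))).map τ := by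
  induction L with
  | nil => rfl
  | cons a L ih =>
    have ih := ih (fun b hb => hL b (List.mem_cons_of_mem _ hb))
    have haW := hL a List.mem_cons_self
    rw [vl_cons, List.filter_append, ih]
    by_cases h64 : a < 64
    · have h1 : K (τ a) = true := (hK _).mpr ⟨a, haW, h64, rfl⟩
      simp [at1, h64, h1]
    · have h1 : (at1 τ σ a).filter K = [] := by
        rw [List.filter_eq_nil_iff]
        intro t ht h2
        obtain ⟨b, hb, hb64, hbt⟩ := (hK t).mp h2
        have := at1_pw τ σ hn haW hb (by rintro rfl; exact h64 hb64)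
        refine this ht ?_
        simp [at1, hb64, hbt]
      simp [h1, h64]

/-- the number of coloured explicit tokens. -/
theorem D2_tok {τ : ℕ → Ω} {σ : ℕ → List Ω} {W : List ℕ} (hn : (vl τ σ W).Nodup) (K : Ω → Bool)
    (hK : ∀ t, K t = true ↔ ∃ a ∈ W, a < 64 ∧ τ a = t) (hc : ∀ a ∈ W, a < 64 → a ^^^ 1 ∈ W)
    (hτ : ∀ t, t < 64 → τ (t ^^^ 1) = p (τ t)) (A B : List ℕ) (hA : ∀ a ∈ A, a ∈ W) (hB : ∀ a ∈ B, a ∈ W) :
    NTS.D2 p (NTS.filt K (vl τ σ A, vl τ σ B)) = cnw A A + cnw B B := by
  classical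
  have key : ∀ L : List ℕ, (∀ a ∈ L, a ∈ W) →
      ((vl τ σ L).filter K).countP (fun t => decide (p t ∈ (vl τ σ L).filter K)) = cnw L L := by
    intro L hL
    rw [filt_tok hn K hK L hL, List.countP_map, cnw_eq]
    apply List.countP_congr
    intro a ha
    rw [List.mem_filter] at ha
    have ha64 : a < 64 := by simpa using ha.2
    have haW := hL a ha.1
    simp only [Function.comp, decide_eq_true_eq, ← hτ a ha64, List.mem_map, List.mem_filter]
    constructor
    · rintro ⟨b, ⟨hb, hb64⟩, hbt⟩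
      have := tok_ne hn (hL b hb) (hc a haW ha64) hb64 (xor_lt ha64) hbt
      rwa [← this]
    · intro h
      exact ⟨a ^^^ 1, ⟨h, xor_lt ha64⟩, rfl⟩
  unfold NTS.D2 NTS.filt
  simp only
  rw [key A hA, key B hB]

theorem bool_and {a b : Bool} (h : (a && b) = true) : a = true ∧ b = true := by simpa using h

/-- **a leaf is a drop**. -/
theorem lf_sound {K : ℕ} {A B A' B' k1 k2 : List ℕ} (h : lf K A B A' B' k1 k2 = true) {τ : ℕ → Ω} {σ : ℕ → List Ω}
    (hv : Vd p τ σ A B) : Dr p K (τ 10) (vl τ σ A, vl τ σ B) := by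
  classical
  unfold lf at h
  cases h1 : okz K k1 (A ++ [13]) (12 :: B) (A' ++ [13]) (12 :: B') with
  | false => rw [h1] at h; exact absurd h (by simp)
  | true =>
  rw [h1] at h
  simp only at h
  cases h2 : okz K k2 (A' ++ [13]) (12 :: B') (A ++ [13]) (12 :: B) with
  | false => rw [h2] at h; exact absurd h (by simp)
  | true =>
  rw [h2] at h
  simp only at h
  unfold lfc at h
  obtain ⟨c1, h⟩ := bool_and h
  obtain ⟨c2, h⟩ := bool_and h
  obtain ⟨c3, h⟩ := bool_and h
  obtain ⟨c4, h⟩ := bool_and h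
  obtain ⟨c5, h⟩ := bool_and h
  obtain ⟨c6, h⟩ := bool_and h
  obtain ⟨c7, h⟩ := bool_and h
  obtain ⟨c8, h⟩ := bool_and h
  obtain ⟨c9, h⟩ := bool_and h
  obtain ⟨c10, h⟩ := bool_and h
  obtain ⟨c11, h⟩ := bool_and h
  obtain ⟨c12, h⟩ := bool_and h
  obtain ⟨c13, c14⟩ := bool_and h
  have s1 := sub_spec c1
  have s2 := sub_spec c2
  have n1 := ndp_spec c3
  have n2 := ndp_spec c4
  obtain ⟨v, hlast⟩ := lstb_spec c5
  have m11 := (mb_iff _ _).mp c6
  have hA := hmb_spec c7
  have hB := hmb_spec c8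
  have hcl := clob_spec c9
  have e12 : (12 : ℕ) ∉ A ++ B := (mb_false _ _).mp (by simpa using c10)
  have e13 : (13 : ℕ) ∉ A ++ B := (mb_false _ _).mp (by simpa using c11)
  have hperm : (A' ++ B').Perm (A ++ B) := (List.perm_ext_iff_of_nodup n1 n2).mpr (fun a => ⟨s1 a, s2 a⟩)
  have hvp : (vl τ σ (A' ++ B')).Perm (vl τ σ (A ++ B)) := vl_perm hperm
  have hwf := hv.wf
  have hτ := hv.part
  have hp := hwf.inv
  have hnd : (vl τ σ (A ++ B)).Nodup := by rw [vl_append]; exact hwf.nd
  have hnd' : (vl τ σ (A' ++ B')).Nodup := hvp.nodup_iff.mpr hnd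
  have hwf' : WF p (vl τ σ A', vl τ σ B') := by
    refine ⟨by rw [← vl_append]; exact hnd', ?_, hwf.inv, hwf.ne⟩
    intro t ht
    simp only [← vl_append] at ht ⊢
    rw [hvp.mem_iff] at ht ⊢
    rw [vl_append] at ht ⊢
    exact hwf.cl t ht
  have h11 : τ 11 = p (τ 10) := hτ 10 (by norm_num)
  refine ⟨(vl τ σ A', vl τ σ B'), ?_, hwf', ?_, ?_, ?_, ?_, ?_, by simp only [← vl_append]; exact hvp⟩
  · -- the routes
    intro e he he'
    set τ' : ℕ → Ω := fun j => if j = 12 then e else if j = 13 then p e else τ j with hτ'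
    have ev : ∀ w : List ℕ, (∀ a ∈ w, a ∈ A ++ B) → vl τ' σ w = vl τ σ w := by
      intro w hw
      apply vl_congr
      intro a ha
      have h12 : a ≠ 12 := by rintro rfl; exact e12 (hw _ ha)
      have h13 : a ≠ 13 := by rintro rfl; exact e13 (hw _ ha)
      simp [at1, hτ', h12, h13]
    have hpart : ∀ t, t < 64 → τ' (t ^^^ 1) = p (τ' t) := by
      intro t ht
      by_cases h12 : t = 12
      · subst h12; simp [hτ']
      by_cases h13 : t = 13
      · subst h13; simp [hτ', hp]
      have q1 : t ^^^ 1 ≠ 12 := by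
        intro e1
        apply h13
        have := congrArg (· ^^^ 1) e1
        simp only [xor_xor] at this
        rw [this]
        decide
      have q2 : t ^^^ 1 ≠ 13 := by
        intro e1
        apply h12
        have := congrArg (· ^^^ 1) e1
        simp only [xor_xor] at this
        rw [this]
        decide
      simp only [hτ', h12, h13, q1, q2, if_false]
      exact hτ t ht
    have r1 := okz_sound h1 τ' σ hpart
    have r2 := okz_sound h2 τ' σ hpart
    have i1 : vl τ' σ (A ++ [13]) = vl τ σ A ++ [p e] := by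
      rw [vl_append, ev A (fun a ha => List.mem_append_left _ ha)]
      simp [vl, at1, hτ']
    have i2 : vl τ' σ (12 :: B) = e :: vl τ σ B := by
      rw [vl_tok τ' σ (by norm_num), ev B (fun a ha => List.mem_append_right _ ha)]
      simp [hτ']
    have i3 : vl τ' σ (A' ++ [13]) = vl τ σ A' ++ [p e] := by
      rw [vl_append, ev A' (fun a ha => s1 a (List.mem_append_left _ ha))]
      simp [vl, at1, hτ']
    have i4 : vl τ' σ (12 :: B') = e :: vl τ σ B' := by
      rw [vl_tok τ' σ (by norm_num), ev B' (fun a ha => s1 a (List.mem_append_right _ ha))]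
      simp [hτ']
    rw [i1, i2, i3, i4] at r1 r2
    exact ⟨r1, r2⟩
  · simp only
    rw [hlast, vl_append]
    simp [vl, at1]
  · simp only
    rw [← h11]
    exact mem_vl τ σ (by norm_num) m11
  · exact pr_pair τ σ hτ c12
  · exact pr_pair τ σ hτ c13
  · -- the number of coloured tokens
    set Kf : Ω → Bool := fun t => decide (∃ a ∈ A ++ B, a < 64 ∧ τ a = t) with hKf
    have hK : ∀ t, Kf t = true ↔ ∃ a ∈ A ++ B, a < 64 ∧ τ a = t := fun t => by simp only [hKf, decide_eq_true_eq]
    have hKp : ∀ t, Kf (p t) = Kf t := by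
      have one : ∀ t, Kf t = true → Kf (p t) = true := by
        intro t ht
        obtain ⟨a, ha, ha64, rfl⟩ := (hK t).mp ht
        exact (hK _).mpr ⟨a ^^^ 1, hcl a ha ha64, xor_lt ha64, hτ a ha64⟩
      intro t
      cases h3 : Kf t with
      | true => exact one t h3
      | false =>
        cases h4 : Kf (p t) with
        | false => rfl
        | true =>
          have := one _ h4
          rw [hp, h3] at this
          exact absurd this (by simp)
    rw [NTS.D2_filt hKp (vl τ σ A', vl τ σ B'), NTS.D2_filt hKp (vl τ σ A, vl τ σ B)]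
    rw [D2_tok hnd Kf hK hcl hτ A B (fun a ha => List.mem_append_left _ ha) (fun a ha => List.mem_append_right _ ha)]
    rw [D2_tok hnd Kf hK hcl hτ A' B' (fun a ha => s1 a (List.mem_append_left _ ha)) (fun a ha => s1 a (List.mem_append_right _ ha))]
    have hlt : cnw A' A' + cnw B' B' < cnw A A + cnw B B := by simpa [Nat.blt_eq] using c14
    have heq : NTS.D2 p (NTS.filt (fun t => !Kf t) (vl τ σ A', vl τ σ B')) =
        NTS.D2 p (NTS.filt (fun t => !Kf t) (vl τ σ A, vl τ σ B)) := by
      have blk : ∀ (W : List ℕ) (t : Ω), (∀ a ∈ W, a ∈ A ++ B) → t ∈ vl τ σ W → Kf t = false →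
          ∃ a ∈ W, 64 ≤ a ∧ t ∈ at1 τ σ a := by
        intro W t hW ht hk
        obtain ⟨a, ha, hat⟩ := mem_vl'.mp ht
        refine ⟨a, ha, ?_, hat⟩
        by_contra h64
        have h64' : a < 64 := by omega
        have : Kf t = true := (hK t).mpr ⟨a, hW a ha, h64', (show t = τ a by simpa [at1, h64'] using hat).symm⟩
        rw [this] at hk
        exact absurd hk (by simp)
      have hin : ∀ a, a ∈ A' → 64 ≤ a → a ∈ A := by
        intro a ha h64
        rcases List.mem_append.mp (s1 a (List.mem_append_left _ ha)) with h3 | h3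
        · exact h3
        · exact absurd rfl ((List.nodup_append.mp n1).2.2 a ha a (hB a h3 h64))
      have hin2 : ∀ a, a ∈ B' → 64 ≤ a → a ∈ B := by
        intro a ha h64
        rcases List.mem_append.mp (s1 a (List.mem_append_right _ ha)) with h3 | h3
        · exact absurd rfl ((List.nodup_append.mp n1).2.2 a (hA a h3 h64) a ha)
        · exact h3
      have pm : ∀ (L L' : List ℕ), (vl τ σ L).Nodup → (vl τ σ L').Nodup → (∀ a ∈ L, a ∈ A ++ B) → (∀ a ∈ L', a ∈ A ++ B) →
          (∀ a ∈ L, 64 ≤ a → a ∈ L') → (∀ a ∈ L', 64 ≤ a → a ∈ L) →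
          ((vl τ σ L').filter (fun t => !Kf t)).Perm ((vl τ σ L).filter (fun t => !Kf t)) := by
        intro L L' q1 q2 q3 q4 q5 q6
        rw [List.perm_ext_iff_of_nodup (q2.filter _) (q1.filter _)]
        intro t
        simp only [List.mem_filter, Bool.not_eq_true']
        constructor
        · rintro ⟨h3, h4⟩
          obtain ⟨a, ha, h64, hat⟩ := blk L' t q4 h3 h4
          exact ⟨mem_vl'.mpr ⟨a, q6 a ha h64, hat⟩, h4⟩
        · rintro ⟨h3, h4⟩
          obtain ⟨a, ha, h64, hat⟩ := blk L t q3 h3 h4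
          exact ⟨mem_vl'.mpr ⟨a, q5 a ha h64, hat⟩, h4⟩
      rw [vl_append] at hnd hnd'
      apply D2_congr
      · exact pm A A' (List.nodup_append.mp hnd).1 (List.nodup_append.mp hnd').1 (fun a ha => List.mem_append_left _ ha)
          (fun a ha => s1 a (List.mem_append_left _ ha)) hA hin
      · exact pm B B' (List.nodup_append.mp hnd).2.1 (List.nodup_append.mp hnd').2.1 (fun a ha => List.mem_append_right _ ha)
          (fun a ha => s1 a (List.mem_append_right _ ha)) hB hin2
    rw [heq]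
    omega

end Pool.Agent.helper55.BG
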