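import Pool.Agent.helper55.BG.TreeS
import Pool.Agent.helper32.RH.Drop

/-!
# MP_c8d30a, exponent 12: chains of successors and infixes
-/

set_option autoImplicit false

namespace Pool.Agent.helper55.BG

open NTH Pool.Agent.helper32.RH List

variable {Ω : Type}

theorem split_uniq {L L' M M' : List Ω} {b : Ω} (h : L ++ b :: M = L' ++ b :: M') (hn : (L ++ b :: M).Nodup) :
    L = L' ∧ M = M' := by
  have hn' : (L' ++ b :: M').Nodup := h ▸ hn
  have h1 : b ∉ L := by
    intro hb
    exact (List.nodup_append.mp hn).2.2 b hb b List.mem_cons_self rfl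
  have h2 : b ∉ L' := by
    intro hb
    exact (List.nodup_append.mp hn').2.2 b hb b List.mem_cons_self rfl
  induction L generalizing L' with
  | nil =>
    cases L' with
    | nil => simp at h; exact ⟨rfl, h⟩
    | cons c L' =>
      simp at h
      exact absurd (h.1 ▸ List.mem_cons_self) h2
  | cons a L ih =>
    cases L' with
    | nil =>
      simp at h
      exact absurd (h.1 ▸ List.mem_cons_self) h1
    | cons c L' =>
      simp only [List.cons_append, List.cons.injEq] at h
      obtain ⟨h3, h4⟩ := ih h.2 (List.nodup_cons.mp hn).2 (List.nodup_cons.mp hn').2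
        (fun h' => h1 (List.mem_cons_of_mem _ h')) (fun h' => h2 (List.mem_cons_of_mem _ h'))
      exact ⟨by rw [h.1, h3], h4⟩

theorem chain_infix {W : List Ω} (hn : W.Nodup) : ∀ (u : List Ω), u ≠ [] → (∀ t ∈ u, t ∈ W) →
    u.IsChain (fun a b => [a, b] <:+: W) → u <:+: W := by
  intro u
  induction u with
  | nil => intro h; exact absurd rfl h
  | cons a u ih =>
    intro _ hm hc
    cases u with
    | nil => exact inf1 (hm a (by simp))
    | cons b u =>
      rw [List.isChain_cons_cons] at hc
      obtain ⟨L, R, h1⟩ := ih (by simp) (fun t ht => hm t (List.mem_cons_of_mem _ ht)) hc.2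
      obtain ⟨L', R', h2⟩ := hc.1
      have e : L ++ b :: (u ++ R) = (L' ++ [a]) ++ b :: R' := by
        have e1 : L ++ b :: (u ++ R) = W := by rw [← h1]; simp
        have e2 : (L' ++ [a]) ++ b :: R' = W := by rw [← h2]; simp
        rw [e1, e2]
      have hn' : (L ++ b :: (u ++ R)).Nodup := by
        have e1 : L ++ b :: (u ++ R) = W := by rw [← h1]; simp
        rw [e1]; exact hn
      obtain ⟨h3, h4⟩ := split_uniq e hn'
      refine ⟨L', R, ?_⟩
      rw [← h1, h3]
      simp

theorem chain_suffix {W : List Ω} (hn : W.Nodup) {h : Ω} : ∀ (u : List Ω), (∀ t ∈ u, t ∈ W) →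
    (u ++ [h]).IsChain (fun a b => [a, b] <:+: W) → W.getLast? = some h → u ++ [h] <:+ W := by
  intro u
  induction u with
  | nil =>
    intro _ _ hl
    obtain ⟨Y, hY⟩ := List.getLast?_eq_some_iff.mp hl
    exact ⟨Y, by rw [hY]; simp⟩
  | cons a u ih =>
    intro hm hc hl
    cases u with
    | nil =>
      simp only [List.cons_append, List.nil_append, List.isChain_cons_cons] at hc
      obtain ⟨Y, hY⟩ := List.getLast?_eq_some_iff.mp hl
      obtain ⟨L', R', h2⟩ := hc.1
      have e : Y ++ h :: [] = (L' ++ [a]) ++ h :: R' := by rw [← hY, ← h2]; simp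
      obtain ⟨h3, h4⟩ := split_uniq e (by rw [← hY]; exact hn)
      exact ⟨L', by rw [← h2, ← h4]; simp⟩
    | cons b u =>
      simp only [List.cons_append, List.isChain_cons_cons] at hc
      obtain ⟨L, h1⟩ := ih (fun t ht => hm t (List.mem_cons_of_mem _ ht)) (by simpa using hc.2) hl
      obtain ⟨L', R', h2⟩ := hc.1
      have e : L ++ b :: (u ++ [h]) = (L' ++ [a]) ++ b :: R' := by
        have e1 : L ++ b :: (u ++ [h]) = W := by rw [← h1]; simp
        have e2 : (L' ++ [a]) ++ b :: R' = W := by rw [← h2]; simp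
        rw [e1, e2]
      have hn' : (L ++ b :: (u ++ [h])).Nodup := by
        have e1 : L ++ b :: (u ++ [h]) = W := by rw [← h1]; simp
        rw [e1]; exact hn
      obtain ⟨h3, h4⟩ := split_uniq e hn'
      refine ⟨L', ?_⟩
      rw [← h1, h3]
      simp

theorem chain_prefix {W : List Ω} (hn : W.Nodup) : ∀ (u : List Ω) (v : Ω), (∀ t ∈ v :: u, t ∈ W) →
    (v :: u).IsChain (fun a b => [a, b] <:+: W) → (∃ R, W = v :: R) → v :: u <+: W := by
  intro u v hm hc ⟨R, hR⟩
  obtain ⟨L, R', h1⟩ := chain_infix hn (v :: u) (by simp) hm hc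
  have e : L ++ v :: (u ++ R') = [] ++ v :: R := by
    have e1 : L ++ v :: (u ++ R') = W := by rw [← h1]; simp
    rw [e1, hR]; rfl
  have hn' : (L ++ v :: (u ++ R')).Nodup := by
    have e1 : L ++ v :: (u ++ R') = W := by rw [← h1]; simp
    rw [e1]; exact hn
  obtain ⟨h3, h4⟩ := split_uniq e hn'
  exact ⟨R', by rw [← h1, h3]; simp⟩

theorem pre_suf {W P S : List Ω} (h1 : P <+: W) (h2 : S <:+ W) (hd : ∀ t ∈ P, t ∉ S) : ∃ X, W = P ++ (X ++ S) := by
  obtain ⟨R, rfl⟩ := h1
  obtain ⟨L, h3⟩ := h2
  rcases List.append_eq_append_iff.mp h3 with ⟨c, h4, h5⟩ | ⟨c, h4, h5⟩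
  · -- P = L ++ c, S = c ++ R
    cases c with
    | nil => exact ⟨[], by rw [h5]; simp⟩
    | cons a c => exact absurd (by rw [h5]; simp) (hd a (by rw [h4]; simp))
  · exact ⟨c, by rw [h5]⟩

theorem inf_mid {P X S u : List Ω} (h : u <:+: P ++ (X ++ S)) (hu : u ≠ []) (h1 : ∀ t ∈ u, t ∉ P) (h2 : ∀ t ∈ u, t ∉ S) :
    u <:+: X := by
  obtain ⟨L, R, h3⟩ := h
  rw [List.append_assoc] at h3
  -- first cut the prefix
  have key : u <:+: X ++ S := by
    rcases List.append_eq_append_iff.mp h3 with ⟨c, h4, h5⟩ | ⟨c, h4, h5⟩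
    · -- P = L ++ c, u ++ R = c ++ (X ++ S)
      cases c with
      | nil => exact ⟨[], R, by simpa using h5⟩
      | cons a c =>
        cases u with
        | nil => exact absurd rfl hu
        | cons b u =>
          simp only [List.cons_append, List.cons.injEq] at h5
          exact absurd (by rw [h4, h5.1]; simp) (h1 b List.mem_cons_self)
    · -- L = P ++ c
      exact ⟨c, R, by rw [h5]; simp⟩
  obtain ⟨L, R, h3⟩ := key
  rcases List.append_eq_append_iff.mp h3 with ⟨c, h4, h5⟩ | ⟨c, h4, h5⟩
  · -- X = (L ++ u) ++ c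
    exact ⟨L, c, h4.symm⟩
  · -- L ++ u = X ++ c, S = c ++ R
    rcases List.eq_nil_or_concat c with rfl | ⟨c', a, rfl⟩
    · exact ⟨L, [], by simpa using h4⟩
    · rcases List.eq_nil_or_concat u with rfl | ⟨u', b, rfl⟩
      · exact absurd rfl hu
      · have e : (L ++ u') ++ [b] = (X ++ c') ++ [a] := by simpa [List.concat_eq_append] using h4
        have := List.append_inj_right' e rfl
        simp only [List.cons.injEq, and_true] at this
        exact absurd (by rw [h5, this]; simp [List.concat_eq_append]) (h2 b (by simp [List.concat_eq_append]))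

variable [DecidableEq Ω]

/-- the successor in a word is an infix. -/
theorem succ_inf {W : List Ω} {h a b : Ω} (hn : W.Nodup) (hl : W.getLast? = some h) (ha : a ∈ W) (hah : a ≠ h)
    (hab : formPerm W a = b) : [a, b] <:+: W := by
  obtain ⟨Y, hY⟩ := List.getLast?_eq_some_iff.mp hl
  cases hW : W with
  | nil => rw [hW] at ha; simp at ha
  | cons c X =>
    rw [hW] at hn ha hab
    rcases succ_cases hn ha hab with ⟨_, L, e⟩ | ⟨L, R, e⟩
    · exfalso
      rw [hW, e] at hY
      have := List.append_inj_right' hY rfl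
      simp only [List.cons.injEq, and_true] at this
      exact hah this
    · exact ⟨L, R, by rw [e]; simp⟩

/-- the successor of the last token is the first token. -/
theorem succ_last {W : List Ω} {h b : Ω} (hn : W.Nodup) (hl : W.getLast? = some h) (hb : formPerm W h = b) : ∃ R, W = b :: R := by
  obtain ⟨Y, hY⟩ := List.getLast?_eq_some_iff.mp hl
  cases Y with
  | nil =>
    simp only [List.nil_append] at hY
    subst hY
    simp at hb
    exact ⟨[], by rw [hb]⟩
  | cons c Y =>
    simp only [List.cons_append] at hY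
    subst hY
    rw [fp_lst hn] at hb
    exact ⟨Y ++ [h], by rw [hb]⟩

end Pool.Agent.helper55.BG
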