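import Pool.Agent.helper32.RH.RhoL

/-!
# MP_c8d30a, exponent 12: tables of routes to the image of a state under a substitution of tokens
-/

set_option autoImplicit false

namespace Pool.Agent.helper55.BG

open NTH Pool.Agent.helper32.RH

universe u
variable {Ω : Type u} {p : Ω → Ω}

/-- look an atom up. -/
def look : List (ℕ × List ℕ) → ℕ → List ℕ
  | [], a => [a]
  | q :: mv, a => match Nat.beq a q.1 with
    | true => q.2
    | false => look mv a

/-- substitute in a symbolic word. -/
def sb (mv : List (ℕ × List ℕ)) : List ℕ → List ℕ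
  | [] => []
  | a :: w => look mv a ++ sb mv w

/-- substitute for one token. -/
noncomputable def gl : List (Ω × List Ω) → Ω → List Ω
  | [], t => [t]
  | q :: mv, t => by
    classical
    exact if t = q.1 then q.2 else gl mv t

theorem gl_nil (t : Ω) : gl ([] : List (Ω × List Ω)) t = [t] := rfl

theorem gl_eq (q : Ω × List Ω) (mv : List (Ω × List Ω)) {t : Ω} (h : t = q.1) : gl (q :: mv) t = q.2 := by
  unfold gl; simp [h]

theorem gl_ne (q : Ω × List Ω) (mv : List (Ω × List Ω)) {t : Ω} (h : t ≠ q.1) : gl (q :: mv) t = gl mv t := by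
  conv_lhs => unfold gl
  simp [h]

/-- the meaning of a substitution. -/
def mvt (τ : ℕ → Ω) (mv : List (ℕ × List ℕ)) : List (Ω × List Ω) := mv.map (fun q => (τ q.1, q.2.map τ))

/-- tokens outside of the keys do not change. -/
theorem gl_other {mv : List (Ω × List Ω)} {t : Ω} (h : ∀ q ∈ mv, t ≠ q.1) : gl mv t = [t] := by
  induction mv with
  | nil => rfl
  | cons q mv ih =>
    rw [gl_ne q mv (h q List.mem_cons_self)]
    exact ih (fun q hq => h q (List.mem_cons_of_mem _ hq))

theorem vl_sb (τ : ℕ → Ω) (σ : ℕ → List Ω) {w : List ℕ} (h : (vl τ σ w).Nodup) (mv : List (ℕ × List ℕ))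
    (hk : ∀ q ∈ mv, q.1 ∈ w ∧ q.1 < 64 ∧ ∀ b ∈ q.2, b < 64) {v : List ℕ} (hv : ∀ a ∈ v, a ∈ w) :
    (vl τ σ v).flatMap (gl (mvt τ mv)) = vl τ σ (sb mv v) := by
  induction v with
  | nil => rfl
  | cons a v ih =>
    have ha : a ∈ w := hv a List.mem_cons_self
    rw [sb, vl_append, ← ih (fun b hb => hv b (List.mem_cons_of_mem _ hb)), vl_cons, List.flatMap_append]
    congr 1
    by_cases h64 : a < 64
    · have e : at1 τ σ a = [τ a] := by simp [at1, h64]
      rw [e, List.flatMap_singleton]
      have key : ∀ b ∈ w, b < 64 → a ≠ b → τ a ≠ τ b := by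
        intro b hb hb64 hab he
        have := at1_pw τ σ h ha hb hab
        rw [e] at this
        have e2 : at1 τ σ b = [τ b] := by simp [at1, hb64]
        rw [e2] at this
        exact this (List.mem_singleton.mpr rfl) (by rw [he]; exact List.mem_singleton.mpr rfl)
      clear ih hv
      induction mv with
      | nil => simp [mvt, gl, look, vl, at1, h64]
      | cons q mv ihm =>
        have hq := hk q List.mem_cons_self
        by_cases haq : a = q.1
        · have e1 : look (q :: mv) a = q.2 := by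
            unfold look
            rw [haq, show Nat.beq q.1 q.1 = true from Nat.beq_refl _]
          rw [e1]
          unfold mvt
          rw [List.map_cons, gl_eq _ _ (by simp [haq])]
          simp only
          rw [vl_units τ σ hq.2.2]
        · have e1 : look (q :: mv) a = look mv a := by
            conv_lhs => unfold look
            cases hb : Nat.beq a q.1 with
            | false => rfl
            | true => exact absurd (Nat.eq_of_beq_eq_true hb) haq
          rw [e1]
          unfold mvt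
          rw [List.map_cons, gl_ne _ _ (by simpa using key q.1 hq.1 hq.2.1 haq)]
          exact ihm (fun q hq => hk q (List.mem_cons_of_mem _ hq))
    · have e : at1 τ σ a = σ a := by simp [at1, h64]
      have key : ∀ b ∈ w, b < 64 → ∀ t ∈ σ a, t ≠ τ b := by
        intro b hb hb64 t ht he
        have := at1_pw τ σ h ha hb (by rintro rfl; exact h64 hb64)
        rw [e] at this
        have e2 : at1 τ σ b = [τ b] := by simp [at1, hb64]
        rw [e2] at this
        exact this ht (by rw [he]; exact List.mem_singleton.mpr rfl)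
      have e1 : look mv a = [a] := by
        clear ih hv
        induction mv with
        | nil => rfl
        | cons q mv ihm =>
          have hq := hk q List.mem_cons_self
          unfold look
          cases hb : Nat.beq a q.1 with
          | true =>
            have := Nat.eq_of_beq_eq_true hb
            exact absurd (this ▸ hq.2.1) h64
          | false => exact ihm (fun q hq => hk q (List.mem_cons_of_mem _ hq))
      rw [e, e1]
      have e3 : vl τ σ [a] = σ a := by simp [vl, at1, h64]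
      rw [e3]
      have : ∀ t ∈ σ a, gl (mvt τ mv) t = [t] := by
        intro t ht
        apply gl_other
        intro q hq
        unfold mvt at hq
        obtain ⟨q', hq', rfl⟩ := List.mem_map.mp hq
        exact key q'.1 (hk q' hq').1 (hk q' hq').2.1 t ht
      rw [List.flatMap_congr this]
      simp

/-- the check of one pattern. -/
def ckm (T : TD) (K : ℕ) (mv : List (ℕ × List ℕ)) (q : List (List ℕ) × List (List ℕ)) (r : ℕ × ℕ) : Bool :=
  match ok K (dec 80 r.1) (T.U q.1) (T.V q.2) (sb mv (T.U q.1)) (sb mv (T.V q.2)) with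
  | false => false
  | true => ok K (dec 80 r.2) (sb mv (T.U q.1)) (sb mv (T.V q.2)) (T.U q.1) (T.V q.2)

/-- the check of a table. -/
def chkm (T : TD) (K : ℕ) (mv : List (ℕ × List ℕ)) (rts : List (ℕ × ℕ)) : Bool :=
  all2 (ckm T K mv) (prs T.us T.vs) rts

theorem chkm_ok {T : TD} {K : ℕ} {mv : List (ℕ × List ℕ)} {rts : List (ℕ × ℕ)} (h : chkm T K mv rts = true)
    {a b : List (List ℕ)} (ha : a ∈ T.us.permutations') (hb : b ∈ T.vs.permutations') : ∃ k1 k2 : List ℕ,
    ok K k1 (T.U a) (T.V b) (sb mv (T.U a)) (sb mv (T.V b)) = true ∧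
    ok K k2 (sb mv (T.U a)) (sb mv (T.V b)) (T.U a) (T.V b) = true := by
  obtain ⟨r, _, h1⟩ := all2_mem _ _ _ h (a, b) (mem_prs ha hb)
  unfold ckm at h1
  cases h2 : ok K (dec 80 r.1) (T.U a) (T.V b) (sb mv (T.U a)) (sb mv (T.V b)) with
  | false => rw [h2] at h1; exact absurd h1 (by simp)
  | true =>
    rw [h2] at h1
    exact ⟨_, _, h2, h1⟩

/-- the conditions on a table. -/
def goodm (T : TD) (mv : List (ℕ × List ℕ)) (S : List ℕ) : Prop :=
  T.at.Nodup ∧ (∀ m ∈ T.at, m < 64 ∧ m / 2 ∈ S) ∧ (∀ u ∈ T.us, u ≠ []) ∧ (∀ u ∈ T.vs, u ≠ []) ∧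
    (∀ q ∈ mv, q.1 ∈ T.at ∧ ∀ b ∈ q.2, b < 64)

instance (T : TD) (mv : List (ℕ × List ℕ)) (S : List ℕ) : Decidable (goodm T mv S) := by unfold goodm; infer_instance

/-- **from a table to lists**. -/
theorem mv_thm {T : TD} {K : ℕ} {mv : List (ℕ × List ℕ)} {rts : List (ℕ × ℕ)} (h : chkm T K mv rts = true)
    (S : List ℕ) (hw : goodm T mv S)
    (hp : ∀ t, p (p t) = t) (hne : ∀ t, p t ≠ t) (a : ℕ → Ω) (hS : LD p (S.map a)) (X Y : List Ω)
    (hX : ∀ u ∈ T.us, u.map (tk p a) <:+: X) (hY : ∀ u ∈ T.vs, u.map (tk p a) <:+: Y)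
    (hnd : ((T.P1.map (tk p a) ++ (X ++ T.S1.map (tk p a))) ++ (T.P2.map (tk p a) ++ (Y ++ T.S2.map (tk p a)))).Nodup) :
    RTn p K (T.P1.map (tk p a) ++ (X ++ T.S1.map (tk p a)), T.P2.map (tk p a) ++ (Y ++ T.S2.map (tk p a)))
      ((T.P1.map (tk p a) ++ (X ++ T.S1.map (tk p a))).flatMap (gl (mvt (tk p a) mv)),
        (T.P2.map (tk p a) ++ (Y ++ T.S2.map (tk p a))).flatMap (gl (mvt (tk p a) mv))) := by
  obtain ⟨g1, g2, g3, g4, g5⟩ := hw
  set τ := tk p a with hτd
  have hτ : ∀ t, t < 64 → τ (t ^^^ 1) = p (τ t) := fun t ht => tk_xor hp a t ht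
  have hmap : (T.at.map τ).Nodup := List.Nodup.map_on (fun m hm n hn e =>
    tk_inj hp hne a S hS (g2 m hm).2 (g2 n hn).2 e) g1
  have hus : ∀ u ∈ T.us, ∀ m ∈ u, m ∈ T.at := by
    intro u hu m hm
    unfold TD.at
    simp only [List.mem_append, List.mem_flatten]
    exact Or.inl (Or.inl (Or.inr ⟨u, hu, hm⟩))
  have hvs : ∀ u ∈ T.vs, ∀ m ∈ u, m ∈ T.at := by
    intro u hu m hm
    unfold TD.at
    simp only [List.mem_append, List.mem_flatten]
    exact Or.inr (Or.inl (Or.inr ⟨u, hu, hm⟩))
  have hP1 : ∀ m ∈ T.P1, m ∈ T.at := by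
    intro m hm; unfold TD.at; simp only [List.mem_append]; exact Or.inl (Or.inl (Or.inl hm))
  have hS1 : ∀ m ∈ T.S1, m ∈ T.at := by
    intro m hm; unfold TD.at; simp only [List.mem_append]; exact Or.inl (Or.inr hm)
  have hP2 : ∀ m ∈ T.P2, m ∈ T.at := by
    intro m hm; unfold TD.at; simp only [List.mem_append]; exact Or.inr (Or.inl (Or.inl hm))
  have hS2 : ∀ m ∈ T.S2, m ∈ T.at := by
    intro m hm; unfold TD.at; simp only [List.mem_append]; exact Or.inr (Or.inr hm)
  have hpw : ∀ L : List (List ℕ), (L.flatten.map τ).Nodup → (L.map (List.map τ)).Pairwise (fun u v => ∀ t ∈ v, t ∉ u) := by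
    intro L hL
    rw [List.map_flatten, List.nodup_flatten] at hL
    refine List.Pairwise.imp ?_ hL.2
    intro u v h t ht1 ht2
    exact h ht2 ht1
  have hmu : (T.us.flatten.map τ).Nodup := by
    refine List.Nodup.sublist ?_ hmap
    apply List.Sublist.map
    unfold TD.at
    refine List.Sublist.trans ?_ (List.sublist_append_left _ _)
    refine List.Sublist.trans ?_ (List.sublist_append_left _ _)
    exact List.sublist_append_right _ _
  have hmv : (T.vs.flatten.map τ).Nodup := by
    refine List.Nodup.sublist ?_ hmap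
    apply List.Sublist.map
    unfold TD.at
    refine List.Sublist.trans ?_ (List.sublist_append_right _ _)
    refine List.Sublist.trans ?_ (List.sublist_append_left _ _)
    exact List.sublist_append_right _ _
  obtain ⟨us', h1, vs', h2, σ, h3, h4⟩ := splitter' τ T.us T.vs X Y (fun u hu m hm => (g2 m (hus u hu m hm)).1)
    (fun u hu m hm => (g2 m (hvs u hu m hm)).1) g3 g4 (hpw _ hmu) (hpw _ hmv) hX hY
  obtain ⟨k1, k2, h5, h6⟩ := chkm_ok h h1 h2
  have eU : T.P1.map τ ++ (X ++ T.S1.map τ) = vl τ σ (T.U us') := by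
    unfold TD.U
    rw [vl_append, vl_append, vl_units τ σ (fun m hm => (g2 m (hP1 m hm)).1), vl_units τ σ (fun m hm => (g2 m (hS1 m hm)).1), h3]
  have eV : T.P2.map τ ++ (Y ++ T.S2.map τ) = vl τ σ (T.V vs') := by
    unfold TD.V
    rw [vl_append, vl_append, vl_units τ σ (fun m hm => (g2 m (hP2 m hm)).1), vl_units τ σ (fun m hm => (g2 m (hS2 m hm)).1), h4]
  rw [eU, eV] at hnd ⊢
  rw [← vl_append] at hnd
  have hin : ∀ m ∈ T.at, m ∈ T.U us' ++ T.V vs' := by
    intro m hm
    unfold TD.at at hm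
    unfold TD.U TD.V
    simp only [List.mem_append, List.mem_flatten] at hm ⊢
    rcases hm with ((hm | ⟨u, hu, hm⟩) | hm) | ((hm | ⟨u, hu, hm⟩) | hm)
    · exact Or.inl (Or.inl hm)
    · exact Or.inl (Or.inr (Or.inl (mem_wn hm 0 ((List.mem_permutations'.mp h1).mem_iff.mpr hu))))
    · exact Or.inl (Or.inr (Or.inr hm))
    · exact Or.inr (Or.inl hm)
    · exact Or.inr (Or.inr (Or.inl (mem_wn hm _ ((List.mem_permutations'.mp h2).mem_iff.mpr hu))))
    · exact Or.inr (Or.inr (Or.inr hm))
  have hk : ∀ q ∈ mv, q.1 ∈ T.U us' ++ T.V vs' ∧ q.1 < 64 ∧ ∀ b ∈ q.2, b < 64 :=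
    fun q hq => ⟨hin _ (g5 q hq).1, (g2 _ (g5 q hq).1).1, (g5 q hq).2⟩
  rw [vl_sb τ σ hnd mv hk (fun m hm => List.mem_append_left _ hm),
    vl_sb τ σ hnd mv hk (fun m hm => List.mem_append_right _ hm)]
  exact ⟨ok_sound h5 τ σ hτ, ok_sound h6 τ σ hτ⟩

end Pool.Agent.helper55.BG
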