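import Pool.Agent.helper55.BG.Root

/-!
# MP_c8d30a, exponent 12: trees in list form, and the exception (two parallel nests)
-/

set_option autoImplicit false

namespace Pool.Agent.helper55.BG

open NTH Pool.Agent.helper32.RH List

/-- the cyclic successor of an atom; `h` is the head of the whole word. -/
def nx1 (b h : ℕ) : List ℕ → Option ℕ
  | [] => none
  | [a] => match Nat.beq a b with
    | true => some h
    | false => none
  | a :: c :: w => match Nat.beq a b with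
    | true => some c
    | false => nx1 b h (c :: w)

/-- the cyclic successor. -/
def nxt (b : ℕ) : List ℕ → Option ℕ
  | [] => none
  | h :: w => nx1 b h (h :: w)

/-- `c` is directly after `b`, both are tokens. -/
def adj (b c : ℕ) (W : List ℕ) : Bool :=
  match Nat.blt b 64 with
  | false => false
  | true => match Nat.blt c 64 with
    | false => false
    | true => match nxt b W with
      | some d => Nat.beq d c
      | none => false

/-- the last atom. -/
def lasD : List ℕ → ℕ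
  | [] => 0
  | [a] => a
  | _ :: c :: w => lasD (c :: w)

/-- the atom before `b`. -/
def prv (b l : ℕ) : List ℕ → ℕ
  | [] => 0
  | a :: w => match Nat.beq a b with
    | true => l
    | false => prv b a w

/-- the cyclic predecessor. -/
def prd (b : ℕ) (W : List ℕ) : ℕ := prv b (lasD W) W

/-- the exception on atoms. -/
def nsta (c d z : ℕ) (A B : List ℕ) : Bool :=
  adj c d A && (adj d (d ^^^ 1) A && (adj (d ^^^ 1) (c ^^^ 1) A && (adj (prd c A) c A && (adj (prd c A ^^^ 1) z B &&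
    (match nxt (c ^^^ 1) A with
      | none => false
      | some r => adj (c ^^^ 1) r A && adj (z ^^^ 1) (r ^^^ 1) B)))))

theorem nx1_spec (b h : ℕ) : ∀ (w : List ℕ) (c : ℕ), nx1 b h w = some c →
    (∃ L R, w = L ++ b :: c :: R) ∨ ((∃ L, w = L ++ [b]) ∧ c = h)
  | [], c, hc => by simp [nx1] at hc
  | [a], c, hc => by
    unfold nx1 at hc
    cases h1 : Nat.beq a b with
    | true =>
      rw [h1] at hc
      simp only [Option.some.injEq] at hc
      exact Or.inr ⟨⟨[], by simp [Nat.eq_of_beq_eq_true h1]⟩, hc.symm⟩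
    | false => rw [h1] at hc; exact absurd hc (by simp)
  | a :: x :: w, c, hc => by
    unfold nx1 at hc
    cases h1 : Nat.beq a b with
    | true =>
      rw [h1] at hc
      simp only [Option.some.injEq] at hc
      exact Or.inl ⟨[], w, by simp [Nat.eq_of_beq_eq_true h1, hc]⟩
    | false =>
      rw [h1] at hc
      simp only at hc
      rcases nx1_spec b h (x :: w) c hc with ⟨L, R, e⟩ | ⟨⟨L, e⟩, e2⟩
      · exact Or.inl ⟨a :: L, R, by rw [e]; rfl⟩
      · exact Or.inr ⟨⟨a :: L, by rw [e]; rfl⟩, e2⟩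

variable {Ω : Type}

theorem vl_nil' (τ : ℕ → Ω) (σ : ℕ → List Ω) : Pool.Agent.helper32.RH.vl τ σ [] = [] := rfl

variable [DecidableEq Ω] {p : Ω → Ω}

theorem adj_spec {b c : ℕ} {W : List ℕ} (h : adj b c W = true) {τ : ℕ → Ω} {σ : ℕ → List Ω} (hn : (vl τ σ W).Nodup) :
    b < 64 ∧ c < 64 ∧ b ∈ W ∧ formPerm (vl τ σ W) (τ b) = τ c := by
  unfold adj at h
  cases h1 : Nat.blt b 64 with
  | false => rw [h1] at h; exact absurd h (by simp)
  | true =>
  rw [h1] at h
  simp only at h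
  cases h2 : Nat.blt c 64 with
  | false => rw [h2] at h; exact absurd h (by simp)
  | true =>
  rw [h2] at h
  simp only at h
  have hb := (blt_iff b).mp h1
  have hc := (blt_iff c).mp h2
  cases h3 : nxt b W with
  | none => rw [h3] at h; exact absurd h (by simp)
  | some d =>
  rw [h3] at h
  simp only at h
  have hd := Nat.eq_of_beq_eq_true h
  subst hd
  cases W with
  | nil => simp [nxt] at h3
  | cons y W =>
    simp only [nxt] at h3
    rcases nx1_spec b y (y :: W) d h3 with ⟨L, R, e⟩ | ⟨⟨L, e⟩, e2⟩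
    · refine ⟨hb, hc, by rw [e]; simp, ?_⟩
      rw [e] at hn ⊢
      rw [vl_append, vl_tok τ σ hb, vl_tok τ σ hc] at hn ⊢
      exact fp_mid hn
    · refine ⟨hb, hc, by rw [e]; simp, ?_⟩
      subst e2
      cases L with
      | nil =>
        simp only [List.nil_append, List.cons.injEq] at e
        rw [e.2, e.1]
        rw [vl_tok τ σ hb, vl_nil']
        simp
      | cons l L =>
        simp only [List.cons_append, List.cons.injEq] at e
        rw [e.2] at hn ⊢
        rw [vl_tok τ σ hc, vl_append, vl_tok τ σ hb, vl_nil'] at hn ⊢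
        exact fp_lst hn

/-- two parallel nests: `q c d d' c' r` and `q' z .. z' r'`. -/
def NestQ (p : Ω → Ω) (s : St Ω) (c d z : Ω) : Prop :=
  NA.sc s c = d ∧ NA.sc s d = p d ∧ NA.sc s (p d) = p c ∧ NA.pd s c = p (NA.pd s z) ∧ NA.sc s (p c) = p (NA.sc s (p z))

theorem adj_sc1 {b c : ℕ} {A B : List ℕ} (h : adj b c A = true) {τ : ℕ → Ω} {σ : ℕ → List Ω}
    (hn : (vl τ σ A ++ vl τ σ B).Nodup) : NA.sc (vl τ σ A, vl τ σ B) (τ b) = τ c := by
  obtain ⟨h1, h2, h3, h4⟩ := adj_spec h (List.nodup_append.mp hn).1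
  rw [sc_mem1 hn (mem_vl τ σ h1 h3)]
  exact h4

theorem adj_sc2 {b c : ℕ} {A B : List ℕ} (h : adj b c B = true) {τ : ℕ → Ω} {σ : ℕ → List Ω}
    (hn : (vl τ σ A ++ vl τ σ B).Nodup) : NA.sc (vl τ σ A, vl τ σ B) (τ b) = τ c := by
  obtain ⟨h1, h2, h3, h4⟩ := adj_spec h (List.nodup_append.mp hn).2.1
  rw [sc_mem2 hn (mem_vl τ σ h1 h3)]
  exact h4

/-- the exception is recognized (the nest of two letters is in the word `A` or in the word `B`). -/
theorem nsta_spec {c d z : ℕ} {A B : List ℕ} {τ : ℕ → Ω} {σ : ℕ → List Ω} (hv : Vd p τ σ A B)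
    (hz : z < 64) (h : nsta c d z A B = true ∨ nsta c d z B A = true) : NestQ p (vl τ σ A, vl τ σ B) (τ c) (τ d) (τ z) := by
  have hn : (vl τ σ A ++ vl τ σ B).Nodup := hv.wf.nd
  have hp := hv.wf.inv
  have hτ := hv.part
  -- one proof for both
  have key : ∀ U V : List ℕ, (∀ b c : ℕ, adj b c U = true → b < 64 ∧ c < 64 ∧ NA.sc (vl τ σ A, vl τ σ B) (τ b) = τ c) →
      (∀ b c : ℕ, adj b c V = true → b < 64 ∧ c < 64 ∧ NA.sc (vl τ σ A, vl τ σ B) (τ b) = τ c) → nsta c d z U V = true →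
      NestQ p (vl τ σ A, vl τ σ B) (τ c) (τ d) (τ z) := by
    intro U V hU hV h
    unfold nsta at h
    obtain ⟨h1, h⟩ := bool_and h
    obtain ⟨h2, h⟩ := bool_and h
    obtain ⟨h3, h⟩ := bool_and h
    obtain ⟨h4, h⟩ := bool_and h
    obtain ⟨h5, h⟩ := bool_and h
    cases h6 : nxt (c ^^^ 1) U with
    | none => rw [h6] at h; exact absurd h (by simp)
    | some r =>
      rw [h6] at h
      obtain ⟨h7, h8⟩ := bool_and h
      obtain ⟨i1, i2, i3⟩ := hU _ _ h1
      obtain ⟨j1, j2, j3⟩ := hU _ _ h2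
      obtain ⟨k1, k2, k3⟩ := hU _ _ h3
      obtain ⟨l1, l2, l3⟩ := hU _ _ h4
      obtain ⟨m1, m2, m3⟩ := hV _ _ h5
      obtain ⟨n1, n2, n3⟩ := hU _ _ h7
      obtain ⟨o1, o2, o3⟩ := hV _ _ h8
      rw [hτ _ j1] at j3 k3
      rw [hτ _ i1] at k3 n3
      rw [hτ _ l1] at m3
      rw [hτ _ hz, hτ _ n2] at o3
      refine ⟨i3, j3, k3, ?_, ?_⟩
      · unfold NA.pd
        rw [(Equiv.symm_apply_eq _).mpr l3.symm, (Equiv.symm_apply_eq _).mpr m3.symm, hp]
      · rw [n3, o3, hp]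
  rcases h with h | h
  · exact key A B (fun b c h => ⟨(adj_spec h (List.nodup_append.mp hn).1).1, (adj_spec h (List.nodup_append.mp hn).1).2.1, adj_sc1 h hn⟩)
      (fun b c h => ⟨(adj_spec h (List.nodup_append.mp hn).2.1).1, (adj_spec h (List.nodup_append.mp hn).2.1).2.1, adj_sc2 h hn⟩) h
  · exact key B A (fun b c h => ⟨(adj_spec h (List.nodup_append.mp hn).2.1).1, (adj_spec h (List.nodup_append.mp hn).2.1).2.1, adj_sc2 h hn⟩)
      (fun b c h => ⟨(adj_spec h (List.nodup_append.mp hn).1).1, (adj_spec h (List.nodup_append.mp hn).1).2.1, adj_sc1 h hn⟩) h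

/-- mixed blocks. -/
theorem mx_of {τ : ℕ → Ω} {σ : ℕ → List Ω} {A B : List ℕ} (hv : Vd p τ σ A B) (hc : clob (A ++ B) (A ++ B) = true)
    (h1 : ∀ a ∈ A, 64 ≤ a → ∀ t ∈ σ a, p t ∈ vl τ σ B) (h2 : ∀ a ∈ B, 64 ≤ a → ∀ t ∈ σ a, p t ∈ vl τ σ A) : Mx p σ A B := by
  have hcl := clob_spec hc
  have hn : (vl τ σ (A ++ B)).Nodup := by rw [vl_append]; exact hv.wf.nd
  have hp := hv.wf.inv
  have key : ∀ a ∈ A ++ B, 64 ≤ a → ∀ t ∈ σ a, ∀ d ∈ A ++ B, p t ∈ at1 τ σ d → 64 ≤ d := by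
    intro a ha h64 t ht d hd hdt
    by_contra h5
    have h5' : d < 64 := by omega
    rw [at_tok τ σ h5', List.mem_singleton] at hdt
    have e : t = τ (d ^^^ 1) := by rw [hv.part d h5', ← hdt, hp]
    have := at1_pw τ σ hn ha (hcl d hd h5') (by rintro rfl; have := xor_lt h5'; omega)
    rw [at_blk τ σ h64, at_tok τ σ (xor_lt h5')] at this
    exact this ht (by rw [e]; exact List.mem_singleton.mpr rfl)
  constructor
  · intro a ha h64 t ht
    obtain ⟨d, hd, hdt⟩ := mem_vl'.mp (h1 a ha h64 t ht)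
    have hd64 := key a (List.mem_append_left _ ha) h64 t ht d (List.mem_append_right _ hd) hdt
    exact ⟨d, hd, hd64, by rwa [at_blk τ σ hd64] at hdt⟩
  · intro a ha h64 t ht
    obtain ⟨d, hd, hdt⟩ := mem_vl'.mp (h2 a ha h64 t ht)
    have hd64 := key a (List.mem_append_right _ ha) h64 t ht d (List.mem_append_left _ hd) hdt
    exact ⟨d, hd, hd64, by rwa [at_blk τ σ hd64] at hdt⟩

/-- **a tree in list form**. -/
theorem list_thm {K : ℕ} {ex : List ℕ → List ℕ → Bool} {t : Tc} {A B : List ℕ} (h : chc K (A ++ B) ex t [(A, B)] = true)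
    (hc : clob (A ++ B) (A ++ B) = true) (h10 : 10 ∈ A ++ B) {τ : ℕ → Ω} {σ : ℕ → List Ω} (hv : Vd p τ σ A B)
    (h1 : ∀ a ∈ A, 64 ≤ a → ∀ t ∈ σ a, p t ∈ vl τ σ B) (h2 : ∀ a ∈ B, 64 ≤ a → ∀ t ∈ σ a, p t ∈ vl τ σ A) {Q : Prop}
    (hex : ∀ A' B', ex A' B' = true → Gd p (A ++ B) τ (vl τ σ A, vl τ σ B) Q (A', B')) :
    Dr p K (τ 10) (vl τ σ A, vl τ σ B) ∨ Q :=
  chc_sound (p := p) (τ0 := τ) (s := (vl τ σ A, vl τ σ B)) (Q := Q) h10 hex t _ h _ (List.mem_singleton.mpr rfl) τ σ hv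
    (mx_of hv hc h1 h2) (fun _ _ => rfl) rfl rfl

/-- no exceptions. -/
def exN (_ _ : List ℕ) : Bool := false

/-- a tree without exceptions. -/
theorem list_thm' {K : ℕ} {t : Tc} {A B : List ℕ} (h : chc K (A ++ B) exN t [(A, B)] = true)
    (hc : clob (A ++ B) (A ++ B) = true) (h10 : 10 ∈ A ++ B) {τ : ℕ → Ω} {σ : ℕ → List Ω} (hv : Vd p τ σ A B)
    (h1 : ∀ a ∈ A, 64 ≤ a → ∀ t ∈ σ a, p t ∈ vl τ σ B) (h2 : ∀ a ∈ B, 64 ≤ a → ∀ t ∈ σ a, p t ∈ vl τ σ A) :
    Dr p K (τ 10) (vl τ σ A, vl τ σ B) := by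
  rcases list_thm (Q := False) h hc h10 hv h1 h2 (fun A' B' h => absurd h (by simp [exN])) with h | h
  · exact h
  · exact h.elim

end Pool.Agent.helper55.BG
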