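import Pool.Agent.helper55.BG.Nest

/-!
# MP_c8d30a, exponent 12: the table NEST (trees of helper72, routes found by a program, checked by the kernel)
-/

set_option autoImplicit false
set_option maxRecDepth 100000

namespace Pool.Agent.helper55.BG

open NTH Pool.Agent.helper32.RH List

variable {Ω : Type} [DecidableEq Ω] {p : Ω → Ω}

/-- the tree NEST_A0. -/
def t_NEST_A0 : Tc :=
 .nd true 66 9 71 (.br (.lf 903046544161505601 832682662963544773 311752335018046230385216 76111405518418625024)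
 (.br (.lf 14795551527475551142209 13642704900075488903877 5388792588132960023347351789952 311899963299497226551936)
 (.br (.lf 14795522465785504104897 13642665150205273409605 13538845274560 21448807948965989710227036670296576)
 (.br (.lf 14795514579555832824129 13652071197357203620421 5787390240565499307252018340096 5391308065322494004574905442944) .nil))))

theorem c_NEST_A0 : chc 6 ([64, 2, 65, 3, 66, 14, 0, 1, 16, 67, 11] ++ [68, 15, 4, 69, 5, 17, 70, 10]) exN t_NEST_A0 [([64, 2, 65, 3, 66, 14, 0, 1, 16, 67, 11], [68, 15, 4, 69, 5, 17, 70, 10])] = true := by decide +kernel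

/-- a drop: `#0 d0 #1 d1 #2 p0 c0 c1 q0 #3 f0 | #4 p1 z0 #5 z1 q1 #6 f1` -/
theorem NEST_A0 {c d z f g r : Ω} {b0 b1 b2 b3 b4 b5 b6 : List Ω} (hw : WF p (b0 ++ (d :: (b1 ++ (p d :: (b2 ++ (g :: (c :: (p c :: (r :: (b3 ++ ([p f])))))))))), b4 ++ (p g :: (z :: (b5 ++ (p z :: (p r :: (b6 ++ ([f])))))))))
    (hx : ∀ t, t ∈ b0 ∨ t ∈ b1 ∨ t ∈ b2 ∨ t ∈ b3 → p t ∈ b4 ++ (p g :: (z :: (b5 ++ (p z :: (p r :: (b6 ++ ([f]))))))))
    (hy : ∀ t, t ∈ b4 ∨ t ∈ b5 ∨ t ∈ b6 → p t ∈ b0 ++ (d :: (b1 ++ (p d :: (b2 ++ (g :: (c :: (p c :: (r :: (b3 ++ ([p f]))))))))))) :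
    Dr p 6 f (b0 ++ (d :: (b1 ++ (p d :: (b2 ++ (g :: (c :: (p c :: (r :: (b3 ++ ([p f])))))))))), b4 ++ (p g :: (z :: (b5 ++ (p z :: (p r :: (b6 ++ ([f])))))))) := by
  set τ : ℕ → Ω := tk p (fun n => match n with | 0 => c | 1 => d | 2 => z | 7 => g | 8 => r | _ => f) with hτ
  set σ : ℕ → List Ω := fun j => match j with | 64 => b0 | 65 => b1 | 66 => b2 | 67 => b3 | 68 => b4 | 69 => b5 | 70 => b6 | _ => [] with hσ
  have eA : Pool.Agent.helper32.RH.vl τ σ [64, 2, 65, 3, 66, 14, 0, 1, 16, 67, 11] = b0 ++ (d :: (b1 ++ (p d :: (b2 ++ (g :: (c :: (p c :: (r :: (b3 ++ ([p f])))))))))) := by simp [Pool.Agent.helper32.RH.vl, at1, hτ, hσ, tk]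
  have eB : Pool.Agent.helper32.RH.vl τ σ [68, 15, 4, 69, 5, 17, 70, 10] = b4 ++ (p g :: (z :: (b5 ++ (p z :: (p r :: (b6 ++ ([f]))))))) := by simp [Pool.Agent.helper32.RH.vl, at1, hτ, hσ, tk]
  have hv : Vd p τ σ [64, 2, 65, 3, 66, 14, 0, 1, 16, 67, 11] [68, 15, 4, 69, 5, 17, 70, 10] := ⟨fun t ht => tk_xor hw.inv _ t ht, by rw [eA, eB]; exact hw⟩
  have h1 : ∀ a ∈ [64, 2, 65, 3, 66, 14, 0, 1, 16, 67, 11], 64 ≤ a → ∀ t ∈ σ a, p t ∈ Pool.Agent.helper32.RH.vl τ σ [68, 15, 4, 69, 5, 17, 70, 10] := by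
    rw [eB]
    intro a ha h64 t ht
    simp only [List.mem_cons, List.not_mem_nil, or_false] at ha
    rcases ha with rfl | rfl | rfl | rfl | rfl | rfl | rfl | rfl | rfl | rfl | rfl
    · exact hx t (by simp only [hσ] at ht; tauto)
    · exact absurd h64 (by norm_num)
    · exact hx t (by simp only [hσ] at ht; tauto)
    · exact absurd h64 (by norm_num)
    · exact hx t (by simp only [hσ] at ht; tauto)
    · exact absurd h64 (by norm_num)
    · exact absurd h64 (by norm_num)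
    · exact absurd h64 (by norm_num)
    · exact absurd h64 (by norm_num)
    · exact hx t (by simp only [hσ] at ht; tauto)
    · exact absurd h64 (by norm_num)
  have h2 : ∀ a ∈ [68, 15, 4, 69, 5, 17, 70, 10], 64 ≤ a → ∀ t ∈ σ a, p t ∈ Pool.Agent.helper32.RH.vl τ σ [64, 2, 65, 3, 66, 14, 0, 1, 16, 67, 11] := by
    rw [eA]
    intro a ha h64 t ht
    simp only [List.mem_cons, List.not_mem_nil, or_false] at ha
    rcases ha with rfl | rfl | rfl | rfl | rfl | rfl | rfl | rfl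
    · exact hy t (by simp only [hσ] at ht; tauto)
    · exact absurd h64 (by norm_num)
    · exact absurd h64 (by norm_num)
    · exact hy t (by simp only [hσ] at ht; tauto)
    · exact absurd h64 (by norm_num)
    · exact absurd h64 (by norm_num)
    · exact hy t (by simp only [hσ] at ht; tauto)
    · exact absurd h64 (by norm_num)
  have := list_thm' c_NEST_A0 (by decide +kernel) (by decide) hv h1 h2
  rw [eA, eB] at this
  simpa [hτ, tk] using this

/-- the tree NEST_A1. -/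
def t_NEST_A1 : Tc :=
 .nd true 65 9 71 (.br (.lf 902989867907301569 832682662961447621 2129862259991353511129152 77264049947185791488)
 (.br (.lf 14794585995793364467905 13642704900075486806725 45874363988096505153140892115200 592746340371852443904)
 (.br (.lf 14794614770438034719169 13642665150205273409605 22334938296640 22397010559855541984122801710727552)
 (.br (.lf 14794614216301455098049 13652071197357203620293 101169428740058505571010851649454400735307487277090611904 340161437792856479376000) .nil))))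

theorem c_NEST_A1 : chc 6 ([64, 2, 65, 14, 0, 1, 16, 66, 3, 67, 11] ++ [68, 15, 4, 69, 5, 17, 70, 10]) exN t_NEST_A1 [([64, 2, 65, 14, 0, 1, 16, 66, 3, 67, 11], [68, 15, 4, 69, 5, 17, 70, 10])] = true := by decide +kernel

/-- a drop: `#0 d0 #1 p0 c0 c1 q0 #2 d1 #3 f0 | #4 p1 z0 #5 z1 q1 #6 f1` -/
theorem NEST_A1 {c d z f g r : Ω} {b0 b1 b2 b3 b4 b5 b6 : List Ω} (hw : WF p (b0 ++ (d :: (b1 ++ (g :: (c :: (p c :: (r :: (b2 ++ (p d :: (b3 ++ ([p f])))))))))), b4 ++ (p g :: (z :: (b5 ++ (p z :: (p r :: (b6 ++ ([f])))))))))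
    (hx : ∀ t, t ∈ b0 ∨ t ∈ b1 ∨ t ∈ b2 ∨ t ∈ b3 → p t ∈ b4 ++ (p g :: (z :: (b5 ++ (p z :: (p r :: (b6 ++ ([f]))))))))
    (hy : ∀ t, t ∈ b4 ∨ t ∈ b5 ∨ t ∈ b6 → p t ∈ b0 ++ (d :: (b1 ++ (g :: (c :: (p c :: (r :: (b2 ++ (p d :: (b3 ++ ([p f]))))))))))) :
    Dr p 6 f (b0 ++ (d :: (b1 ++ (g :: (c :: (p c :: (r :: (b2 ++ (p d :: (b3 ++ ([p f])))))))))), b4 ++ (p g :: (z :: (b5 ++ (p z :: (p r :: (b6 ++ ([f])))))))) := by
  set τ : ℕ → Ω := tk p (fun n => match n with | 0 => c | 1 => d | 2 => z | 7 => g | 8 => r | _ => f) with hτ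
  set σ : ℕ → List Ω := fun j => match j with | 64 => b0 | 65 => b1 | 66 => b2 | 67 => b3 | 68 => b4 | 69 => b5 | 70 => b6 | _ => [] with hσ
  have eA : Pool.Agent.helper32.RH.vl τ σ [64, 2, 65, 14, 0, 1, 16, 66, 3, 67, 11] = b0 ++ (d :: (b1 ++ (g :: (c :: (p c :: (r :: (b2 ++ (p d :: (b3 ++ ([p f])))))))))) := by simp [Pool.Agent.helper32.RH.vl, at1, hτ, hσ, tk]
  have eB : Pool.Agent.helper32.RH.vl τ σ [68, 15, 4, 69, 5, 17, 70, 10] = b4 ++ (p g :: (z :: (b5 ++ (p z :: (p r :: (b6 ++ ([f]))))))) := by simp [Pool.Agent.helper32.RH.vl, at1, hτ, hσ, tk]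
  have hv : Vd p τ σ [64, 2, 65, 14, 0, 1, 16, 66, 3, 67, 11] [68, 15, 4, 69, 5, 17, 70, 10] := ⟨fun t ht => tk_xor hw.inv _ t ht, by rw [eA, eB]; exact hw⟩
  have h1 : ∀ a ∈ [64, 2, 65, 14, 0, 1, 16, 66, 3, 67, 11], 64 ≤ a → ∀ t ∈ σ a, p t ∈ Pool.Agent.helper32.RH.vl τ σ [68, 15, 4, 69, 5, 17, 70, 10] := by
    rw [eB]
    intro a ha h64 t ht
    simp only [List.mem_cons, List.not_mem_nil, or_false] at ha
    rcases ha with rfl | rfl | rfl | rfl | rfl | rfl | rfl | rfl | rfl | rfl | rfl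
    · exact hx t (by simp only [hσ] at ht; tauto)
    · exact absurd h64 (by norm_num)
    · exact hx t (by simp only [hσ] at ht; tauto)
    · exact absurd h64 (by norm_num)
    · exact absurd h64 (by norm_num)
    · exact absurd h64 (by norm_num)
    · exact absurd h64 (by norm_num)
    · exact hx t (by simp only [hσ] at ht; tauto)
    · exact absurd h64 (by norm_num)
    · exact hx t (by simp only [hσ] at ht; tauto)
    · exact absurd h64 (by norm_num)
  have h2 : ∀ a ∈ [68, 15, 4, 69, 5, 17, 70, 10], 64 ≤ a → ∀ t ∈ σ a, p t ∈ Pool.Agent.helper32.RH.vl τ σ [64, 2, 65, 14, 0, 1, 16, 66, 3, 67, 11] := by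
    rw [eA]
    intro a ha h64 t ht
    simp only [List.mem_cons, List.not_mem_nil, or_false] at ha
    rcases ha with rfl | rfl | rfl | rfl | rfl | rfl | rfl | rfl
    · exact hy t (by simp only [hσ] at ht; tauto)
    · exact absurd h64 (by norm_num)
    · exact absurd h64 (by norm_num)
    · exact hy t (by simp only [hσ] at ht; tauto)
    · exact absurd h64 (by norm_num)
    · exact absurd h64 (by norm_num)
    · exact hy t (by simp only [hσ] at ht; tauto)
    · exact absurd h64 (by norm_num)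
  have := list_thm' c_NEST_A1 (by decide +kernel) (by decide) hv h1 h2
  rw [eA, eB] at this
  simpa [hτ, tk] using this

/-- the tree NEST_A2. -/
def t_NEST_A2 : Tc :=
 .nd false 65 9 71 (.br (.lf 902989834621075649 832684552507097413 5390029923785410691484258947328 13332702839040)
 (.br (.lf 14794585450431703451841 13642704901965036650821 209000249475078836819426188559139072 311899928396668866937216)
 (.br (.lf 14777104713067995957185 13632505034276530882629 2734398939341039994688192 376102424050367204962616516679045705376256)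
 (.br (.lf 14794585450431703451841 13652071195569934158149 1584082647311106810654929267893970405576679680 1277258612520411900945637760) .nil))))

theorem c_NEST_A2 : chc 6 ([64, 14, 0, 1, 16, 65, 2, 66, 3, 67, 11] ++ [68, 15, 4, 69, 5, 17, 70, 10]) exN t_NEST_A2 [([64, 14, 0, 1, 16, 65, 2, 66, 3, 67, 11], [68, 15, 4, 69, 5, 17, 70, 10])] = true := by decide +kernel

/-- a drop: `#0 p0 c0 c1 q0 #1 d0 #2 d1 #3 f0 | #4 p1 z0 #5 z1 q1 #6 f1` -/
theorem NEST_A2 {c d z f g r : Ω} {b0 b1 b2 b3 b4 b5 b6 : List Ω} (hw : WF p (b0 ++ (g :: (c :: (p c :: (r :: (b1 ++ (d :: (b2 ++ (p d :: (b3 ++ ([p f])))))))))), b4 ++ (p g :: (z :: (b5 ++ (p z :: (p r :: (b6 ++ ([f])))))))))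
    (hx : ∀ t, t ∈ b0 ∨ t ∈ b1 ∨ t ∈ b2 ∨ t ∈ b3 → p t ∈ b4 ++ (p g :: (z :: (b5 ++ (p z :: (p r :: (b6 ++ ([f]))))))))
    (hy : ∀ t, t ∈ b4 ∨ t ∈ b5 ∨ t ∈ b6 → p t ∈ b0 ++ (g :: (c :: (p c :: (r :: (b1 ++ (d :: (b2 ++ (p d :: (b3 ++ ([p f]))))))))))) :
    Dr p 6 f (b0 ++ (g :: (c :: (p c :: (r :: (b1 ++ (d :: (b2 ++ (p d :: (b3 ++ ([p f])))))))))), b4 ++ (p g :: (z :: (b5 ++ (p z :: (p r :: (b6 ++ ([f])))))))) := by
  set τ : ℕ → Ω := tk p (fun n => match n with | 0 => c | 1 => d | 2 => z | 7 => g | 8 => r | _ => f) with hτ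
  set σ : ℕ → List Ω := fun j => match j with | 64 => b0 | 65 => b1 | 66 => b2 | 67 => b3 | 68 => b4 | 69 => b5 | 70 => b6 | _ => [] with hσ
  have eA : Pool.Agent.helper32.RH.vl τ σ [64, 14, 0, 1, 16, 65, 2, 66, 3, 67, 11] = b0 ++ (g :: (c :: (p c :: (r :: (b1 ++ (d :: (b2 ++ (p d :: (b3 ++ ([p f])))))))))) := by simp [Pool.Agent.helper32.RH.vl, at1, hτ, hσ, tk]
  have eB : Pool.Agent.helper32.RH.vl τ σ [68, 15, 4, 69, 5, 17, 70, 10] = b4 ++ (p g :: (z :: (b5 ++ (p z :: (p r :: (b6 ++ ([f]))))))) := by simp [Pool.Agent.helper32.RH.vl, at1, hτ, hσ, tk]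
  have hv : Vd p τ σ [64, 14, 0, 1, 16, 65, 2, 66, 3, 67, 11] [68, 15, 4, 69, 5, 17, 70, 10] := ⟨fun t ht => tk_xor hw.inv _ t ht, by rw [eA, eB]; exact hw⟩
  have h1 : ∀ a ∈ [64, 14, 0, 1, 16, 65, 2, 66, 3, 67, 11], 64 ≤ a → ∀ t ∈ σ a, p t ∈ Pool.Agent.helper32.RH.vl τ σ [68, 15, 4, 69, 5, 17, 70, 10] := by
    rw [eB]
    intro a ha h64 t ht
    simp only [List.mem_cons, List.not_mem_nil, or_false] at ha
    rcases ha with rfl | rfl | rfl | rfl | rfl | rfl | rfl | rfl | rfl | rfl | rfl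
    · exact hx t (by simp only [hσ] at ht; tauto)
    · exact absurd h64 (by norm_num)
    · exact absurd h64 (by norm_num)
    · exact absurd h64 (by norm_num)
    · exact absurd h64 (by norm_num)
    · exact hx t (by simp only [hσ] at ht; tauto)
    · exact absurd h64 (by norm_num)
    · exact hx t (by simp only [hσ] at ht; tauto)
    · exact absurd h64 (by norm_num)
    · exact hx t (by simp only [hσ] at ht; tauto)
    · exact absurd h64 (by norm_num)
  have h2 : ∀ a ∈ [68, 15, 4, 69, 5, 17, 70, 10], 64 ≤ a → ∀ t ∈ σ a, p t ∈ Pool.Agent.helper32.RH.vl τ σ [64, 14, 0, 1, 16, 65, 2, 66, 3, 67, 11] := by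
    rw [eA]
    intro a ha h64 t ht
    simp only [List.mem_cons, List.not_mem_nil, or_false] at ha
    rcases ha with rfl | rfl | rfl | rfl | rfl | rfl | rfl | rfl
    · exact hy t (by simp only [hσ] at ht; tauto)
    · exact absurd h64 (by norm_num)
    · exact absurd h64 (by norm_num)
    · exact hy t (by simp only [hσ] at ht; tauto)
    · exact absurd h64 (by norm_num)
    · exact absurd h64 (by norm_num)
    · exact hy t (by simp only [hσ] at ht; tauto)
    · exact absurd h64 (by norm_num)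
  have := list_thm' c_NEST_A2 (by decide +kernel) (by decide) hv h1 h2
  rw [eA, eB] at this
  simpa [hτ, tk] using this

/-- the tree NEST_A3. -/
def t_NEST_A3 : Tc :=
 .nd true 66 9 70 (.br (.lf 903046544161505601 6500935257883333 311752335018046230381120 76111405518418620928)
 (.br (.lf 14795551527475551142209 106511570039755309765 5388792588132960023278632313216 311899963299497226547840)
 (.br (.lf 14795514579555832824129 106584464981441479237 5708162078050082048153867538688 5391308065322494004506185966208) .nil)))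

theorem c_NEST_A3 : chc 6 ([64, 2, 65, 3, 66, 14, 0, 1, 16, 67, 11] ++ [68, 15, 4, 5, 17, 69, 10]) exN t_NEST_A3 [([64, 2, 65, 3, 66, 14, 0, 1, 16, 67, 11], [68, 15, 4, 5, 17, 69, 10])] = true := by decide +kernel

/-- a drop: `#0 d0 #1 d1 #2 p0 c0 c1 q0 #3 f0 | #4 p1 z0 z1 q1 #5 f1` -/
theorem NEST_A3 {c d z f g r : Ω} {b0 b1 b2 b3 b4 b5 : List Ω} (hw : WF p (b0 ++ (d :: (b1 ++ (p d :: (b2 ++ (g :: (c :: (p c :: (r :: (b3 ++ ([p f])))))))))), b4 ++ (p g :: (z :: (p z :: (p r :: (b5 ++ ([f]))))))))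
    (hx : ∀ t, t ∈ b0 ∨ t ∈ b1 ∨ t ∈ b2 ∨ t ∈ b3 → p t ∈ b4 ++ (p g :: (z :: (p z :: (p r :: (b5 ++ ([f])))))))
    (hy : ∀ t, t ∈ b4 ∨ t ∈ b5 → p t ∈ b0 ++ (d :: (b1 ++ (p d :: (b2 ++ (g :: (c :: (p c :: (r :: (b3 ++ ([p f]))))))))))) :
    Dr p 6 f (b0 ++ (d :: (b1 ++ (p d :: (b2 ++ (g :: (c :: (p c :: (r :: (b3 ++ ([p f])))))))))), b4 ++ (p g :: (z :: (p z :: (p r :: (b5 ++ ([f]))))))) := by
  set τ : ℕ → Ω := tk p (fun n => match n with | 0 => c | 1 => d | 2 => z | 7 => g | 8 => r | _ => f) with hτ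
  set σ : ℕ → List Ω := fun j => match j with | 64 => b0 | 65 => b1 | 66 => b2 | 67 => b3 | 68 => b4 | 69 => b5 | _ => [] with hσ
  have eA : Pool.Agent.helper32.RH.vl τ σ [64, 2, 65, 3, 66, 14, 0, 1, 16, 67, 11] = b0 ++ (d :: (b1 ++ (p d :: (b2 ++ (g :: (c :: (p c :: (r :: (b3 ++ ([p f])))))))))) := by simp [Pool.Agent.helper32.RH.vl, at1, hτ, hσ, tk]
  have eB : Pool.Agent.helper32.RH.vl τ σ [68, 15, 4, 5, 17, 69, 10] = b4 ++ (p g :: (z :: (p z :: (p r :: (b5 ++ ([f])))))) := by simp [Pool.Agent.helper32.RH.vl, at1, hτ, hσ, tk]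
  have hv : Vd p τ σ [64, 2, 65, 3, 66, 14, 0, 1, 16, 67, 11] [68, 15, 4, 5, 17, 69, 10] := ⟨fun t ht => tk_xor hw.inv _ t ht, by rw [eA, eB]; exact hw⟩
  have h1 : ∀ a ∈ [64, 2, 65, 3, 66, 14, 0, 1, 16, 67, 11], 64 ≤ a → ∀ t ∈ σ a, p t ∈ Pool.Agent.helper32.RH.vl τ σ [68, 15, 4, 5, 17, 69, 10] := by
    rw [eB]
    intro a ha h64 t ht
    simp only [List.mem_cons, List.not_mem_nil, or_false] at ha
    rcases ha with rfl | rfl | rfl | rfl | rfl | rfl | rfl | rfl | rfl | rfl | rfl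
    · exact hx t (by simp only [hσ] at ht; tauto)
    · exact absurd h64 (by norm_num)
    · exact hx t (by simp only [hσ] at ht; tauto)
    · exact absurd h64 (by norm_num)
    · exact hx t (by simp only [hσ] at ht; tauto)
    · exact absurd h64 (by norm_num)
    · exact absurd h64 (by norm_num)
    · exact absurd h64 (by norm_num)
    · exact absurd h64 (by norm_num)
    · exact hx t (by simp only [hσ] at ht; tauto)
    · exact absurd h64 (by norm_num)
  have h2 : ∀ a ∈ [68, 15, 4, 5, 17, 69, 10], 64 ≤ a → ∀ t ∈ σ a, p t ∈ Pool.Agent.helper32.RH.vl τ σ [64, 2, 65, 3, 66, 14, 0, 1, 16, 67, 11] := by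
    rw [eA]
    intro a ha h64 t ht
    simp only [List.mem_cons, List.not_mem_nil, or_false] at ha
    rcases ha with rfl | rfl | rfl | rfl | rfl | rfl | rfl
    · exact hy t (by simp only [hσ] at ht; tauto)
    · exact absurd h64 (by norm_num)
    · exact absurd h64 (by norm_num)
    · exact absurd h64 (by norm_num)
    · exact absurd h64 (by norm_num)
    · exact hy t (by simp only [hσ] at ht; tauto)
    · exact absurd h64 (by norm_num)
  have := list_thm' c_NEST_A3 (by decide +kernel) (by decide) hv h1 h2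
  rw [eA, eB] at this
  simpa [hτ, tk] using this

/-- the tree NEST_A4. -/
def t_NEST_A4 : Tc :=
 .nd true 65 9 70 (.br (.lf 902989867907301569 6500935257866949 2129862259991284774875200 77264049947185787392)
 (.br (.lf 14794585995793364467905 106511570039755293381 45874363988095351950161308557568 592746340371852439808)
 (.br (.lf 14794614216301455098049 106584464981441479109 6030167862179053117383260788105164863691774501312 335439071309986834162304) .nil)))

theorem c_NEST_A4 : chc 6 ([64, 2, 65, 14, 0, 1, 16, 66, 3, 67, 11] ++ [68, 15, 4, 5, 17, 69, 10]) exN t_NEST_A4 [([64, 2, 65, 14, 0, 1, 16, 66, 3, 67, 11], [68, 15, 4, 5, 17, 69, 10])] = true := by decide +kernel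

/-- a drop: `#0 d0 #1 p0 c0 c1 q0 #2 d1 #3 f0 | #4 p1 z0 z1 q1 #5 f1` -/
theorem NEST_A4 {c d z f g r : Ω} {b0 b1 b2 b3 b4 b5 : List Ω} (hw : WF p (b0 ++ (d :: (b1 ++ (g :: (c :: (p c :: (r :: (b2 ++ (p d :: (b3 ++ ([p f])))))))))), b4 ++ (p g :: (z :: (p z :: (p r :: (b5 ++ ([f]))))))))
    (hx : ∀ t, t ∈ b0 ∨ t ∈ b1 ∨ t ∈ b2 ∨ t ∈ b3 → p t ∈ b4 ++ (p g :: (z :: (p z :: (p r :: (b5 ++ ([f])))))))
    (hy : ∀ t, t ∈ b4 ∨ t ∈ b5 → p t ∈ b0 ++ (d :: (b1 ++ (g :: (c :: (p c :: (r :: (b2 ++ (p d :: (b3 ++ ([p f]))))))))))) :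
    Dr p 6 f (b0 ++ (d :: (b1 ++ (g :: (c :: (p c :: (r :: (b2 ++ (p d :: (b3 ++ ([p f])))))))))), b4 ++ (p g :: (z :: (p z :: (p r :: (b5 ++ ([f]))))))) := by
  set τ : ℕ → Ω := tk p (fun n => match n with | 0 => c | 1 => d | 2 => z | 7 => g | 8 => r | _ => f) with hτ
  set σ : ℕ → List Ω := fun j => match j with | 64 => b0 | 65 => b1 | 66 => b2 | 67 => b3 | 68 => b4 | 69 => b5 | _ => [] with hσ
  have eA : Pool.Agent.helper32.RH.vl τ σ [64, 2, 65, 14, 0, 1, 16, 66, 3, 67, 11] = b0 ++ (d :: (b1 ++ (g :: (c :: (p c :: (r :: (b2 ++ (p d :: (b3 ++ ([p f])))))))))) := by simp [Pool.Agent.helper32.RH.vl, at1, hτ, hσ, tk]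
  have eB : Pool.Agent.helper32.RH.vl τ σ [68, 15, 4, 5, 17, 69, 10] = b4 ++ (p g :: (z :: (p z :: (p r :: (b5 ++ ([f])))))) := by simp [Pool.Agent.helper32.RH.vl, at1, hτ, hσ, tk]
  have hv : Vd p τ σ [64, 2, 65, 14, 0, 1, 16, 66, 3, 67, 11] [68, 15, 4, 5, 17, 69, 10] := ⟨fun t ht => tk_xor hw.inv _ t ht, by rw [eA, eB]; exact hw⟩
  have h1 : ∀ a ∈ [64, 2, 65, 14, 0, 1, 16, 66, 3, 67, 11], 64 ≤ a → ∀ t ∈ σ a, p t ∈ Pool.Agent.helper32.RH.vl τ σ [68, 15, 4, 5, 17, 69, 10] := by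
    rw [eB]
    intro a ha h64 t ht
    simp only [List.mem_cons, List.not_mem_nil, or_false] at ha
    rcases ha with rfl | rfl | rfl | rfl | rfl | rfl | rfl | rfl | rfl | rfl | rfl
    · exact hx t (by simp only [hσ] at ht; tauto)
    · exact absurd h64 (by norm_num)
    · exact hx t (by simp only [hσ] at ht; tauto)
    · exact absurd h64 (by norm_num)
    · exact absurd h64 (by norm_num)
    · exact absurd h64 (by norm_num)
    · exact absurd h64 (by norm_num)
    · exact hx t (by simp only [hσ] at ht; tauto)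
    · exact absurd h64 (by norm_num)
    · exact hx t (by simp only [hσ] at ht; tauto)
    · exact absurd h64 (by norm_num)
  have h2 : ∀ a ∈ [68, 15, 4, 5, 17, 69, 10], 64 ≤ a → ∀ t ∈ σ a, p t ∈ Pool.Agent.helper32.RH.vl τ σ [64, 2, 65, 14, 0, 1, 16, 66, 3, 67, 11] := by
    rw [eA]
    intro a ha h64 t ht
    simp only [List.mem_cons, List.not_mem_nil, or_false] at ha
    rcases ha with rfl | rfl | rfl | rfl | rfl | rfl | rfl
    · exact hy t (by simp only [hσ] at ht; tauto)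
    · exact absurd h64 (by norm_num)
    · exact absurd h64 (by norm_num)
    · exact absurd h64 (by norm_num)
    · exact absurd h64 (by norm_num)
    · exact hy t (by simp only [hσ] at ht; tauto)
    · exact absurd h64 (by norm_num)
  have := list_thm' c_NEST_A4 (by decide +kernel) (by decide) hv h1 h2
  rw [eA, eB] at this
  simpa [hτ, tk] using this

/-- the tree NEST_A5. -/
def t_NEST_A5 : Tc :=
 .nd false 65 9 70 (.br (.lf 902989834621075649 6500932596793669 5388791983742702293952082755840 13332702839040)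
 (.br (.lf 14794585450431703451841 106511570037098414405 208995178872663903223134394878804224 335439089601529935839616)
 (.br (.lf 14794585450431703451841 106584463228531738949 1561781817041984222050822905399719631356698880 1277253890153929031300424064) .nil)))

theorem c_NEST_A5 : chc 6 ([64, 14, 0, 1, 16, 65, 2, 66, 3, 67, 11] ++ [68, 15, 4, 5, 17, 69, 10]) exN t_NEST_A5 [([64, 14, 0, 1, 16, 65, 2, 66, 3, 67, 11], [68, 15, 4, 5, 17, 69, 10])] = true := by decide +kernel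

/-- a drop: `#0 p0 c0 c1 q0 #1 d0 #2 d1 #3 f0 | #4 p1 z0 z1 q1 #5 f1` -/
theorem NEST_A5 {c d z f g r : Ω} {b0 b1 b2 b3 b4 b5 : List Ω} (hw : WF p (b0 ++ (g :: (c :: (p c :: (r :: (b1 ++ (d :: (b2 ++ (p d :: (b3 ++ ([p f])))))))))), b4 ++ (p g :: (z :: (p z :: (p r :: (b5 ++ ([f]))))))))
    (hx : ∀ t, t ∈ b0 ∨ t ∈ b1 ∨ t ∈ b2 ∨ t ∈ b3 → p t ∈ b4 ++ (p g :: (z :: (p z :: (p r :: (b5 ++ ([f])))))))
    (hy : ∀ t, t ∈ b4 ∨ t ∈ b5 → p t ∈ b0 ++ (g :: (c :: (p c :: (r :: (b1 ++ (d :: (b2 ++ (p d :: (b3 ++ ([p f]))))))))))) :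
    Dr p 6 f (b0 ++ (g :: (c :: (p c :: (r :: (b1 ++ (d :: (b2 ++ (p d :: (b3 ++ ([p f])))))))))), b4 ++ (p g :: (z :: (p z :: (p r :: (b5 ++ ([f]))))))) := by
  set τ : ℕ → Ω := tk p (fun n => match n with | 0 => c | 1 => d | 2 => z | 7 => g | 8 => r | _ => f) with hτ
  set σ : ℕ → List Ω := fun j => match j with | 64 => b0 | 65 => b1 | 66 => b2 | 67 => b3 | 68 => b4 | 69 => b5 | _ => [] with hσ
  have eA : Pool.Agent.helper32.RH.vl τ σ [64, 14, 0, 1, 16, 65, 2, 66, 3, 67, 11] = b0 ++ (g :: (c :: (p c :: (r :: (b1 ++ (d :: (b2 ++ (p d :: (b3 ++ ([p f])))))))))) := by simp [Pool.Agent.helper32.RH.vl, at1, hτ, hσ, tk]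
  have eB : Pool.Agent.helper32.RH.vl τ σ [68, 15, 4, 5, 17, 69, 10] = b4 ++ (p g :: (z :: (p z :: (p r :: (b5 ++ ([f])))))) := by simp [Pool.Agent.helper32.RH.vl, at1, hτ, hσ, tk]
  have hv : Vd p τ σ [64, 14, 0, 1, 16, 65, 2, 66, 3, 67, 11] [68, 15, 4, 5, 17, 69, 10] := ⟨fun t ht => tk_xor hw.inv _ t ht, by rw [eA, eB]; exact hw⟩
  have h1 : ∀ a ∈ [64, 14, 0, 1, 16, 65, 2, 66, 3, 67, 11], 64 ≤ a → ∀ t ∈ σ a, p t ∈ Pool.Agent.helper32.RH.vl τ σ [68, 15, 4, 5, 17, 69, 10] := by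
    rw [eB]
    intro a ha h64 t ht
    simp only [List.mem_cons, List.not_mem_nil, or_false] at ha
    rcases ha with rfl | rfl | rfl | rfl | rfl | rfl | rfl | rfl | rfl | rfl | rfl
    · exact hx t (by simp only [hσ] at ht; tauto)
    · exact absurd h64 (by norm_num)
    · exact absurd h64 (by norm_num)
    · exact absurd h64 (by norm_num)
    · exact absurd h64 (by norm_num)
    · exact hx t (by simp only [hσ] at ht; tauto)
    · exact absurd h64 (by norm_num)
    · exact hx t (by simp only [hσ] at ht; tauto)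
    · exact absurd h64 (by norm_num)
    · exact hx t (by simp only [hσ] at ht; tauto)
    · exact absurd h64 (by norm_num)
  have h2 : ∀ a ∈ [68, 15, 4, 5, 17, 69, 10], 64 ≤ a → ∀ t ∈ σ a, p t ∈ Pool.Agent.helper32.RH.vl τ σ [64, 14, 0, 1, 16, 65, 2, 66, 3, 67, 11] := by
    rw [eA]
    intro a ha h64 t ht
    simp only [List.mem_cons, List.not_mem_nil, or_false] at ha
    rcases ha with rfl | rfl | rfl | rfl | rfl | rfl | rfl
    · exact hy t (by simp only [hσ] at ht; tauto)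
    · exact absurd h64 (by norm_num)
    · exact absurd h64 (by norm_num)
    · exact absurd h64 (by norm_num)
    · exact absurd h64 (by norm_num)
    · exact hy t (by simp only [hσ] at ht; tauto)
    · exact absurd h64 (by norm_num)
  have := list_thm' c_NEST_A5 (by decide +kernel) (by decide) hv h1 h2
  rw [eA, eB] at this
  simpa [hτ, tk] using this

/-- the tree NEST_A6. -/
def t_NEST_A6 : Tc :=
 .nd false 64 8 69 (.br (.lf 53000439619972 48465787814543 1218447817189003905741248 13332769935680)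
 (.br (.lf 901351114678518278 830936174398038802 79588180034882916928 1276932694365552756123775488)
 (.br (.lf 868355234318016900 794067934320347153 2515179689742402257118573120 1277249167789134946050523264) .nil)))

theorem c_NEST_A6 : chc 6 ([0, 1, 14, 64, 2, 65, 3, 66, 11] ++ [4, 67, 5, 15, 68, 10]) exN t_NEST_A6 [([0, 1, 14, 64, 2, 65, 3, 66, 11], [4, 67, 5, 15, 68, 10])] = true := by decide +kernel

/-- a drop: `c0 c1 p0 #0 d0 #1 d1 #2 f0 | z0 #3 z1 p1 #4 f1` -/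
theorem NEST_A6 {c d z f g : Ω} {b0 b1 b2 b3 b4 : List Ω} (hw : WF p (c :: (p c :: (g :: (b0 ++ (d :: (b1 ++ (p d :: (b2 ++ ([p f])))))))), z :: (b3 ++ (p z :: (p g :: (b4 ++ ([f])))))))
    (hx : ∀ t, t ∈ b0 ∨ t ∈ b1 ∨ t ∈ b2 → p t ∈ z :: (b3 ++ (p z :: (p g :: (b4 ++ ([f]))))))
    (hy : ∀ t, t ∈ b3 ∨ t ∈ b4 → p t ∈ c :: (p c :: (g :: (b0 ++ (d :: (b1 ++ (p d :: (b2 ++ ([p f]))))))))) :
    Dr p 6 f (c :: (p c :: (g :: (b0 ++ (d :: (b1 ++ (p d :: (b2 ++ ([p f])))))))), z :: (b3 ++ (p z :: (p g :: (b4 ++ ([f])))))) := by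
  set τ : ℕ → Ω := tk p (fun n => match n with | 0 => c | 1 => d | 2 => z | 7 => g | _ => f) with hτ
  set σ : ℕ → List Ω := fun j => match j with | 64 => b0 | 65 => b1 | 66 => b2 | 67 => b3 | 68 => b4 | _ => [] with hσ
  have eA : Pool.Agent.helper32.RH.vl τ σ [0, 1, 14, 64, 2, 65, 3, 66, 11] = c :: (p c :: (g :: (b0 ++ (d :: (b1 ++ (p d :: (b2 ++ ([p f])))))))) := by simp [Pool.Agent.helper32.RH.vl, at1, hτ, hσ, tk]
  have eB : Pool.Agent.helper32.RH.vl τ σ [4, 67, 5, 15, 68, 10] = z :: (b3 ++ (p z :: (p g :: (b4 ++ ([f]))))) := by simp [Pool.Agent.helper32.RH.vl, at1, hτ, hσ, tk]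
  have hv : Vd p τ σ [0, 1, 14, 64, 2, 65, 3, 66, 11] [4, 67, 5, 15, 68, 10] := ⟨fun t ht => tk_xor hw.inv _ t ht, by rw [eA, eB]; exact hw⟩
  have h1 : ∀ a ∈ [0, 1, 14, 64, 2, 65, 3, 66, 11], 64 ≤ a → ∀ t ∈ σ a, p t ∈ Pool.Agent.helper32.RH.vl τ σ [4, 67, 5, 15, 68, 10] := by
    rw [eB]
    intro a ha h64 t ht
    simp only [List.mem_cons, List.not_mem_nil, or_false] at ha
    rcases ha with rfl | rfl | rfl | rfl | rfl | rfl | rfl | rfl | rfl
    · exact absurd h64 (by norm_num)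
    · exact absurd h64 (by norm_num)
    · exact absurd h64 (by norm_num)
    · exact hx t (by simp only [hσ] at ht; tauto)
    · exact absurd h64 (by norm_num)
    · exact hx t (by simp only [hσ] at ht; tauto)
    · exact absurd h64 (by norm_num)
    · exact hx t (by simp only [hσ] at ht; tauto)
    · exact absurd h64 (by norm_num)
  have h2 : ∀ a ∈ [4, 67, 5, 15, 68, 10], 64 ≤ a → ∀ t ∈ σ a, p t ∈ Pool.Agent.helper32.RH.vl τ σ [0, 1, 14, 64, 2, 65, 3, 66, 11] := by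
    rw [eA]
    intro a ha h64 t ht
    simp only [List.mem_cons, List.not_mem_nil, or_false] at ha
    rcases ha with rfl | rfl | rfl | rfl | rfl | rfl
    · exact absurd h64 (by norm_num)
    · exact hy t (by simp only [hσ] at ht; tauto)
    · exact absurd h64 (by norm_num)
    · exact absurd h64 (by norm_num)
    · exact hy t (by simp only [hσ] at ht; tauto)
    · exact absurd h64 (by norm_num)
  have := list_thm' c_NEST_A6 (by decide +kernel) (by decide) hv h1 h2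
  rw [eA, eB] at this
  simpa [hτ, tk] using this

/-- the tree NEST_A7. -/
def t_NEST_A7 : Tc :=
 .nd false 64 8 68 (.br (.lf 53000439619972 378636862095 1218446664267499298890176 13332753158464)
 (.br (.lf 868355234318016900 6203621246044177 2515179688589480752511722048 1277244445422370601411821696) .nil))

theorem c_NEST_A7 : chc 6 ([0, 1, 14, 64, 2, 65, 3, 66, 11] ++ [4, 5, 15, 67, 10]) exN t_NEST_A7 [([0, 1, 14, 64, 2, 65, 3, 66, 11], [4, 5, 15, 67, 10])] = true := by decide +kernel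

/-- a drop: `c0 c1 p0 #0 d0 #1 d1 #2 f0 | z0 z1 p1 #3 f1` -/
theorem NEST_A7 {c d z f g : Ω} {b0 b1 b2 b3 : List Ω} (hw : WF p (c :: (p c :: (g :: (b0 ++ (d :: (b1 ++ (p d :: (b2 ++ ([p f])))))))), z :: (p z :: (p g :: (b3 ++ ([f]))))))
    (hx : ∀ t, t ∈ b0 ∨ t ∈ b1 ∨ t ∈ b2 → p t ∈ z :: (p z :: (p g :: (b3 ++ ([f])))))
    (hy : ∀ t, t ∈ b3 → p t ∈ c :: (p c :: (g :: (b0 ++ (d :: (b1 ++ (p d :: (b2 ++ ([p f]))))))))) :
    Dr p 6 f (c :: (p c :: (g :: (b0 ++ (d :: (b1 ++ (p d :: (b2 ++ ([p f])))))))), z :: (p z :: (p g :: (b3 ++ ([f]))))) := by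
  set τ : ℕ → Ω := tk p (fun n => match n with | 0 => c | 1 => d | 2 => z | 7 => g | _ => f) with hτ
  set σ : ℕ → List Ω := fun j => match j with | 64 => b0 | 65 => b1 | 66 => b2 | 67 => b3 | _ => [] with hσ
  have eA : Pool.Agent.helper32.RH.vl τ σ [0, 1, 14, 64, 2, 65, 3, 66, 11] = c :: (p c :: (g :: (b0 ++ (d :: (b1 ++ (p d :: (b2 ++ ([p f])))))))) := by simp [Pool.Agent.helper32.RH.vl, at1, hτ, hσ, tk]
  have eB : Pool.Agent.helper32.RH.vl τ σ [4, 5, 15, 67, 10] = z :: (p z :: (p g :: (b3 ++ ([f])))) := by simp [Pool.Agent.helper32.RH.vl, at1, hτ, hσ, tk]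
  have hv : Vd p τ σ [0, 1, 14, 64, 2, 65, 3, 66, 11] [4, 5, 15, 67, 10] := ⟨fun t ht => tk_xor hw.inv _ t ht, by rw [eA, eB]; exact hw⟩
  have h1 : ∀ a ∈ [0, 1, 14, 64, 2, 65, 3, 66, 11], 64 ≤ a → ∀ t ∈ σ a, p t ∈ Pool.Agent.helper32.RH.vl τ σ [4, 5, 15, 67, 10] := by
    rw [eB]
    intro a ha h64 t ht
    simp only [List.mem_cons, List.not_mem_nil, or_false] at ha
    rcases ha with rfl | rfl | rfl | rfl | rfl | rfl | rfl | rfl | rfl
    · exact absurd h64 (by norm_num)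
    · exact absurd h64 (by norm_num)
    · exact absurd h64 (by norm_num)
    · exact hx t (by simp only [hσ] at ht; tauto)
    · exact absurd h64 (by norm_num)
    · exact hx t (by simp only [hσ] at ht; tauto)
    · exact absurd h64 (by norm_num)
    · exact hx t (by simp only [hσ] at ht; tauto)
    · exact absurd h64 (by norm_num)
  have h2 : ∀ a ∈ [4, 5, 15, 67, 10], 64 ≤ a → ∀ t ∈ σ a, p t ∈ Pool.Agent.helper32.RH.vl τ σ [0, 1, 14, 64, 2, 65, 3, 66, 11] := by
    rw [eA]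
    intro a ha h64 t ht
    simp only [List.mem_cons, List.not_mem_nil, or_false] at ha
    rcases ha with rfl | rfl | rfl | rfl | rfl
    · exact absurd h64 (by norm_num)
    · exact absurd h64 (by norm_num)
    · exact absurd h64 (by norm_num)
    · exact hy t (by simp only [hσ] at ht; tauto)
    · exact absurd h64 (by norm_num)
  have := list_thm' c_NEST_A7 (by decide +kernel) (by decide) hv h1 h2
  rw [eA, eB] at this
  simpa [hτ, tk] using this

/-- the tree NEST_A8. -/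
def t_NEST_A8 : Tc :=
 .nd true 66 8 69 (.br (.lf 52828641165633 48895527830212 149934124807045534144 36600612876206464)
 (.br (.lf 902483594208084289 832119713010107076 1276937564233917359689834880 297562406395480654336)
 (.br (.lf 873430631534592449 793500140206917700 4742752252352 35653971225112431913640433058304) .nil)))

theorem c_NEST_A8 : chc 6 ([64, 2, 65, 3, 66, 14, 0, 1, 11] ++ [67, 15, 4, 68, 5, 10]) exN t_NEST_A8 [([64, 2, 65, 3, 66, 14, 0, 1, 11], [67, 15, 4, 68, 5, 10])] = true := by decide +kernel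

/-- a drop: `#0 d0 #1 d1 #2 p0 c0 c1 f0 | #3 p1 z0 #4 z1 f1` -/
theorem NEST_A8 {c d z f g : Ω} {b0 b1 b2 b3 b4 : List Ω} (hw : WF p (b0 ++ (d :: (b1 ++ (p d :: (b2 ++ (g :: (c :: (p c :: ([p f])))))))), b3 ++ (p g :: (z :: (b4 ++ (p z :: ([f])))))))
    (hx : ∀ t, t ∈ b0 ∨ t ∈ b1 ∨ t ∈ b2 → p t ∈ b3 ++ (p g :: (z :: (b4 ++ (p z :: ([f]))))))
    (hy : ∀ t, t ∈ b3 ∨ t ∈ b4 → p t ∈ b0 ++ (d :: (b1 ++ (p d :: (b2 ++ (g :: (c :: (p c :: ([p f]))))))))) :
    Dr p 6 f (b0 ++ (d :: (b1 ++ (p d :: (b2 ++ (g :: (c :: (p c :: ([p f])))))))), b3 ++ (p g :: (z :: (b4 ++ (p z :: ([f])))))) := by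
  set τ : ℕ → Ω := tk p (fun n => match n with | 0 => c | 1 => d | 2 => z | 7 => g | _ => f) with hτ
  set σ : ℕ → List Ω := fun j => match j with | 64 => b0 | 65 => b1 | 66 => b2 | 67 => b3 | 68 => b4 | _ => [] with hσ
  have eA : Pool.Agent.helper32.RH.vl τ σ [64, 2, 65, 3, 66, 14, 0, 1, 11] = b0 ++ (d :: (b1 ++ (p d :: (b2 ++ (g :: (c :: (p c :: ([p f])))))))) := by simp [Pool.Agent.helper32.RH.vl, at1, hτ, hσ, tk]
  have eB : Pool.Agent.helper32.RH.vl τ σ [67, 15, 4, 68, 5, 10] = b3 ++ (p g :: (z :: (b4 ++ (p z :: ([f]))))) := by simp [Pool.Agent.helper32.RH.vl, at1, hτ, hσ, tk]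
  have hv : Vd p τ σ [64, 2, 65, 3, 66, 14, 0, 1, 11] [67, 15, 4, 68, 5, 10] := ⟨fun t ht => tk_xor hw.inv _ t ht, by rw [eA, eB]; exact hw⟩
  have h1 : ∀ a ∈ [64, 2, 65, 3, 66, 14, 0, 1, 11], 64 ≤ a → ∀ t ∈ σ a, p t ∈ Pool.Agent.helper32.RH.vl τ σ [67, 15, 4, 68, 5, 10] := by
    rw [eB]
    intro a ha h64 t ht
    simp only [List.mem_cons, List.not_mem_nil, or_false] at ha
    rcases ha with rfl | rfl | rfl | rfl | rfl | rfl | rfl | rfl | rfl
    · exact hx t (by simp only [hσ] at ht; tauto)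
    · exact absurd h64 (by norm_num)
    · exact hx t (by simp only [hσ] at ht; tauto)
    · exact absurd h64 (by norm_num)
    · exact hx t (by simp only [hσ] at ht; tauto)
    · exact absurd h64 (by norm_num)
    · exact absurd h64 (by norm_num)
    · exact absurd h64 (by norm_num)
    · exact absurd h64 (by norm_num)
  have h2 : ∀ a ∈ [67, 15, 4, 68, 5, 10], 64 ≤ a → ∀ t ∈ σ a, p t ∈ Pool.Agent.helper32.RH.vl τ σ [64, 2, 65, 3, 66, 14, 0, 1, 11] := by
    rw [eA]
    intro a ha h64 t ht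
    simp only [List.mem_cons, List.not_mem_nil, or_false] at ha
    rcases ha with rfl | rfl | rfl | rfl | rfl | rfl
    · exact hy t (by simp only [hσ] at ht; tauto)
    · exact absurd h64 (by norm_num)
    · exact absurd h64 (by norm_num)
    · exact hy t (by simp only [hσ] at ht; tauto)
    · exact absurd h64 (by norm_num)
    · exact absurd h64 (by norm_num)
  have := list_thm' c_NEST_A8 (by decide +kernel) (by decide) hv h1 h2
  rw [eA, eB] at this
  simpa [hτ, tk] using this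

/-- the tree NEST_A9. -/
def t_NEST_A9 : Tc :=
 .nd true 66 8 68 (.br (.lf 52828641165633 381996303044 149934124807045530048 36600612876202368)
 (.br (.lf 902483594208084289 6496537211372228 1276937564233917359673057664 297562406395480650240) .nil))

theorem c_NEST_A9 : chc 6 ([64, 2, 65, 3, 66, 14, 0, 1, 11] ++ [67, 15, 4, 5, 10]) exN t_NEST_A9 [([64, 2, 65, 3, 66, 14, 0, 1, 11], [67, 15, 4, 5, 10])] = true := by decide +kernel

/-- a drop: `#0 d0 #1 d1 #2 p0 c0 c1 f0 | #3 p1 z0 z1 f1` -/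
theorem NEST_A9 {c d z f g : Ω} {b0 b1 b2 b3 : List Ω} (hw : WF p (b0 ++ (d :: (b1 ++ (p d :: (b2 ++ (g :: (c :: (p c :: ([p f])))))))), b3 ++ (p g :: (z :: (p z :: ([f]))))))
    (hx : ∀ t, t ∈ b0 ∨ t ∈ b1 ∨ t ∈ b2 → p t ∈ b3 ++ (p g :: (z :: (p z :: ([f])))))
    (hy : ∀ t, t ∈ b3 → p t ∈ b0 ++ (d :: (b1 ++ (p d :: (b2 ++ (g :: (c :: (p c :: ([p f]))))))))) :
    Dr p 6 f (b0 ++ (d :: (b1 ++ (p d :: (b2 ++ (g :: (c :: (p c :: ([p f])))))))), b3 ++ (p g :: (z :: (p z :: ([f]))))) := by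
  set τ : ℕ → Ω := tk p (fun n => match n with | 0 => c | 1 => d | 2 => z | 7 => g | _ => f) with hτ
  set σ : ℕ → List Ω := fun j => match j with | 64 => b0 | 65 => b1 | 66 => b2 | 67 => b3 | _ => [] with hσ
  have eA : Pool.Agent.helper32.RH.vl τ σ [64, 2, 65, 3, 66, 14, 0, 1, 11] = b0 ++ (d :: (b1 ++ (p d :: (b2 ++ (g :: (c :: (p c :: ([p f])))))))) := by simp [Pool.Agent.helper32.RH.vl, at1, hτ, hσ, tk]
  have eB : Pool.Agent.helper32.RH.vl τ σ [67, 15, 4, 5, 10] = b3 ++ (p g :: (z :: (p z :: ([f])))) := by simp [Pool.Agent.helper32.RH.vl, at1, hτ, hσ, tk]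
  have hv : Vd p τ σ [64, 2, 65, 3, 66, 14, 0, 1, 11] [67, 15, 4, 5, 10] := ⟨fun t ht => tk_xor hw.inv _ t ht, by rw [eA, eB]; exact hw⟩
  have h1 : ∀ a ∈ [64, 2, 65, 3, 66, 14, 0, 1, 11], 64 ≤ a → ∀ t ∈ σ a, p t ∈ Pool.Agent.helper32.RH.vl τ σ [67, 15, 4, 5, 10] := by
    rw [eB]
    intro a ha h64 t ht
    simp only [List.mem_cons, List.not_mem_nil, or_false] at ha
    rcases ha with rfl | rfl | rfl | rfl | rfl | rfl | rfl | rfl | rfl
    · exact hx t (by simp only [hσ] at ht; tauto)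
    · exact absurd h64 (by norm_num)
    · exact hx t (by simp only [hσ] at ht; tauto)
    · exact absurd h64 (by norm_num)
    · exact hx t (by simp only [hσ] at ht; tauto)
    · exact absurd h64 (by norm_num)
    · exact absurd h64 (by norm_num)
    · exact absurd h64 (by norm_num)
    · exact absurd h64 (by norm_num)
  have h2 : ∀ a ∈ [67, 15, 4, 5, 10], 64 ≤ a → ∀ t ∈ σ a, p t ∈ Pool.Agent.helper32.RH.vl τ σ [64, 2, 65, 3, 66, 14, 0, 1, 11] := by
    rw [eA]
    intro a ha h64 t ht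
    simp only [List.mem_cons, List.not_mem_nil, or_false] at ha
    rcases ha with rfl | rfl | rfl | rfl | rfl
    · exact hy t (by simp only [hσ] at ht; tauto)
    · exact absurd h64 (by norm_num)
    · exact absurd h64 (by norm_num)
    · exact absurd h64 (by norm_num)
    · exact absurd h64 (by norm_num)
  have := list_thm' c_NEST_A9 (by decide +kernel) (by decide) hv h1 h2
  rw [eA, eB] at this
  simpa [hτ, tk] using this

end Pool.Agent.helper55.BG
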