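import Pool.Agent.helper55.BG.Nest

/-!
# MP_c8d30a, exponent 12: the table NEST, words exchanged (trees of helper72, routes found by a program, checked by the kernel)
-/

set_option autoImplicit false
set_option maxRecDepth 100000

namespace Pool.Agent.helper55.BG

open NTH Pool.Agent.helper32.RH List

variable {Ω : Type} [DecidableEq Ω] {p : Ω → Ω}

/-- the tree NEST_B0. -/
def t_NEST_B0 : Tc :=
 .nd true 66 9 71 (.br (.lf 904740257001472709 830988950123577665 222550728082165342464 54333605127925952)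
 (.br (.lf 14823296520792900207301 13614959906758139838785 6209661714598543048305561792 224857419979837157568)
 (.br (.lf 14823256770922684713029 13614930845068092801473 18599409630347840 1078186114944858549261240467143310996693504)
 (.br (.lf 14832662818074614923845 13614922958838421520705 3036560066859611693535296 6248966045685011502838071360) .nil))))

theorem c_NEST_B0 : chc 6 ([68, 15, 4, 69, 5, 17, 70, 11] ++ [64, 2, 65, 3, 66, 14, 0, 1, 16, 67, 10]) exN t_NEST_B0 [([68, 15, 4, 69, 5, 17, 70, 11], [64, 2, 65, 3, 66, 14, 0, 1, 16, 67, 10])] = true := by decide +kernel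

/-- a drop: `#4 p1 z0 #5 z1 q1 #6 f0 | #0 d0 #1 d1 #2 p0 c0 c1 q0 #3 f1` -/
theorem NEST_B0 {c d z f g r : Ω} {b0 b1 b2 b3 b4 b5 b6 : List Ω} (hw : WF p (b4 ++ (p g :: (z :: (b5 ++ (p z :: (p r :: (b6 ++ ([p f]))))))), b0 ++ (d :: (b1 ++ (p d :: (b2 ++ (g :: (c :: (p c :: (r :: (b3 ++ ([f]))))))))))))
    (hx : ∀ t, t ∈ b4 ∨ t ∈ b5 ∨ t ∈ b6 → p t ∈ b0 ++ (d :: (b1 ++ (p d :: (b2 ++ (g :: (c :: (p c :: (r :: (b3 ++ ([f])))))))))))
    (hy : ∀ t, t ∈ b0 ∨ t ∈ b1 ∨ t ∈ b2 ∨ t ∈ b3 → p t ∈ b4 ++ (p g :: (z :: (b5 ++ (p z :: (p r :: (b6 ++ ([p f])))))))) :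
    Dr p 6 f (b4 ++ (p g :: (z :: (b5 ++ (p z :: (p r :: (b6 ++ ([p f]))))))), b0 ++ (d :: (b1 ++ (p d :: (b2 ++ (g :: (c :: (p c :: (r :: (b3 ++ ([f]))))))))))) := by
  set τ : ℕ → Ω := tk p (fun n => match n with | 0 => c | 1 => d | 2 => z | 7 => g | 8 => r | _ => f) with hτ
  set σ : ℕ → List Ω := fun j => match j with | 64 => b0 | 65 => b1 | 66 => b2 | 67 => b3 | 68 => b4 | 69 => b5 | 70 => b6 | _ => [] with hσ
  have eA : Pool.Agent.helper32.RH.vl τ σ [68, 15, 4, 69, 5, 17, 70, 11] = b4 ++ (p g :: (z :: (b5 ++ (p z :: (p r :: (b6 ++ ([p f]))))))) := by simp [Pool.Agent.helper32.RH.vl, at1, hτ, hσ, tk]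
  have eB : Pool.Agent.helper32.RH.vl τ σ [64, 2, 65, 3, 66, 14, 0, 1, 16, 67, 10] = b0 ++ (d :: (b1 ++ (p d :: (b2 ++ (g :: (c :: (p c :: (r :: (b3 ++ ([f])))))))))) := by simp [Pool.Agent.helper32.RH.vl, at1, hτ, hσ, tk]
  have hv : Vd p τ σ [68, 15, 4, 69, 5, 17, 70, 11] [64, 2, 65, 3, 66, 14, 0, 1, 16, 67, 10] := ⟨fun t ht => tk_xor hw.inv _ t ht, by rw [eA, eB]; exact hw⟩
  have h1 : ∀ a ∈ [68, 15, 4, 69, 5, 17, 70, 11], 64 ≤ a → ∀ t ∈ σ a, p t ∈ Pool.Agent.helper32.RH.vl τ σ [64, 2, 65, 3, 66, 14, 0, 1, 16, 67, 10] := by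
    rw [eB]
    intro a ha h64 t ht
    simp only [List.mem_cons, List.not_mem_nil, or_false] at ha
    rcases ha with rfl | rfl | rfl | rfl | rfl | rfl | rfl | rfl
    · exact hx t (by simp only [hσ] at ht; tauto)
    · exact absurd h64 (by norm_num)
    · exact absurd h64 (by norm_num)
    · exact hx t (by simp only [hσ] at ht; tauto)
    · exact absurd h64 (by norm_num)
    · exact absurd h64 (by norm_num)
    · exact hx t (by simp only [hσ] at ht; tauto)
    · exact absurd h64 (by norm_num)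
  have h2 : ∀ a ∈ [64, 2, 65, 3, 66, 14, 0, 1, 16, 67, 10], 64 ≤ a → ∀ t ∈ σ a, p t ∈ Pool.Agent.helper32.RH.vl τ σ [68, 15, 4, 69, 5, 17, 70, 11] := by
    rw [eA]
    intro a ha h64 t ht
    simp only [List.mem_cons, List.not_mem_nil, or_false] at ha
    rcases ha with rfl | rfl | rfl | rfl | rfl | rfl | rfl | rfl | rfl | rfl | rfl
    · exact hy t (by simp only [hσ] at ht; tauto)
    · exact absurd h64 (by norm_num)
    · exact hy t (by simp only [hσ] at ht; tauto)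
    · exact absurd h64 (by norm_num)
    · exact hy t (by simp only [hσ] at ht; tauto)
    · exact absurd h64 (by norm_num)
    · exact absurd h64 (by norm_num)
    · exact absurd h64 (by norm_num)
    · exact absurd h64 (by norm_num)
    · exact hy t (by simp only [hσ] at ht; tauto)
    · exact absurd h64 (by norm_num)
  have := list_thm' c_NEST_B0 (by decide +kernel) (by decide) hv h1 h2
  rw [eA, eB] at this
  simpa [hτ, tk] using this

/-- the tree NEST_B1. -/
def t_NEST_B1 : Tc :=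
 .nd true 65 9 71 (.br (.lf 904740256999375557 830932273869373633 108662608181346560 54333811286368448)
 (.br (.lf 14823296520792898110149 13613994375075953164481 23380628175719060117139571497513152 335444854204586204877440)
 (.br (.lf 14823256770922684713029 13614023149720623415745 19162359583760960 124949867479978124594174234523103872)
 (.br (.lf 14832662818074614923717 13614022595584043794625 72222026023554804600546702171639408864483165305057344 666442958938575482944) .nil))))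

theorem c_NEST_B1 : chc 6 ([68, 15, 4, 69, 5, 17, 70, 11] ++ [64, 2, 65, 14, 0, 1, 16, 66, 3, 67, 10]) exN t_NEST_B1 [([68, 15, 4, 69, 5, 17, 70, 11], [64, 2, 65, 14, 0, 1, 16, 66, 3, 67, 10])] = true := by decide +kernel

/-- a drop: `#4 p1 z0 #5 z1 q1 #6 f0 | #0 d0 #1 p0 c0 c1 q0 #2 d1 #3 f1` -/
theorem NEST_B1 {c d z f g r : Ω} {b0 b1 b2 b3 b4 b5 b6 : List Ω} (hw : WF p (b4 ++ (p g :: (z :: (b5 ++ (p z :: (p r :: (b6 ++ ([p f]))))))), b0 ++ (d :: (b1 ++ (g :: (c :: (p c :: (r :: (b2 ++ (p d :: (b3 ++ ([f]))))))))))))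
    (hx : ∀ t, t ∈ b4 ∨ t ∈ b5 ∨ t ∈ b6 → p t ∈ b0 ++ (d :: (b1 ++ (g :: (c :: (p c :: (r :: (b2 ++ (p d :: (b3 ++ ([f])))))))))))
    (hy : ∀ t, t ∈ b0 ∨ t ∈ b1 ∨ t ∈ b2 ∨ t ∈ b3 → p t ∈ b4 ++ (p g :: (z :: (b5 ++ (p z :: (p r :: (b6 ++ ([p f])))))))) :
    Dr p 6 f (b4 ++ (p g :: (z :: (b5 ++ (p z :: (p r :: (b6 ++ ([p f]))))))), b0 ++ (d :: (b1 ++ (g :: (c :: (p c :: (r :: (b2 ++ (p d :: (b3 ++ ([f]))))))))))) := by
  set τ : ℕ → Ω := tk p (fun n => match n with | 0 => c | 1 => d | 2 => z | 7 => g | 8 => r | _ => f) with hτ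
  set σ : ℕ → List Ω := fun j => match j with | 64 => b0 | 65 => b1 | 66 => b2 | 67 => b3 | 68 => b4 | 69 => b5 | 70 => b6 | _ => [] with hσ
  have eA : Pool.Agent.helper32.RH.vl τ σ [68, 15, 4, 69, 5, 17, 70, 11] = b4 ++ (p g :: (z :: (b5 ++ (p z :: (p r :: (b6 ++ ([p f]))))))) := by simp [Pool.Agent.helper32.RH.vl, at1, hτ, hσ, tk]
  have eB : Pool.Agent.helper32.RH.vl τ σ [64, 2, 65, 14, 0, 1, 16, 66, 3, 67, 10] = b0 ++ (d :: (b1 ++ (g :: (c :: (p c :: (r :: (b2 ++ (p d :: (b3 ++ ([f])))))))))) := by simp [Pool.Agent.helper32.RH.vl, at1, hτ, hσ, tk]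
  have hv : Vd p τ σ [68, 15, 4, 69, 5, 17, 70, 11] [64, 2, 65, 14, 0, 1, 16, 66, 3, 67, 10] := ⟨fun t ht => tk_xor hw.inv _ t ht, by rw [eA, eB]; exact hw⟩
  have h1 : ∀ a ∈ [68, 15, 4, 69, 5, 17, 70, 11], 64 ≤ a → ∀ t ∈ σ a, p t ∈ Pool.Agent.helper32.RH.vl τ σ [64, 2, 65, 14, 0, 1, 16, 66, 3, 67, 10] := by
    rw [eB]
    intro a ha h64 t ht
    simp only [List.mem_cons, List.not_mem_nil, or_false] at ha
    rcases ha with rfl | rfl | rfl | rfl | rfl | rfl | rfl | rfl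
    · exact hx t (by simp only [hσ] at ht; tauto)
    · exact absurd h64 (by norm_num)
    · exact absurd h64 (by norm_num)
    · exact hx t (by simp only [hσ] at ht; tauto)
    · exact absurd h64 (by norm_num)
    · exact absurd h64 (by norm_num)
    · exact hx t (by simp only [hσ] at ht; tauto)
    · exact absurd h64 (by norm_num)
  have h2 : ∀ a ∈ [64, 2, 65, 14, 0, 1, 16, 66, 3, 67, 10], 64 ≤ a → ∀ t ∈ σ a, p t ∈ Pool.Agent.helper32.RH.vl τ σ [68, 15, 4, 69, 5, 17, 70, 11] := by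
    rw [eA]
    intro a ha h64 t ht
    simp only [List.mem_cons, List.not_mem_nil, or_false] at ha
    rcases ha with rfl | rfl | rfl | rfl | rfl | rfl | rfl | rfl | rfl | rfl | rfl
    · exact hy t (by simp only [hσ] at ht; tauto)
    · exact absurd h64 (by norm_num)
    · exact hy t (by simp only [hσ] at ht; tauto)
    · exact absurd h64 (by norm_num)
    · exact absurd h64 (by norm_num)
    · exact absurd h64 (by norm_num)
    · exact absurd h64 (by norm_num)
    · exact hy t (by simp only [hσ] at ht; tauto)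
    · exact absurd h64 (by norm_num)
    · exact hy t (by simp only [hσ] at ht; tauto)
    · exact absurd h64 (by norm_num)
  have := list_thm' c_NEST_B1 (by decide +kernel) (by decide) hv h1 h2
  rw [eA, eB] at this
  simpa [hτ, tk] using this

/-- the tree NEST_B2. -/
def t_NEST_B2 : Tc :=
 .nd false 65 9 71 (.br (.lf 904742146545025349 830932240583147713 25513963864752475077823364878784 18586216514474496)
 (.br (.lf 14823296522682447954245 13613993829714292148417 97117379700854745549383120865446613568 921013758456397982364288)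
 (.br (.lf 14813096654993942186053 13596513092350584653761 340234071847991398379776 2118259084419918962658234392820550522905024)
 (.br (.lf 14832662816287345461573 13613993829714292148417 6488314017388793180297861533951711219745074717120 916584161701028683325632) .nil))))

theorem c_NEST_B2 : chc 6 ([68, 15, 4, 69, 5, 17, 70, 11] ++ [64, 14, 0, 1, 16, 65, 2, 66, 3, 67, 10]) exN t_NEST_B2 [([68, 15, 4, 69, 5, 17, 70, 11], [64, 14, 0, 1, 16, 65, 2, 66, 3, 67, 10])] = true := by decide +kernel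

/-- a drop: `#4 p1 z0 #5 z1 q1 #6 f0 | #0 p0 c0 c1 q0 #1 d0 #2 d1 #3 f1` -/
theorem NEST_B2 {c d z f g r : Ω} {b0 b1 b2 b3 b4 b5 b6 : List Ω} (hw : WF p (b4 ++ (p g :: (z :: (b5 ++ (p z :: (p r :: (b6 ++ ([p f]))))))), b0 ++ (g :: (c :: (p c :: (r :: (b1 ++ (d :: (b2 ++ (p d :: (b3 ++ ([f]))))))))))))
    (hx : ∀ t, t ∈ b4 ∨ t ∈ b5 ∨ t ∈ b6 → p t ∈ b0 ++ (g :: (c :: (p c :: (r :: (b1 ++ (d :: (b2 ++ (p d :: (b3 ++ ([f])))))))))))
    (hy : ∀ t, t ∈ b0 ∨ t ∈ b1 ∨ t ∈ b2 ∨ t ∈ b3 → p t ∈ b4 ++ (p g :: (z :: (b5 ++ (p z :: (p r :: (b6 ++ ([p f])))))))) :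
    Dr p 6 f (b4 ++ (p g :: (z :: (b5 ++ (p z :: (p r :: (b6 ++ ([p f]))))))), b0 ++ (g :: (c :: (p c :: (r :: (b1 ++ (d :: (b2 ++ (p d :: (b3 ++ ([f]))))))))))) := by
  set τ : ℕ → Ω := tk p (fun n => match n with | 0 => c | 1 => d | 2 => z | 7 => g | 8 => r | _ => f) with hτ
  set σ : ℕ → List Ω := fun j => match j with | 64 => b0 | 65 => b1 | 66 => b2 | 67 => b3 | 68 => b4 | 69 => b5 | 70 => b6 | _ => [] with hσ
  have eA : Pool.Agent.helper32.RH.vl τ σ [68, 15, 4, 69, 5, 17, 70, 11] = b4 ++ (p g :: (z :: (b5 ++ (p z :: (p r :: (b6 ++ ([p f]))))))) := by simp [Pool.Agent.helper32.RH.vl, at1, hτ, hσ, tk]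
  have eB : Pool.Agent.helper32.RH.vl τ σ [64, 14, 0, 1, 16, 65, 2, 66, 3, 67, 10] = b0 ++ (g :: (c :: (p c :: (r :: (b1 ++ (d :: (b2 ++ (p d :: (b3 ++ ([f])))))))))) := by simp [Pool.Agent.helper32.RH.vl, at1, hτ, hσ, tk]
  have hv : Vd p τ σ [68, 15, 4, 69, 5, 17, 70, 11] [64, 14, 0, 1, 16, 65, 2, 66, 3, 67, 10] := ⟨fun t ht => tk_xor hw.inv _ t ht, by rw [eA, eB]; exact hw⟩
  have h1 : ∀ a ∈ [68, 15, 4, 69, 5, 17, 70, 11], 64 ≤ a → ∀ t ∈ σ a, p t ∈ Pool.Agent.helper32.RH.vl τ σ [64, 14, 0, 1, 16, 65, 2, 66, 3, 67, 10] := by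
    rw [eB]
    intro a ha h64 t ht
    simp only [List.mem_cons, List.not_mem_nil, or_false] at ha
    rcases ha with rfl | rfl | rfl | rfl | rfl | rfl | rfl | rfl
    · exact hx t (by simp only [hσ] at ht; tauto)
    · exact absurd h64 (by norm_num)
    · exact absurd h64 (by norm_num)
    · exact hx t (by simp only [hσ] at ht; tauto)
    · exact absurd h64 (by norm_num)
    · exact absurd h64 (by norm_num)
    · exact hx t (by simp only [hσ] at ht; tauto)
    · exact absurd h64 (by norm_num)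
  have h2 : ∀ a ∈ [64, 14, 0, 1, 16, 65, 2, 66, 3, 67, 10], 64 ≤ a → ∀ t ∈ σ a, p t ∈ Pool.Agent.helper32.RH.vl τ σ [68, 15, 4, 69, 5, 17, 70, 11] := by
    rw [eA]
    intro a ha h64 t ht
    simp only [List.mem_cons, List.not_mem_nil, or_false] at ha
    rcases ha with rfl | rfl | rfl | rfl | rfl | rfl | rfl | rfl | rfl | rfl | rfl
    · exact hy t (by simp only [hσ] at ht; tauto)
    · exact absurd h64 (by norm_num)
    · exact absurd h64 (by norm_num)
    · exact absurd h64 (by norm_num)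
    · exact absurd h64 (by norm_num)
    · exact hy t (by simp only [hσ] at ht; tauto)
    · exact absurd h64 (by norm_num)
    · exact hy t (by simp only [hσ] at ht; tauto)
    · exact absurd h64 (by norm_num)
    · exact hy t (by simp only [hσ] at ht; tauto)
    · exact absurd h64 (by norm_num)
  have := list_thm' c_NEST_B2 (by decide +kernel) (by decide) hv h1 h2
  rw [eA, eB] at this
  simpa [hτ, tk] using this

/-- the tree NEST_B3. -/
def t_NEST_B3 : Tc :=
 .nd true 66 9 70 (.br (.lf 7063885211304645 830988950123577665 222550728082165342400 54333605127925888)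
 (.br (.lf 115734942076610085573 13614959906758139838785 6209661714598543047231557824 224857419979837157504)
 (.br (.lf 115807837018296255045 13614922958838421520705 2734328611951556353085504 6248966045685011501764329536) .nil)))

theorem c_NEST_B3 : chc 6 ([68, 15, 4, 5, 17, 69, 11] ++ [64, 2, 65, 3, 66, 14, 0, 1, 16, 67, 10]) exN t_NEST_B3 [([68, 15, 4, 5, 17, 69, 11], [64, 2, 65, 3, 66, 14, 0, 1, 16, 67, 10])] = true := by decide +kernel

/-- a drop: `#4 p1 z0 z1 q1 #5 f0 | #0 d0 #1 d1 #2 p0 c0 c1 q0 #3 f1` -/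
theorem NEST_B3 {c d z f g r : Ω} {b0 b1 b2 b3 b4 b5 : List Ω} (hw : WF p (b4 ++ (p g :: (z :: (p z :: (p r :: (b5 ++ ([p f])))))), b0 ++ (d :: (b1 ++ (p d :: (b2 ++ (g :: (c :: (p c :: (r :: (b3 ++ ([f]))))))))))))
    (hx : ∀ t, t ∈ b4 ∨ t ∈ b5 → p t ∈ b0 ++ (d :: (b1 ++ (p d :: (b2 ++ (g :: (c :: (p c :: (r :: (b3 ++ ([f])))))))))))
    (hy : ∀ t, t ∈ b0 ∨ t ∈ b1 ∨ t ∈ b2 ∨ t ∈ b3 → p t ∈ b4 ++ (p g :: (z :: (p z :: (p r :: (b5 ++ ([p f]))))))) :
    Dr p 6 f (b4 ++ (p g :: (z :: (p z :: (p r :: (b5 ++ ([p f])))))), b0 ++ (d :: (b1 ++ (p d :: (b2 ++ (g :: (c :: (p c :: (r :: (b3 ++ ([f]))))))))))) := by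
  set τ : ℕ → Ω := tk p (fun n => match n with | 0 => c | 1 => d | 2 => z | 7 => g | 8 => r | _ => f) with hτ
  set σ : ℕ → List Ω := fun j => match j with | 64 => b0 | 65 => b1 | 66 => b2 | 67 => b3 | 68 => b4 | 69 => b5 | _ => [] with hσ
  have eA : Pool.Agent.helper32.RH.vl τ σ [68, 15, 4, 5, 17, 69, 11] = b4 ++ (p g :: (z :: (p z :: (p r :: (b5 ++ ([p f])))))) := by simp [Pool.Agent.helper32.RH.vl, at1, hτ, hσ, tk]
  have eB : Pool.Agent.helper32.RH.vl τ σ [64, 2, 65, 3, 66, 14, 0, 1, 16, 67, 10] = b0 ++ (d :: (b1 ++ (p d :: (b2 ++ (g :: (c :: (p c :: (r :: (b3 ++ ([f])))))))))) := by simp [Pool.Agent.helper32.RH.vl, at1, hτ, hσ, tk]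
  have hv : Vd p τ σ [68, 15, 4, 5, 17, 69, 11] [64, 2, 65, 3, 66, 14, 0, 1, 16, 67, 10] := ⟨fun t ht => tk_xor hw.inv _ t ht, by rw [eA, eB]; exact hw⟩
  have h1 : ∀ a ∈ [68, 15, 4, 5, 17, 69, 11], 64 ≤ a → ∀ t ∈ σ a, p t ∈ Pool.Agent.helper32.RH.vl τ σ [64, 2, 65, 3, 66, 14, 0, 1, 16, 67, 10] := by
    rw [eB]
    intro a ha h64 t ht
    simp only [List.mem_cons, List.not_mem_nil, or_false] at ha
    rcases ha with rfl | rfl | rfl | rfl | rfl | rfl | rfl
    · exact hx t (by simp only [hσ] at ht; tauto)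
    · exact absurd h64 (by norm_num)
    · exact absurd h64 (by norm_num)
    · exact absurd h64 (by norm_num)
    · exact absurd h64 (by norm_num)
    · exact hx t (by simp only [hσ] at ht; tauto)
    · exact absurd h64 (by norm_num)
  have h2 : ∀ a ∈ [64, 2, 65, 3, 66, 14, 0, 1, 16, 67, 10], 64 ≤ a → ∀ t ∈ σ a, p t ∈ Pool.Agent.helper32.RH.vl τ σ [68, 15, 4, 5, 17, 69, 11] := by
    rw [eA]
    intro a ha h64 t ht
    simp only [List.mem_cons, List.not_mem_nil, or_false] at ha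
    rcases ha with rfl | rfl | rfl | rfl | rfl | rfl | rfl | rfl | rfl | rfl | rfl
    · exact hy t (by simp only [hσ] at ht; tauto)
    · exact absurd h64 (by norm_num)
    · exact hy t (by simp only [hσ] at ht; tauto)
    · exact absurd h64 (by norm_num)
    · exact hy t (by simp only [hσ] at ht; tauto)
    · exact absurd h64 (by norm_num)
    · exact absurd h64 (by norm_num)
    · exact absurd h64 (by norm_num)
    · exact absurd h64 (by norm_num)
    · exact hy t (by simp only [hσ] at ht; tauto)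
    · exact absurd h64 (by norm_num)
  have := list_thm' c_NEST_B3 (by decide +kernel) (by decide) hv h1 h2
  rw [eA, eB] at this
  simpa [hτ, tk] using this

/-- the tree NEST_B4. -/
def t_NEST_B4 : Tc :=
 .nd true 65 9 70 (.br (.lf 7063885211288261 830932273869373633 1832353171565961690751040 54333811286368384)
 (.br (.lf 115734942076610069189 13613994375075953164481 23380628175718986312148878149562560 335444854204586204615232)
 (.br (.lf 115807837018296254917 13614022595584043794625 72222026023206355456819661185052913248458636146782272 592655982643737276480) .nil)))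

theorem c_NEST_B4 : chc 6 ([68, 15, 4, 5, 17, 69, 11] ++ [64, 2, 65, 14, 0, 1, 16, 66, 3, 67, 10]) exN t_NEST_B4 [([68, 15, 4, 5, 17, 69, 11], [64, 2, 65, 14, 0, 1, 16, 66, 3, 67, 10])] = true := by decide +kernel

/-- a drop: `#4 p1 z0 z1 q1 #5 f0 | #0 d0 #1 p0 c0 c1 q0 #2 d1 #3 f1` -/
theorem NEST_B4 {c d z f g r : Ω} {b0 b1 b2 b3 b4 b5 : List Ω} (hw : WF p (b4 ++ (p g :: (z :: (p z :: (p r :: (b5 ++ ([p f])))))), b0 ++ (d :: (b1 ++ (g :: (c :: (p c :: (r :: (b2 ++ (p d :: (b3 ++ ([f]))))))))))))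
    (hx : ∀ t, t ∈ b4 ∨ t ∈ b5 → p t ∈ b0 ++ (d :: (b1 ++ (g :: (c :: (p c :: (r :: (b2 ++ (p d :: (b3 ++ ([f])))))))))))
    (hy : ∀ t, t ∈ b0 ∨ t ∈ b1 ∨ t ∈ b2 ∨ t ∈ b3 → p t ∈ b4 ++ (p g :: (z :: (p z :: (p r :: (b5 ++ ([p f]))))))) :
    Dr p 6 f (b4 ++ (p g :: (z :: (p z :: (p r :: (b5 ++ ([p f])))))), b0 ++ (d :: (b1 ++ (g :: (c :: (p c :: (r :: (b2 ++ (p d :: (b3 ++ ([f]))))))))))) := by
  set τ : ℕ → Ω := tk p (fun n => match n with | 0 => c | 1 => d | 2 => z | 7 => g | 8 => r | _ => f) with hτ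
  set σ : ℕ → List Ω := fun j => match j with | 64 => b0 | 65 => b1 | 66 => b2 | 67 => b3 | 68 => b4 | 69 => b5 | _ => [] with hσ
  have eA : Pool.Agent.helper32.RH.vl τ σ [68, 15, 4, 5, 17, 69, 11] = b4 ++ (p g :: (z :: (p z :: (p r :: (b5 ++ ([p f])))))) := by simp [Pool.Agent.helper32.RH.vl, at1, hτ, hσ, tk]
  have eB : Pool.Agent.helper32.RH.vl τ σ [64, 2, 65, 14, 0, 1, 16, 66, 3, 67, 10] = b0 ++ (d :: (b1 ++ (g :: (c :: (p c :: (r :: (b2 ++ (p d :: (b3 ++ ([f])))))))))) := by simp [Pool.Agent.helper32.RH.vl, at1, hτ, hσ, tk]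
  have hv : Vd p τ σ [68, 15, 4, 5, 17, 69, 11] [64, 2, 65, 14, 0, 1, 16, 66, 3, 67, 10] := ⟨fun t ht => tk_xor hw.inv _ t ht, by rw [eA, eB]; exact hw⟩
  have h1 : ∀ a ∈ [68, 15, 4, 5, 17, 69, 11], 64 ≤ a → ∀ t ∈ σ a, p t ∈ Pool.Agent.helper32.RH.vl τ σ [64, 2, 65, 14, 0, 1, 16, 66, 3, 67, 10] := by
    rw [eB]
    intro a ha h64 t ht
    simp only [List.mem_cons, List.not_mem_nil, or_false] at ha
    rcases ha with rfl | rfl | rfl | rfl | rfl | rfl | rfl
    · exact hx t (by simp only [hσ] at ht; tauto)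
    · exact absurd h64 (by norm_num)
    · exact absurd h64 (by norm_num)
    · exact absurd h64 (by norm_num)
    · exact absurd h64 (by norm_num)
    · exact hx t (by simp only [hσ] at ht; tauto)
    · exact absurd h64 (by norm_num)
  have h2 : ∀ a ∈ [64, 2, 65, 14, 0, 1, 16, 66, 3, 67, 10], 64 ≤ a → ∀ t ∈ σ a, p t ∈ Pool.Agent.helper32.RH.vl τ σ [68, 15, 4, 5, 17, 69, 11] := by
    rw [eA]
    intro a ha h64 t ht
    simp only [List.mem_cons, List.not_mem_nil, or_false] at ha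
    rcases ha with rfl | rfl | rfl | rfl | rfl | rfl | rfl | rfl | rfl | rfl | rfl
    · exact hy t (by simp only [hσ] at ht; tauto)
    · exact absurd h64 (by norm_num)
    · exact hy t (by simp only [hσ] at ht; tauto)
    · exact absurd h64 (by norm_num)
    · exact absurd h64 (by norm_num)
    · exact absurd h64 (by norm_num)
    · exact absurd h64 (by norm_num)
    · exact hy t (by simp only [hσ] at ht; tauto)
    · exact absurd h64 (by norm_num)
    · exact hy t (by simp only [hσ] at ht; tauto)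
    · exact absurd h64 (by norm_num)
  have := list_thm' c_NEST_B4 (by decide +kernel) (by decide) hv h1 h2
  rw [eA, eB] at this
  simpa [hτ, tk] using this

/-- the tree NEST_B5. -/
def t_NEST_B5 : Tc :=
 .nd false 65 9 70 (.br (.lf 7063882550214981 830932240583147713 25434735702019137635764088623488 18586216514474432)
 (.br (.lf 115734942073953190213 13613993829714292148417 97117055182300189799220446069905183232 921013740441999472882240)
 (.br (.lf 115807835265386514757 13613993829714292148417 2450544836477421314594885222232527934595456 916510374724733844857024) .nil)))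

theorem c_NEST_B5 : chc 6 ([68, 15, 4, 5, 17, 69, 11] ++ [64, 14, 0, 1, 16, 65, 2, 66, 3, 67, 10]) exN t_NEST_B5 [([68, 15, 4, 5, 17, 69, 11], [64, 14, 0, 1, 16, 65, 2, 66, 3, 67, 10])] = true := by decide +kernel

/-- a drop: `#4 p1 z0 z1 q1 #5 f0 | #0 p0 c0 c1 q0 #1 d0 #2 d1 #3 f1` -/
theorem NEST_B5 {c d z f g r : Ω} {b0 b1 b2 b3 b4 b5 : List Ω} (hw : WF p (b4 ++ (p g :: (z :: (p z :: (p r :: (b5 ++ ([p f])))))), b0 ++ (g :: (c :: (p c :: (r :: (b1 ++ (d :: (b2 ++ (p d :: (b3 ++ ([f]))))))))))))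
    (hx : ∀ t, t ∈ b4 ∨ t ∈ b5 → p t ∈ b0 ++ (g :: (c :: (p c :: (r :: (b1 ++ (d :: (b2 ++ (p d :: (b3 ++ ([f])))))))))))
    (hy : ∀ t, t ∈ b0 ∨ t ∈ b1 ∨ t ∈ b2 ∨ t ∈ b3 → p t ∈ b4 ++ (p g :: (z :: (p z :: (p r :: (b5 ++ ([p f]))))))) :
    Dr p 6 f (b4 ++ (p g :: (z :: (p z :: (p r :: (b5 ++ ([p f])))))), b0 ++ (g :: (c :: (p c :: (r :: (b1 ++ (d :: (b2 ++ (p d :: (b3 ++ ([f]))))))))))) := by
  set τ : ℕ → Ω := tk p (fun n => match n with | 0 => c | 1 => d | 2 => z | 7 => g | 8 => r | _ => f) with hτ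
  set σ : ℕ → List Ω := fun j => match j with | 64 => b0 | 65 => b1 | 66 => b2 | 67 => b3 | 68 => b4 | 69 => b5 | _ => [] with hσ
  have eA : Pool.Agent.helper32.RH.vl τ σ [68, 15, 4, 5, 17, 69, 11] = b4 ++ (p g :: (z :: (p z :: (p r :: (b5 ++ ([p f])))))) := by simp [Pool.Agent.helper32.RH.vl, at1, hτ, hσ, tk]
  have eB : Pool.Agent.helper32.RH.vl τ σ [64, 14, 0, 1, 16, 65, 2, 66, 3, 67, 10] = b0 ++ (g :: (c :: (p c :: (r :: (b1 ++ (d :: (b2 ++ (p d :: (b3 ++ ([f])))))))))) := by simp [Pool.Agent.helper32.RH.vl, at1, hτ, hσ, tk]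
  have hv : Vd p τ σ [68, 15, 4, 5, 17, 69, 11] [64, 14, 0, 1, 16, 65, 2, 66, 3, 67, 10] := ⟨fun t ht => tk_xor hw.inv _ t ht, by rw [eA, eB]; exact hw⟩
  have h1 : ∀ a ∈ [68, 15, 4, 5, 17, 69, 11], 64 ≤ a → ∀ t ∈ σ a, p t ∈ Pool.Agent.helper32.RH.vl τ σ [64, 14, 0, 1, 16, 65, 2, 66, 3, 67, 10] := by
    rw [eB]
    intro a ha h64 t ht
    simp only [List.mem_cons, List.not_mem_nil, or_false] at ha
    rcases ha with rfl | rfl | rfl | rfl | rfl | rfl | rfl
    · exact hx t (by simp only [hσ] at ht; tauto)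
    · exact absurd h64 (by norm_num)
    · exact absurd h64 (by norm_num)
    · exact absurd h64 (by norm_num)
    · exact absurd h64 (by norm_num)
    · exact hx t (by simp only [hσ] at ht; tauto)
    · exact absurd h64 (by norm_num)
  have h2 : ∀ a ∈ [64, 14, 0, 1, 16, 65, 2, 66, 3, 67, 10], 64 ≤ a → ∀ t ∈ σ a, p t ∈ Pool.Agent.helper32.RH.vl τ σ [68, 15, 4, 5, 17, 69, 11] := by
    rw [eA]
    intro a ha h64 t ht
    simp only [List.mem_cons, List.not_mem_nil, or_false] at ha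
    rcases ha with rfl | rfl | rfl | rfl | rfl | rfl | rfl | rfl | rfl | rfl | rfl
    · exact hy t (by simp only [hσ] at ht; tauto)
    · exact absurd h64 (by norm_num)
    · exact absurd h64 (by norm_num)
    · exact absurd h64 (by norm_num)
    · exact absurd h64 (by norm_num)
    · exact hy t (by simp only [hσ] at ht; tauto)
    · exact absurd h64 (by norm_num)
    · exact hy t (by simp only [hσ] at ht; tauto)
    · exact absurd h64 (by norm_num)
    · exact hy t (by simp only [hσ] at ht; tauto)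
    · exact absurd h64 (by norm_num)
  have := list_thm' c_NEST_B5 (by decide +kernel) (by decide) hv h1 h2
  rw [eA, eB] at this
  simpa [hτ, tk] using this

/-- the tree NEST_B6. -/
def t_NEST_B6 : Tc :=
 .nd false 64 8 69 (.br (.lf 52863834325647 48602393108868 7466632964542821018619875456 18581816420340032)
 (.br (.lf 902993768435966738 829293520640590342 108658206947680512 911491690531352312811648)
 (.br (.lf 866125528358275089 796297640280088964 9942513045455453376798265472 3753724189596839272757342272) .nil)))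

theorem c_NEST_B6 : chc 6 ([4, 67, 5, 15, 68, 11] ++ [0, 1, 14, 64, 2, 65, 3, 66, 10]) exN t_NEST_B6 [([4, 67, 5, 15, 68, 11], [0, 1, 14, 64, 2, 65, 3, 66, 10])] = true := by decide +kernel

/-- a drop: `z0 #3 z1 p1 #4 f0 | c0 c1 p0 #0 d0 #1 d1 #2 f1` -/
theorem NEST_B6 {c d z f g : Ω} {b0 b1 b2 b3 b4 : List Ω} (hw : WF p (z :: (b3 ++ (p z :: (p g :: (b4 ++ ([p f]))))), c :: (p c :: (g :: (b0 ++ (d :: (b1 ++ (p d :: (b2 ++ ([f]))))))))))
    (hx : ∀ t, t ∈ b3 ∨ t ∈ b4 → p t ∈ c :: (p c :: (g :: (b0 ++ (d :: (b1 ++ (p d :: (b2 ++ ([f])))))))))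
    (hy : ∀ t, t ∈ b0 ∨ t ∈ b1 ∨ t ∈ b2 → p t ∈ z :: (b3 ++ (p z :: (p g :: (b4 ++ ([p f])))))) :
    Dr p 6 f (z :: (b3 ++ (p z :: (p g :: (b4 ++ ([p f]))))), c :: (p c :: (g :: (b0 ++ (d :: (b1 ++ (p d :: (b2 ++ ([f]))))))))) := by
  set τ : ℕ → Ω := tk p (fun n => match n with | 0 => c | 1 => d | 2 => z | 7 => g | _ => f) with hτ
  set σ : ℕ → List Ω := fun j => match j with | 64 => b0 | 65 => b1 | 66 => b2 | 67 => b3 | 68 => b4 | _ => [] with hσ
  have eA : Pool.Agent.helper32.RH.vl τ σ [4, 67, 5, 15, 68, 11] = z :: (b3 ++ (p z :: (p g :: (b4 ++ ([p f]))))) := by simp [Pool.Agent.helper32.RH.vl, at1, hτ, hσ, tk]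
  have eB : Pool.Agent.helper32.RH.vl τ σ [0, 1, 14, 64, 2, 65, 3, 66, 10] = c :: (p c :: (g :: (b0 ++ (d :: (b1 ++ (p d :: (b2 ++ ([f])))))))) := by simp [Pool.Agent.helper32.RH.vl, at1, hτ, hσ, tk]
  have hv : Vd p τ σ [4, 67, 5, 15, 68, 11] [0, 1, 14, 64, 2, 65, 3, 66, 10] := ⟨fun t ht => tk_xor hw.inv _ t ht, by rw [eA, eB]; exact hw⟩
  have h1 : ∀ a ∈ [4, 67, 5, 15, 68, 11], 64 ≤ a → ∀ t ∈ σ a, p t ∈ Pool.Agent.helper32.RH.vl τ σ [0, 1, 14, 64, 2, 65, 3, 66, 10] := by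
    rw [eB]
    intro a ha h64 t ht
    simp only [List.mem_cons, List.not_mem_nil, or_false] at ha
    rcases ha with rfl | rfl | rfl | rfl | rfl | rfl
    · exact absurd h64 (by norm_num)
    · exact hx t (by simp only [hσ] at ht; tauto)
    · exact absurd h64 (by norm_num)
    · exact absurd h64 (by norm_num)
    · exact hx t (by simp only [hσ] at ht; tauto)
    · exact absurd h64 (by norm_num)
  have h2 : ∀ a ∈ [0, 1, 14, 64, 2, 65, 3, 66, 10], 64 ≤ a → ∀ t ∈ σ a, p t ∈ Pool.Agent.helper32.RH.vl τ σ [4, 67, 5, 15, 68, 11] := by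
    rw [eA]
    intro a ha h64 t ht
    simp only [List.mem_cons, List.not_mem_nil, or_false] at ha
    rcases ha with rfl | rfl | rfl | rfl | rfl | rfl | rfl | rfl | rfl
    · exact absurd h64 (by norm_num)
    · exact absurd h64 (by norm_num)
    · exact absurd h64 (by norm_num)
    · exact hy t (by simp only [hσ] at ht; tauto)
    · exact absurd h64 (by norm_num)
    · exact hy t (by simp only [hσ] at ht; tauto)
    · exact absurd h64 (by norm_num)
    · exact hy t (by simp only [hσ] at ht; tauto)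
    · exact absurd h64 (by norm_num)
  have := list_thm' c_NEST_B6 (by decide +kernel) (by decide) hv h1 h2
  rw [eA, eB] at this
  simpa [hτ, tk] using this

/-- the tree NEST_B7. -/
def t_NEST_B7 : Tc :=
 .nd false 64 8 68 (.br (.lf 412996600463 48602393108868 6228692851470464448882544704 18586219734917440)
 (.br (.lf 6766571199465489 796297640280088964 8704572932383096807060934720 916362801348285056442560) .nil))

theorem c_NEST_B7 : chc 6 ([4, 5, 15, 67, 11] ++ [0, 1, 14, 64, 2, 65, 3, 66, 10]) exN t_NEST_B7 [([4, 5, 15, 67, 11], [0, 1, 14, 64, 2, 65, 3, 66, 10])] = true := by decide +kernel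

/-- a drop: `z0 z1 p1 #3 f0 | c0 c1 p0 #0 d0 #1 d1 #2 f1` -/
theorem NEST_B7 {c d z f g : Ω} {b0 b1 b2 b3 : List Ω} (hw : WF p (z :: (p z :: (p g :: (b3 ++ ([p f])))), c :: (p c :: (g :: (b0 ++ (d :: (b1 ++ (p d :: (b2 ++ ([f]))))))))))
    (hx : ∀ t, t ∈ b3 → p t ∈ c :: (p c :: (g :: (b0 ++ (d :: (b1 ++ (p d :: (b2 ++ ([f])))))))))
    (hy : ∀ t, t ∈ b0 ∨ t ∈ b1 ∨ t ∈ b2 → p t ∈ z :: (p z :: (p g :: (b3 ++ ([p f]))))) :
    Dr p 6 f (z :: (p z :: (p g :: (b3 ++ ([p f])))), c :: (p c :: (g :: (b0 ++ (d :: (b1 ++ (p d :: (b2 ++ ([f]))))))))) := by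
  set τ : ℕ → Ω := tk p (fun n => match n with | 0 => c | 1 => d | 2 => z | 7 => g | _ => f) with hτ
  set σ : ℕ → List Ω := fun j => match j with | 64 => b0 | 65 => b1 | 66 => b2 | 67 => b3 | _ => [] with hσ
  have eA : Pool.Agent.helper32.RH.vl τ σ [4, 5, 15, 67, 11] = z :: (p z :: (p g :: (b3 ++ ([p f])))) := by simp [Pool.Agent.helper32.RH.vl, at1, hτ, hσ, tk]
  have eB : Pool.Agent.helper32.RH.vl τ σ [0, 1, 14, 64, 2, 65, 3, 66, 10] = c :: (p c :: (g :: (b0 ++ (d :: (b1 ++ (p d :: (b2 ++ ([f])))))))) := by simp [Pool.Agent.helper32.RH.vl, at1, hτ, hσ, tk]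
  have hv : Vd p τ σ [4, 5, 15, 67, 11] [0, 1, 14, 64, 2, 65, 3, 66, 10] := ⟨fun t ht => tk_xor hw.inv _ t ht, by rw [eA, eB]; exact hw⟩
  have h1 : ∀ a ∈ [4, 5, 15, 67, 11], 64 ≤ a → ∀ t ∈ σ a, p t ∈ Pool.Agent.helper32.RH.vl τ σ [0, 1, 14, 64, 2, 65, 3, 66, 10] := by
    rw [eB]
    intro a ha h64 t ht
    simp only [List.mem_cons, List.not_mem_nil, or_false] at ha
    rcases ha with rfl | rfl | rfl | rfl | rfl
    · exact absurd h64 (by norm_num)
    · exact absurd h64 (by norm_num)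
    · exact absurd h64 (by norm_num)
    · exact hx t (by simp only [hσ] at ht; tauto)
    · exact absurd h64 (by norm_num)
  have h2 : ∀ a ∈ [0, 1, 14, 64, 2, 65, 3, 66, 10], 64 ≤ a → ∀ t ∈ σ a, p t ∈ Pool.Agent.helper32.RH.vl τ σ [4, 5, 15, 67, 11] := by
    rw [eA]
    intro a ha h64 t ht
    simp only [List.mem_cons, List.not_mem_nil, or_false] at ha
    rcases ha with rfl | rfl | rfl | rfl | rfl | rfl | rfl | rfl | rfl
    · exact absurd h64 (by norm_num)
    · exact absurd h64 (by norm_num)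
    · exact absurd h64 (by norm_num)
    · exact hy t (by simp only [hσ] at ht; tauto)
    · exact absurd h64 (by norm_num)
    · exact hy t (by simp only [hσ] at ht; tauto)
    · exact absurd h64 (by norm_num)
    · exact hy t (by simp only [hσ] at ht; tauto)
    · exact absurd h64 (by norm_num)
  have := list_thm' c_NEST_B7 (by decide +kernel) (by decide) hv h1 h2
  rw [eA, eB] at this
  simpa [hτ, tk] using this

/-- the tree NEST_B8. -/
def t_NEST_B8 : Tc :=
 .nd true 66 8 69 (.br (.lf 53293574341316 48430594654529 74976775490341445888 18304808108961984)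
 (.br (.lf 904177307048035012 830426000170156353 3733781635991753699340865728 77283467390160744640)
 (.br (.lf 865557734244845636 801373037496664513 26459213955520 5548467538791035017043900637632) .nil)))

theorem c_NEST_B8 : chc 6 ([67, 15, 4, 68, 5, 11] ++ [64, 2, 65, 3, 66, 14, 0, 1, 10]) exN t_NEST_B8 [([67, 15, 4, 68, 5, 11], [64, 2, 65, 3, 66, 14, 0, 1, 10])] = true := by decide +kernel

/-- a drop: `#3 p1 z0 #4 z1 f0 | #0 d0 #1 d1 #2 p0 c0 c1 f1` -/
theorem NEST_B8 {c d z f g : Ω} {b0 b1 b2 b3 b4 : List Ω} (hw : WF p (b3 ++ (p g :: (z :: (b4 ++ (p z :: ([p f]))))), b0 ++ (d :: (b1 ++ (p d :: (b2 ++ (g :: (c :: (p c :: ([f]))))))))))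
    (hx : ∀ t, t ∈ b3 ∨ t ∈ b4 → p t ∈ b0 ++ (d :: (b1 ++ (p d :: (b2 ++ (g :: (c :: (p c :: ([f])))))))))
    (hy : ∀ t, t ∈ b0 ∨ t ∈ b1 ∨ t ∈ b2 → p t ∈ b3 ++ (p g :: (z :: (b4 ++ (p z :: ([p f])))))) :
    Dr p 6 f (b3 ++ (p g :: (z :: (b4 ++ (p z :: ([p f]))))), b0 ++ (d :: (b1 ++ (p d :: (b2 ++ (g :: (c :: (p c :: ([f]))))))))) := by
  set τ : ℕ → Ω := tk p (fun n => match n with | 0 => c | 1 => d | 2 => z | 7 => g | _ => f) with hτ
  set σ : ℕ → List Ω := fun j => match j with | 64 => b0 | 65 => b1 | 66 => b2 | 67 => b3 | 68 => b4 | _ => [] with hσ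
  have eA : Pool.Agent.helper32.RH.vl τ σ [67, 15, 4, 68, 5, 11] = b3 ++ (p g :: (z :: (b4 ++ (p z :: ([p f]))))) := by simp [Pool.Agent.helper32.RH.vl, at1, hτ, hσ, tk]
  have eB : Pool.Agent.helper32.RH.vl τ σ [64, 2, 65, 3, 66, 14, 0, 1, 10] = b0 ++ (d :: (b1 ++ (p d :: (b2 ++ (g :: (c :: (p c :: ([f])))))))) := by simp [Pool.Agent.helper32.RH.vl, at1, hτ, hσ, tk]
  have hv : Vd p τ σ [67, 15, 4, 68, 5, 11] [64, 2, 65, 3, 66, 14, 0, 1, 10] := ⟨fun t ht => tk_xor hw.inv _ t ht, by rw [eA, eB]; exact hw⟩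
  have h1 : ∀ a ∈ [67, 15, 4, 68, 5, 11], 64 ≤ a → ∀ t ∈ σ a, p t ∈ Pool.Agent.helper32.RH.vl τ σ [64, 2, 65, 3, 66, 14, 0, 1, 10] := by
    rw [eB]
    intro a ha h64 t ht
    simp only [List.mem_cons, List.not_mem_nil, or_false] at ha
    rcases ha with rfl | rfl | rfl | rfl | rfl | rfl
    · exact hx t (by simp only [hσ] at ht; tauto)
    · exact absurd h64 (by norm_num)
    · exact absurd h64 (by norm_num)
    · exact hx t (by simp only [hσ] at ht; tauto)
    · exact absurd h64 (by norm_num)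
    · exact absurd h64 (by norm_num)
  have h2 : ∀ a ∈ [64, 2, 65, 3, 66, 14, 0, 1, 10], 64 ≤ a → ∀ t ∈ σ a, p t ∈ Pool.Agent.helper32.RH.vl τ σ [67, 15, 4, 68, 5, 11] := by
    rw [eA]
    intro a ha h64 t ht
    simp only [List.mem_cons, List.not_mem_nil, or_false] at ha
    rcases ha with rfl | rfl | rfl | rfl | rfl | rfl | rfl | rfl | rfl
    · exact hy t (by simp only [hσ] at ht; tauto)
    · exact absurd h64 (by norm_num)
    · exact hy t (by simp only [hσ] at ht; tauto)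
    · exact absurd h64 (by norm_num)
    · exact hy t (by simp only [hσ] at ht; tauto)
    · exact absurd h64 (by norm_num)
    · exact absurd h64 (by norm_num)
    · exact absurd h64 (by norm_num)
    · exact absurd h64 (by norm_num)
  have := list_thm' c_NEST_B8 (by decide +kernel) (by decide) hv h1 h2
  rw [eA, eB] at this
  simpa [hτ, tk] using this

/-- the tree NEST_B9. -/
def t_NEST_B9 : Tc :=
 .nd true 66 8 68 (.br (.lf 416356041412 48430594654529 74976775490341445824 18304808108961920)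
 (.br (.lf 7059487164793540 830426000170156353 3733781635991753698266861760 77283467390160744576) .nil))

theorem c_NEST_B9 : chc 6 ([67, 15, 4, 5, 11] ++ [64, 2, 65, 3, 66, 14, 0, 1, 10]) exN t_NEST_B9 [([67, 15, 4, 5, 11], [64, 2, 65, 3, 66, 14, 0, 1, 10])] = true := by decide +kernel

/-- a drop: `#3 p1 z0 z1 f0 | #0 d0 #1 d1 #2 p0 c0 c1 f1` -/
theorem NEST_B9 {c d z f g : Ω} {b0 b1 b2 b3 : List Ω} (hw : WF p (b3 ++ (p g :: (z :: (p z :: ([p f])))), b0 ++ (d :: (b1 ++ (p d :: (b2 ++ (g :: (c :: (p c :: ([f]))))))))))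
    (hx : ∀ t, t ∈ b3 → p t ∈ b0 ++ (d :: (b1 ++ (p d :: (b2 ++ (g :: (c :: (p c :: ([f])))))))))
    (hy : ∀ t, t ∈ b0 ∨ t ∈ b1 ∨ t ∈ b2 → p t ∈ b3 ++ (p g :: (z :: (p z :: ([p f]))))) :
    Dr p 6 f (b3 ++ (p g :: (z :: (p z :: ([p f])))), b0 ++ (d :: (b1 ++ (p d :: (b2 ++ (g :: (c :: (p c :: ([f]))))))))) := by
  set τ : ℕ → Ω := tk p (fun n => match n with | 0 => c | 1 => d | 2 => z | 7 => g | _ => f) with hτ
  set σ : ℕ → List Ω := fun j => match j with | 64 => b0 | 65 => b1 | 66 => b2 | 67 => b3 | _ => [] with hσ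
  have eA : Pool.Agent.helper32.RH.vl τ σ [67, 15, 4, 5, 11] = b3 ++ (p g :: (z :: (p z :: ([p f])))) := by simp [Pool.Agent.helper32.RH.vl, at1, hτ, hσ, tk]
  have eB : Pool.Agent.helper32.RH.vl τ σ [64, 2, 65, 3, 66, 14, 0, 1, 10] = b0 ++ (d :: (b1 ++ (p d :: (b2 ++ (g :: (c :: (p c :: ([f])))))))) := by simp [Pool.Agent.helper32.RH.vl, at1, hτ, hσ, tk]
  have hv : Vd p τ σ [67, 15, 4, 5, 11] [64, 2, 65, 3, 66, 14, 0, 1, 10] := ⟨fun t ht => tk_xor hw.inv _ t ht, by rw [eA, eB]; exact hw⟩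
  have h1 : ∀ a ∈ [67, 15, 4, 5, 11], 64 ≤ a → ∀ t ∈ σ a, p t ∈ Pool.Agent.helper32.RH.vl τ σ [64, 2, 65, 3, 66, 14, 0, 1, 10] := by
    rw [eB]
    intro a ha h64 t ht
    simp only [List.mem_cons, List.not_mem_nil, or_false] at ha
    rcases ha with rfl | rfl | rfl | rfl | rfl
    · exact hx t (by simp only [hσ] at ht; tauto)
    · exact absurd h64 (by norm_num)
    · exact absurd h64 (by norm_num)
    · exact absurd h64 (by norm_num)
    · exact absurd h64 (by norm_num)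
  have h2 : ∀ a ∈ [64, 2, 65, 3, 66, 14, 0, 1, 10], 64 ≤ a → ∀ t ∈ σ a, p t ∈ Pool.Agent.helper32.RH.vl τ σ [67, 15, 4, 5, 11] := by
    rw [eA]
    intro a ha h64 t ht
    simp only [List.mem_cons, List.not_mem_nil, or_false] at ha
    rcases ha with rfl | rfl | rfl | rfl | rfl | rfl | rfl | rfl | rfl
    · exact hy t (by simp only [hσ] at ht; tauto)
    · exact absurd h64 (by norm_num)
    · exact hy t (by simp only [hσ] at ht; tauto)
    · exact absurd h64 (by norm_num)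
    · exact hy t (by simp only [hσ] at ht; tauto)
    · exact absurd h64 (by norm_num)
    · exact absurd h64 (by norm_num)
    · exact absurd h64 (by norm_num)
    · exact absurd h64 (by norm_num)
  have := list_thm' c_NEST_B9 (by decide +kernel) (by decide) hv h1 h2
  rw [eA, eB] at this
  simpa [hτ, tk] using this

end Pool.Agent.helper55.BG
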