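import Pool.Agent.helper55.BG.Lst

/-!
# MP_c8d30a, exponent 12: checked tables of decision trees, from states to symbolic words
-/

set_option autoImplicit false

namespace Pool.Agent.helper55.BG

open NTH Pool.Agent.helper32.RH List

/-- the check of a table with trees. -/
def chr (T : TD) (K : ℕ) (S0 : List ℕ) (ex : List ℕ → List ℕ → Bool) (ts : List Tc) : Bool :=
  all2 (fun q t => chc K S0 ex t [(T.U q.1, T.V q.2)]) (prs T.us T.vs) ts

/-- the conditions on a table: `S` the letters; the words end with `11` and `10`. -/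
def goodr (T : TD) (S : List ℕ) : Prop :=
  T.at.Nodup ∧ (∀ m ∈ T.at, m < 64 ∧ m / 2 ∈ S ∧ m ^^^ 1 ∈ T.at) ∧ (∀ u ∈ T.us, u ≠ []) ∧ (∀ u ∈ T.vs, u ≠ []) ∧
    T.S1.getLast? = some 11 ∧ T.S2.getLast? = some 10

instance (T : TD) (S : List ℕ) : Decidable (goodr T S) := by unfold goodr; infer_instance

variable {Ω : Type} [DecidableEq Ω] {p : Ω → Ω}

/-- `y` is the successor of `x`. -/
def Sq (p : Ω → Ω) (a : ℕ → Ω) (s : St Ω) (x y : ℕ) : Prop := NA.sc s (tk p a x) = tk p a y

/-- the units of the table are in the state. -/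
structure Fit (T : TD) (p : Ω → Ω) (a : ℕ → Ω) (s : St Ω) : Prop where
  memA : ∀ m ∈ T.P1 ++ T.us.flatten ++ T.S1, tk p a m ∈ s.1
  memB : ∀ m ∈ T.P2 ++ T.vs.flatten ++ T.S2, tk p a m ∈ s.2
  hP1 : (11 :: T.P1).IsChain (Sq p a s)
  hP2 : (10 :: T.P2).IsChain (Sq p a s)
  hS1 : T.S1.IsChain (Sq p a s)
  hS2 : T.S2.IsChain (Sq p a s)
  hus : ∀ u ∈ T.us, u.IsChain (Sq p a s)
  hvs : ∀ u ∈ T.vs, u.IsChain (Sq p a s)

/-- one word: from chains to a decomposition. -/
theorem decomp {W : List Ω} {τ : ℕ → Ω} {h : ℕ} {P S : List ℕ} {us : List (List ℕ)} (hn : W.Nodup)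
    (hl : W.getLast? = some (τ h)) (hS : S.getLast? = some h) (hinj : ((P ++ us.flatten ++ S).map τ).Nodup)
    (hm : ∀ m ∈ P ++ us.flatten ++ S, τ m ∈ W) (hPc : (h :: P).IsChain (fun x y => formPerm W (τ x) = τ y))
    (hSc : S.IsChain (fun x y => formPerm W (τ x) = τ y)) (hus : ∀ u ∈ us, u.IsChain (fun x y => formPerm W (τ x) = τ y))
    (hne : ∀ u ∈ us, u ≠ []) :
    ∃ X, W = P.map τ ++ (X ++ S.map τ) ∧ ∀ u ∈ us, u.map τ <:+: X := by
  obtain ⟨S', rfl⟩ := List.getLast?_eq_some_iff.mp hS
  -- the atom h occurs at the end only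
  have hh : ∀ m ∈ P ++ us.flatten ++ S', τ m ≠ τ h := by
    intro m hm' e
    rw [← List.append_assoc, List.map_append, List.nodup_append] at hinj
    exact hinj.2.2 (τ m) (List.mem_map.mpr ⟨m, by simpa using hm', rfl⟩) (τ h) (by simp) e
  have tr : ∀ (u : List ℕ), u.IsChain (fun x y => formPerm W (τ x) = τ y) → (∀ m ∈ u, τ m ∈ W) →
      (∀ m ∈ u.dropLast, τ m ≠ τ h) → (u.map τ).IsChain (fun a b => [a, b] <:+: W) := by
    intro u
    induction u with
    | nil => intro _ _ _; simp
    | cons x u ih =>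
      intro h1 h2 h3
      cases u with
      | nil => simp
      | cons y u =>
        rw [List.isChain_cons_cons] at h1
        simp only [List.map_cons, List.isChain_cons_cons]
        refine ⟨succ_inf hn hl (h2 x (by simp)) (h3 x (by simp)) h1.1, ?_⟩
        have := ih h1.2 (fun m hm => h2 m (List.mem_cons_of_mem _ hm)) (fun m hm => h3 m (by
          rw [List.dropLast_cons_cons]
          exact List.mem_cons_of_mem _ hm))
        simpa using this
  have sfx : (S' ++ [h]).map τ <:+ W := by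
    have h1 := tr (S' ++ [h]) hSc (fun m hm' => hm m (by simp only [List.mem_append] at hm' ⊢; tauto))
      (by rw [List.dropLast_concat]; intro m hm'; exact hh m (by simp [hm']))
    rw [List.map_append, List.map_singleton] at h1 ⊢
    exact chain_suffix hn _ (by
      intro t ht
      obtain ⟨m, hm', rfl⟩ := List.mem_map.mp ht
      exact hm m (by simp [hm'])) h1 hl
  have pfx : P.map τ <+: W := by
    cases P with
    | nil => exact ⟨W, rfl⟩
    | cons x P =>
      rw [List.isChain_cons_cons] at hPc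
      obtain ⟨R, hR⟩ := succ_last hn hl hPc.1
      have h1 := tr (x :: P) hPc.2 (fun m hm' => hm m (by simp only [List.mem_append]; tauto))
        (by
          intro m hm'
          exact hh m (by
            have := List.dropLast_subset _ hm'
            simp only [List.mem_append]; tauto))
      rw [List.map_cons] at h1 ⊢
      exact chain_prefix hn _ _ (by
        intro t ht
        rw [← List.map_cons] at ht
        obtain ⟨m, hm', rfl⟩ := List.mem_map.mp ht
        exact hm m (by simp only [List.mem_append]; tauto)) h1 ⟨R, hR⟩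
  rw [List.map_append, List.map_append] at hinj
  have d1 := List.nodup_append.mp hinj
  have d2 := List.nodup_append.mp d1.1
  obtain ⟨X, hX⟩ := pre_suf pfx sfx (fun t ht ht' => d1.2.2 t (List.mem_append_left _ ht) t ht' rfl)
  refine ⟨X, hX, ?_⟩
  intro u hu
  have hmu : ∀ m ∈ u, m ∈ us.flatten := fun m hm' => List.mem_flatten.mpr ⟨u, hu, hm'⟩
  have h1 := tr u (hus u hu) (fun m hm' => hm m (by simp only [List.mem_append]; exact Or.inl (Or.inr (hmu m hm'))))
    (fun m hm' => hh m (by
      have := hmu m (List.dropLast_subset _ hm')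
      simp only [List.mem_append]; tauto))
  have h2 : u.map τ ≠ [] := by
    intro h3
    exact hne u hu (List.map_eq_nil_iff.mp h3)
  have h3 := chain_infix hn _ h2 (by
    intro t ht
    obtain ⟨m, hm', rfl⟩ := List.mem_map.mp ht
    exact hm m (by simp only [List.mem_append]; exact Or.inl (Or.inr (hmu m hm')))) h1
  rw [hX] at h3
  refine inf_mid h3 h2 ?_ ?_
  · intro t ht ht'
    obtain ⟨m, hm', rfl⟩ := List.mem_map.mp ht
    exact d2.2.2 _ ht' _ (List.mem_map.mpr ⟨m, hmu m hm', rfl⟩) rfl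
  · intro t ht ht'
    obtain ⟨m, hm', rfl⟩ := List.mem_map.mp ht
    exact d1.2.2 (τ m) (List.mem_append_right _ (List.mem_map.mpr ⟨m, hmu m hm', rfl⟩)) (τ m) ht' rfl

/-- rotation of the first word. -/
theorem Dr.rot {K : ℕ} {f : Ω} {A A' B : List Ω} (h : A ~r A') (hd : Dr p K f (A', B)) (hr : ∃ r ∈ A, p r ∈ A)
    (hb : ∃ b ∈ B, p b ∈ B) : Dr p K f (A, B) := by
  obtain ⟨s', h1, h2, h3, h4, h5, h6, h7, h8⟩ := hd
  have hp : (A' ++ B).Perm (A ++ B) := h.perm.symm.append_right _
  have := (rts_rot (p := p) h hr hb).trans h1 hp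
  rw [Nat.zero_add] at this
  refine ⟨s', this, h2, h3, h4, h5, h6, ?_, h8.trans hp⟩
  rw [D2_congr (p := p) (s := (A, B)) (t := (A', B)) h.perm (List.Perm.refl _)]
  exact h7

/-- **the root theorem**. -/
theorem root_thm {T : TD} {K : ℕ} {S : List ℕ} {ex : List ℕ → List ℕ → Bool} {ts : List Tc}
    (h : chr T K T.at ex ts = true) (hw : goodr T S) {s : St Ω} {f : Ω} (hs : WF p s) (hl : s.2.getLast? = some f)
    (hf : p f ∈ s.1) (a : ℕ → Ω) (haf : a 5 = f) (hLD : LD p (S.map a)) (hfit : Fit T p a s)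
    (hmA : ∀ t ∈ s.1, (∀ m ∈ T.at, t ≠ tk p a m) → p t ∈ s.2) (hmB : ∀ t ∈ s.2, (∀ m ∈ T.at, t ≠ tk p a m) → p t ∈ s.1)
    (hr : ∃ r ∈ s.1, p r ∈ s.1) (hb : ∃ b ∈ s.2, p b ∈ s.2) {Q : Prop}
    (hex : ∀ W, s.1 ~r W → ∀ A B, ex A B = true → Gd p T.at (tk p a) (W, s.2) Q (A, B)) : Dr p K f s ∨ Q := by
  obtain ⟨g1, g2, g3, g4, g5, g6⟩ := hw
  have hp := hs.inv
  have hne := hs.ne
  set τ := tk p a with hτd
  have hτ : ∀ t, t < 64 → τ (t ^^^ 1) = p (τ t) := fun t ht => tk_xor hp a t ht
  have t10 : τ 10 = f := by simp [hτd, tk, haf]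
  have t11 : τ 11 = p f := by simp [hτd, tk, haf]
  have hmap : (T.at.map τ).Nodup := List.Nodup.map_on (fun m hm n hn e =>
    tk_inj hp hne a S hLD (g2 m hm).2.1 (g2 n hn).2.1 e) g1
  obtain ⟨L, R, hLR⟩ := List.append_of_mem hf
  set W := (R ++ L) ++ [p f] with hWd
  have hrot : s.1 ~r W := by
    rw [hLR, hWd]
    have e1 : L ++ p f :: R = (L ++ [p f]) ++ R := by simp
    rw [e1]
    simpa using List.isRotated_append (l := L ++ [p f]) (l' := R)
  have hn0 := hs.nd
  have hn1 := (List.nodup_append.mp hn0).1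
  have hn2 := (List.nodup_append.mp hn0).2.1
  have hnW : W.Nodup := hrot.nodup_iff.mp hn1
  have hWl : W.getLast? = some (τ 11) := by rw [hWd, t11]; simp
  have hmW : ∀ v, v ∈ s.1 ↔ v ∈ W := fun v => hrot.mem_iff
  have hdis : ∀ v, v ∈ s.1 → v ∉ s.2 := fun v hv hv' => fix_of_disj hn0 hv' hv
  have fA : ∀ v, v ∈ s.1 → formPerm W v = NA.sc s v := by
    intro v hv
    rw [sc_mem1 hn0 hv, List.formPerm_eq_of_isRotated hn1 hrot]
  have fB : ∀ v, v ∈ s.2 → formPerm s.2 v = NA.sc s v := fun v hv => (sc_mem2 hn0 hv).symm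
  -- chains in one word
  have chA : ∀ u : List ℕ, u.IsChain (Sq p a s) → (∀ m ∈ u, τ m ∈ s.1) → u.IsChain (fun x y => formPerm W (τ x) = τ y) := by
    intro u hu hm
    induction u with
    | nil => simp
    | cons x u ih =>
      cases u with
      | nil => simp
      | cons y u =>
        rw [List.isChain_cons_cons] at hu ⊢
        exact ⟨by rw [fA _ (hm x (by simp))]; exact hu.1, ih hu.2 (fun m hm' => hm m (List.mem_cons_of_mem _ hm'))⟩
  have chB : ∀ u : List ℕ, u.IsChain (Sq p a s) → (∀ m ∈ u, τ m ∈ s.2) → u.IsChain (fun x y => formPerm s.2 (τ x) = τ y) := by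
    intro u hu hm
    induction u with
    | nil => simp
    | cons x u ih =>
      cases u with
      | nil => simp
      | cons y u =>
        rw [List.isChain_cons_cons] at hu ⊢
        exact ⟨by rw [fB _ (hm x (by simp))]; exact hu.1, ih hu.2 (fun m hm' => hm m (List.mem_cons_of_mem _ hm'))⟩
  have fBm : τ 10 ∈ s.2 := by rw [t10]; exact List.mem_of_getLast? hl
  have mA : ∀ m ∈ T.P1 ++ T.us.flatten ++ T.S1, τ m ∈ s.1 := hfit.memA
  have mB : ∀ m ∈ T.P2 ++ T.vs.flatten ++ T.S2, τ m ∈ s.2 := hfit.memB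
  have inA : ∀ m ∈ T.P1 ++ T.us.flatten ++ T.S1, m ∈ T.at := fun m hm => by unfold TD.at; exact List.mem_append_left _ hm
  have inB : ∀ m ∈ T.P2 ++ T.vs.flatten ++ T.S2, m ∈ T.at := fun m hm => by unfold TD.at; exact List.mem_append_right _ hm
  have hmap1 : ((T.P1 ++ T.us.flatten ++ T.S1).map τ).Nodup := by
    refine hmap.sublist ?_
    apply List.Sublist.map
    unfold TD.at
    exact List.sublist_append_left _ _
  have hmap2 : ((T.P2 ++ T.vs.flatten ++ T.S2).map τ).Nodup := by
    refine hmap.sublist ?_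
    apply List.Sublist.map
    unfold TD.at
    exact List.sublist_append_right _ _
  obtain ⟨X, hX, hXu⟩ := decomp (W := W) (τ := τ) (h := 11) hnW hWl g5 hmap1 (fun m hm => (hmW _).mp (mA m hm))
    (chA _ hfit.hP1 (by
      intro m hm
      rcases List.mem_cons.mp hm with rfl | hm
      · rw [t11]; exact hf
      · exact mA m (by simp [hm])))
    (chA _ hfit.hS1 (fun m hm => mA m (by simp [hm])))
    (fun u hu => chA _ (hfit.hus u hu) (fun m hm => mA m (by
      have : m ∈ T.us.flatten := List.mem_flatten.mpr ⟨u, hu, hm⟩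
      simp only [List.mem_append]; tauto))) g3
  obtain ⟨Y, hY, hYu⟩ := decomp (W := s.2) (τ := τ) (h := 10) hn2 (by rw [t10]; exact hl) g6 hmap2 mB
    (chB _ hfit.hP2 (by
      intro m hm
      rcases List.mem_cons.mp hm with rfl | hm
      · exact fBm
      · exact mB m (by simp [hm])))
    (chB _ hfit.hS2 (fun m hm => mB m (by simp [hm])))
    (fun u hu => chB _ (hfit.hvs u hu) (fun m hm => mB m (by
      have : m ∈ T.vs.flatten := List.mem_flatten.mpr ⟨u, hu, hm⟩
      simp only [List.mem_append]; tauto))) g4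
  -- the splitter
  have hpw : ∀ L : List (List ℕ), (L.flatten.map τ).Nodup → (L.map (List.map τ)).Pairwise (fun u v => ∀ t ∈ v, t ∉ u) := by
    intro L hL
    rw [List.map_flatten, List.nodup_flatten] at hL
    refine List.Pairwise.imp ?_ hL.2
    intro u v h t ht1 ht2
    exact h ht2 ht1
  have hmu : (T.us.flatten.map τ).Nodup := by
    rw [List.map_append, List.map_append] at hmap1
    exact (List.nodup_append.mp (List.nodup_append.mp hmap1).1).2.1
  have hmv : (T.vs.flatten.map τ).Nodup := by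
    rw [List.map_append, List.map_append] at hmap2
    exact (List.nodup_append.mp (List.nodup_append.mp hmap2).1).2.1
  have lus : ∀ u ∈ T.us, ∀ m ∈ u, m < 64 := by
    intro u hu m hm
    have : m ∈ T.us.flatten := List.mem_flatten.mpr ⟨u, hu, hm⟩
    exact (g2 m (inA m (by simp only [List.mem_append]; tauto))).1
  have lvs : ∀ u ∈ T.vs, ∀ m ∈ u, m < 64 := by
    intro u hu m hm
    have : m ∈ T.vs.flatten := List.mem_flatten.mpr ⟨u, hu, hm⟩
    exact (g2 m (inB m (by simp only [List.mem_append]; tauto))).1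
  obtain ⟨us', h1, vs', h2, σ, h3, h4⟩ := splitter' τ T.us T.vs X Y lus lvs g3 g4 (hpw _ hmu) (hpw _ hmv) hXu hYu
  have eU : vl τ σ (T.U us') = W := by
    unfold TD.U
    rw [vl_append, vl_append, vl_units τ σ (u := T.P1) (fun m hm => (g2 m (inA m (by simp [hm]))).1),
      vl_units τ σ (u := T.S1) (fun m hm => (g2 m (inA m (by simp [hm]))).1), ← h3, hX]
  have eV : vl τ σ (T.V vs') = s.2 := by
    unfold TD.V
    rw [vl_append, vl_append, vl_units τ σ (u := T.P2) (fun m hm => (g2 m (inB m (by simp [hm]))).1),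
      vl_units τ σ (u := T.S2) (fun m hm => (g2 m (inB m (by simp [hm]))).1), ← h4]
    exact hY.symm
  obtain ⟨t, _, ht⟩ := all2_mem _ _ _ h (us', vs') (mem_prs h1 h2)
  simp only at ht
  have hwfW : WF p (W, s.2) := by
    have hpm : (W ++ s.2).Perm (s.1 ++ s.2) := hrot.perm.symm.append_right _
    refine ⟨hpm.nodup_iff.mpr hn0, ?_, hp, hne⟩
    intro t ht
    exact hpm.mem_iff.mpr (hs.cl t (hpm.mem_iff.mp ht))
  have hvd : Vd p τ σ (T.U us') (T.V vs') := ⟨hτ, by rw [eU, eV]; exact hwfW⟩
  -- membership of the explicit atoms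
  have atU : ∀ m, m < 64 → m ∈ T.U us' → m ∈ T.P1 ++ T.us.flatten ++ T.S1 := by
    intro m hm hmU
    unfold TD.U at hmU
    simp only [List.mem_append] at hmU ⊢
    rcases hmU with h5 | h5 | h5
    · exact Or.inl (Or.inl h5)
    · refine Or.inl (Or.inr ?_)
      have key : ∀ (o : ℕ) (L : List (List ℕ)), m ∈ wn o L → 64 ≤ o + 64 → m ∈ L.flatten := by
        intro o L
        induction L generalizing o with
        | nil => intro h6 _; simp [wn] at h6; omega
        | cons v L ih =>
          intro h6 _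
          rw [wn, List.mem_cons, List.mem_append] at h6
          rcases h6 with h6 | h6 | h6
          · omega
          · simp [h6]
          · have := ih (o + 1) h6 (by omega)
            rw [List.flatten_cons]
            exact List.mem_append_right _ this
      have h6 := key 0 us' h5 (by omega)
      exact ((List.mem_permutations'.mp h1).flatten.mem_iff).mp h6
    · exact Or.inr h5
  have atV : ∀ m, m < 64 → m ∈ T.V vs' → m ∈ T.P2 ++ T.vs.flatten ++ T.S2 := by
    intro m hm hmV
    unfold TD.V at hmV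
    simp only [List.mem_append] at hmV ⊢
    rcases hmV with h5 | h5 | h5
    · exact Or.inl (Or.inl h5)
    · refine Or.inl (Or.inr ?_)
      have key : ∀ (o : ℕ) (L : List (List ℕ)), m ∈ wn o L → 64 ≤ o + 64 → m ∈ L.flatten := by
        intro o L
        induction L generalizing o with
        | nil => intro h6 _; simp [wn] at h6; omega
        | cons v L ih =>
          intro h6 _
          rw [wn, List.mem_cons, List.mem_append] at h6
          rcases h6 with h6 | h6 | h6
          · omega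
          · simp [h6]
          · have := ih (o + 1) h6 (by omega)
            rw [List.flatten_cons]
            exact List.mem_append_right _ this
      have h6 := key _ vs' h5 (by omega)
      exact ((List.mem_permutations'.mp h2).flatten.mem_iff).mp h6
    · exact Or.inr h5
  have Uat : ∀ m ∈ T.P1 ++ T.us.flatten ++ T.S1, m ∈ T.U us' := by
    intro m hm
    unfold TD.U
    simp only [List.mem_append] at hm ⊢
    rcases hm with (h5 | h5) | h5
    · exact Or.inl h5
    · obtain ⟨u, hu, hmu'⟩ := List.mem_flatten.mp h5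
      exact Or.inr (Or.inl (mem_wn hmu' 0 ((List.mem_permutations'.mp h1).mem_iff.mpr hu)))
    · exact Or.inr (Or.inr h5)
  have Vat : ∀ m ∈ T.P2 ++ T.vs.flatten ++ T.S2, m ∈ T.V vs' := by
    intro m hm
    unfold TD.V
    simp only [List.mem_append] at hm ⊢
    rcases hm with (h5 | h5) | h5
    · exact Or.inl h5
    · obtain ⟨u, hu, hmu'⟩ := List.mem_flatten.mp h5
      exact Or.inr (Or.inl (mem_wn hmu' _ ((List.mem_permutations'.mp h2).mem_iff.mpr hu)))
    · exact Or.inr (Or.inr h5)
  have nU : (vl τ σ (T.U us' ++ T.V vs')).Nodup := by rw [vl_append, eU, eV]; exact hwfW.nd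
  have atUV : ∀ m ∈ T.at, m ∈ T.U us' ++ T.V vs' := by
    intro m hm
    unfold TD.at at hm
    rcases List.mem_append.mp hm with h5 | h5
    · exact List.mem_append_left _ (Uat m h5)
    · exact List.mem_append_right _ (Vat m h5)
  -- a token of a block is not explicit
  have nex : ∀ c ∈ T.U us' ++ T.V vs', 64 ≤ c → ∀ t ∈ σ c, ∀ m ∈ T.at, t ≠ τ m := by
    intro c hc hc64 t ht m hm e
    have hm64 := (g2 m hm).1
    have := at1_pw τ σ nU hc (atUV m hm) (by rintro rfl; omega)
    rw [at_blk τ σ hc64, at_tok τ σ hm64] at this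
    exact this ht (by rw [e]; exact List.mem_singleton.mpr rfl)
  have nexp : ∀ t, (∀ m ∈ T.at, t ≠ τ m) → ∀ m ∈ T.at, p t ≠ τ m := by
    intro t ht m hm e
    apply ht (m ^^^ 1) (g2 m hm).2.2
    rw [hτ m (g2 m hm).1, ← e, hp]
  have hmx : Mx p σ (T.U us') (T.V vs') := by
    constructor
    · intro c hc hc64 t ht
      have q1 := nex c (List.mem_append_left _ hc) hc64 t ht
      have q2 : t ∈ s.1 := by
        rw [hmW, ← eU]
        exact mem_vl'.mpr ⟨c, hc, by rw [at_blk τ σ hc64]; exact ht⟩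
      have q3 := hmA t q2 q1
      rw [← eV] at q3
      obtain ⟨d, hd, hdt⟩ := mem_vl'.mp q3
      have hd64 : 64 ≤ d := by
        by_contra h5
        have h5' : d < 64 := by omega
        rw [at_tok τ σ h5', List.mem_singleton] at hdt
        exact nexp t q1 d (inB d (atV d h5' hd)) hdt
      exact ⟨d, hd, hd64, by rwa [at_blk τ σ hd64] at hdt⟩
    · intro c hc hc64 t ht
      have q1 := nex c (List.mem_append_right _ hc) hc64 t ht
      have q2 : t ∈ s.2 := by
        rw [← eV]
        exact mem_vl'.mpr ⟨c, hc, by rw [at_blk τ σ hc64]; exact ht⟩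
      have q3 := (hmW _).mp (hmB t q2 q1)
      rw [← eU] at q3
      obtain ⟨d, hd, hdt⟩ := mem_vl'.mp q3
      have hd64 : 64 ≤ d := by
        by_contra h5
        have h5' : d < 64 := by omega
        rw [at_tok τ σ h5', List.mem_singleton] at hdt
        exact nexp t q1 d (inA d (atU d h5' hd)) hdt
      exact ⟨d, hd, hd64, by rwa [at_blk τ σ hd64] at hdt⟩
  have h10 : 10 ∈ T.at := inB 10 (by
    have := List.mem_of_getLast? g6
    simp [this])
  have hgd := chc_sound (p := p) (τ0 := τ) (s := (W, s.2)) (Q := Q) h10 (hex W hrot) t _ ht _ (List.mem_singleton.mpr rfl)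
  rcases hgd τ σ hvd hmx (fun _ _ => rfl) eU eV with h5 | h5
  · left
    rw [t10] at h5
    exact Dr.rot (A := s.1) (B := s.2) hrot h5 hr hb
  · exact Or.inr h5

end Pool.Agent.helper55.BG
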