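import Pool.Agent.helper55.BG.Nest
import Pool.Agent.helper55.NA.Br

/-!
# MP_c8d30a, exponent 12: tables with leaves only, lifting of drops
-/

set_option autoImplicit false

namespace Pool.Agent.helper55.BG

open NTH Pool.Agent.helper32.RH List

variable {Ω : Type} [DecidableEq Ω] {p : Ω → Ω}

/-- the conditions on a table without the partners: `S` the letters; the words end with `11` and `10`. -/
def goodl (T : TD) (S : List ℕ) : Prop :=
  T.at.Nodup ∧ (∀ m ∈ T.at, m < 64 ∧ m / 2 ∈ S) ∧ (∀ u ∈ T.us, u ≠ []) ∧ (∀ u ∈ T.vs, u ≠ []) ∧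
    T.S1.getLast? = some 11 ∧ T.S2.getLast? = some 10

instance (T : TD) (S : List ℕ) : Decidable (goodl T S) := by unfold goodl; infer_instance

/-- **from a state to symbolic words**. -/
theorem root_val {T : TD} {S : List ℕ} (hw : goodl T S) {s : St Ω} {f : Ω} (hs : WF p s) (hl : s.2.getLast? = some f)
    (hf : p f ∈ s.1) (a : ℕ → Ω) (haf : a 5 = f) (hLD : LD p (S.map a)) (hfit : Fit T p a s) :
    ∃ (W : List Ω) (us' vs' : List (List ℕ)) (σ : ℕ → List Ω), s.1 ~r W ∧ us' ∈ T.us.permutations' ∧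
      vs' ∈ T.vs.permutations' ∧ Pool.Agent.helper32.RH.vl (tk p a) σ (T.U us') = W ∧
      Pool.Agent.helper32.RH.vl (tk p a) σ (T.V vs') = s.2 ∧ Vd p (tk p a) σ (T.U us') (T.V vs') := by
  obtain ⟨g1, g2, g3, g4, g5, g6⟩ := hw
  have hp := hs.inv
  have hne := hs.ne
  set τ := tk p a with hτd
  have hτ : ∀ t, t < 64 → τ (t ^^^ 1) = p (τ t) := fun t ht => tk_xor hp a t ht
  have t10 : τ 10 = f := by simp [hτd, tk, haf]
  have t11 : τ 11 = p f := by simp [hτd, tk, haf]
  have hmap : (T.at.map τ).Nodup := List.Nodup.map_on (fun m hm n hn e =>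
    tk_inj hp hne a S hLD (g2 m hm).2 (g2 n hn).2 e) g1
  obtain ⟨L, R, hLR⟩ := List.append_of_mem hf
  set W := (R ++ L) ++ [p f] with hWd
  have hrot : s.1 ~r W := by
    rw [hLR, hWd]
    have e1 : L ++ p f :: R = (L ++ [p f]) ++ R := by simp
    rw [e1]
    simpa using List.isRotated_append (l := L ++ [p f]) (l' := R)
  have hn0 := hs.nd
  have hn1 := (List.nodup_append.mp hn0).1
  have hn2 := (List.nodup_append.mp hn0).2.1
  have hnW : W.Nodup := hrot.nodup_iff.mp hn1
  have hWl : W.getLast? = some (τ 11) := by rw [hWd, t11]; simp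
  have hmW : ∀ v, v ∈ s.1 ↔ v ∈ W := fun v => hrot.mem_iff
  have hdis : ∀ v, v ∈ s.1 → v ∉ s.2 := fun v hv hv' => fix_of_disj hn0 hv' hv
  have fA : ∀ v, v ∈ s.1 → formPerm W v = NA.sc s v := by
    intro v hv
    rw [sc_mem1 hn0 hv, List.formPerm_eq_of_isRotated hn1 hrot]
  have fB : ∀ v, v ∈ s.2 → formPerm s.2 v = NA.sc s v := fun v hv => (sc_mem2 hn0 hv).symm
  -- chains in one word
  have chA : ∀ u : List ℕ, u.IsChain (Sq p a s) → (∀ m ∈ u, τ m ∈ s.1) → u.IsChain (fun x y => formPerm W (τ x) = τ y) := by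
    intro u hu hm
    induction u with
    | nil => simp
    | cons x u ih =>
      cases u with
      | nil => simp
      | cons y u =>
        rw [List.isChain_cons_cons] at hu ⊢
        exact ⟨by rw [fA _ (hm x (by simp))]; exact hu.1, ih hu.2 (fun m hm' => hm m (List.mem_cons_of_mem _ hm'))⟩
  have chB : ∀ u : List ℕ, u.IsChain (Sq p a s) → (∀ m ∈ u, τ m ∈ s.2) → u.IsChain (fun x y => formPerm s.2 (τ x) = τ y) := by
    intro u hu hm
    induction u with
    | nil => simp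
    | cons x u ih =>
      cases u with
      | nil => simp
      | cons y u =>
        rw [List.isChain_cons_cons] at hu ⊢
        exact ⟨by rw [fB _ (hm x (by simp))]; exact hu.1, ih hu.2 (fun m hm' => hm m (List.mem_cons_of_mem _ hm'))⟩
  have fBm : τ 10 ∈ s.2 := by rw [t10]; exact List.mem_of_getLast? hl
  have mA : ∀ m ∈ T.P1 ++ T.us.flatten ++ T.S1, τ m ∈ s.1 := hfit.memA
  have mB : ∀ m ∈ T.P2 ++ T.vs.flatten ++ T.S2, τ m ∈ s.2 := hfit.memB
  have inA : ∀ m ∈ T.P1 ++ T.us.flatten ++ T.S1, m ∈ T.at := fun m hm => by unfold TD.at; exact List.mem_append_left _ hm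
  have inB : ∀ m ∈ T.P2 ++ T.vs.flatten ++ T.S2, m ∈ T.at := fun m hm => by unfold TD.at; exact List.mem_append_right _ hm
  have hmap1 : ((T.P1 ++ T.us.flatten ++ T.S1).map τ).Nodup := by
    refine hmap.sublist ?_
    apply List.Sublist.map
    unfold TD.at
    exact List.sublist_append_left _ _
  have hmap2 : ((T.P2 ++ T.vs.flatten ++ T.S2).map τ).Nodup := by
    refine hmap.sublist ?_
    apply List.Sublist.map
    unfold TD.at
    exact List.sublist_append_right _ _
  obtain ⟨X, hX, hXu⟩ := decomp (W := W) (τ := τ) (h := 11) hnW hWl g5 hmap1 (fun m hm => (hmW _).mp (mA m hm))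
    (chA _ hfit.hP1 (by
      intro m hm
      rcases List.mem_cons.mp hm with rfl | hm
      · rw [t11]; exact hf
      · exact mA m (by simp [hm])))
    (chA _ hfit.hS1 (fun m hm => mA m (by simp [hm])))
    (fun u hu => chA _ (hfit.hus u hu) (fun m hm => mA m (by
      have : m ∈ T.us.flatten := List.mem_flatten.mpr ⟨u, hu, hm⟩
      simp only [List.mem_append]; tauto))) g3
  obtain ⟨Y, hY, hYu⟩ := decomp (W := s.2) (τ := τ) (h := 10) hn2 (by rw [t10]; exact hl) g6 hmap2 mB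
    (chB _ hfit.hP2 (by
      intro m hm
      rcases List.mem_cons.mp hm with rfl | hm
      · exact fBm
      · exact mB m (by simp [hm])))
    (chB _ hfit.hS2 (fun m hm => mB m (by simp [hm])))
    (fun u hu => chB _ (hfit.hvs u hu) (fun m hm => mB m (by
      have : m ∈ T.vs.flatten := List.mem_flatten.mpr ⟨u, hu, hm⟩
      simp only [List.mem_append]; tauto))) g4
  -- the splitter
  have hpw : ∀ L : List (List ℕ), (L.flatten.map τ).Nodup → (L.map (List.map τ)).Pairwise (fun u v => ∀ t ∈ v, t ∉ u) := by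
    intro L hL
    rw [List.map_flatten, List.nodup_flatten] at hL
    refine List.Pairwise.imp ?_ hL.2
    intro u v h t ht1 ht2
    exact h ht2 ht1
  have hmu : (T.us.flatten.map τ).Nodup := by
    rw [List.map_append, List.map_append] at hmap1
    exact (List.nodup_append.mp (List.nodup_append.mp hmap1).1).2.1
  have hmv : (T.vs.flatten.map τ).Nodup := by
    rw [List.map_append, List.map_append] at hmap2
    exact (List.nodup_append.mp (List.nodup_append.mp hmap2).1).2.1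
  have lus : ∀ u ∈ T.us, ∀ m ∈ u, m < 64 := by
    intro u hu m hm
    have : m ∈ T.us.flatten := List.mem_flatten.mpr ⟨u, hu, hm⟩
    exact (g2 m (inA m (by simp only [List.mem_append]; tauto))).1
  have lvs : ∀ u ∈ T.vs, ∀ m ∈ u, m < 64 := by
    intro u hu m hm
    have : m ∈ T.vs.flatten := List.mem_flatten.mpr ⟨u, hu, hm⟩
    exact (g2 m (inB m (by simp only [List.mem_append]; tauto))).1
  obtain ⟨us', h1, vs', h2, σ, h3, h4⟩ := splitter' τ T.us T.vs X Y lus lvs g3 g4 (hpw _ hmu) (hpw _ hmv) hXu hYu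
  have eU : Pool.Agent.helper32.RH.vl τ σ (T.U us') = W := by
    unfold TD.U
    rw [vl_append, vl_append, vl_units τ σ (u := T.P1) (fun m hm => (g2 m (inA m (by simp [hm]))).1),
      vl_units τ σ (u := T.S1) (fun m hm => (g2 m (inA m (by simp [hm]))).1), ← h3, hX]
  have eV : Pool.Agent.helper32.RH.vl τ σ (T.V vs') = s.2 := by
    unfold TD.V
    rw [vl_append, vl_append, vl_units τ σ (u := T.P2) (fun m hm => (g2 m (inB m (by simp [hm]))).1),
      vl_units τ σ (u := T.S2) (fun m hm => (g2 m (inB m (by simp [hm]))).1), ← h4]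
    exact hY.symm
  have hwfW : WF p (W, s.2) := by
    have hpm : (W ++ s.2).Perm (s.1 ++ s.2) := hrot.perm.symm.append_right _
    refine ⟨hpm.nodup_iff.mpr hn0, ?_, hp, hne⟩
    intro t ht
    exact hpm.mem_iff.mpr (hs.cl t (hpm.mem_iff.mp ht))
  have hvd : Vd p τ σ (T.U us') (T.V vs') := ⟨hτ, by rw [eU, eV]; exact hwfW⟩
  exact ⟨W, us', vs', σ, hrot, h1, h2, eU, eV, hvd⟩

/-- the check of a table with leaves only. -/
def chl (T : TD) (K : ℕ) (rs : List (ℕ × ℕ × ℕ × ℕ)) : Bool :=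
  all2 (fun q r => lf K (T.U q.1) (T.V q.2) (dcw 60 r.1) (dcw 60 r.2.1) (dec 120 r.2.2.1) (dec 120 r.2.2.2)) (prs T.us T.vs) rs

/-- **a table with leaves only**: all other letters are arbitrary. -/
theorem leaf_thm {T : TD} {K : ℕ} {S : List ℕ} {rs : List (ℕ × ℕ × ℕ × ℕ)} (h : chl T K rs = true) (hw : goodl T S)
    {s : St Ω} {f : Ω} (hs : WF p s) (hl : s.2.getLast? = some f)
    (hf : p f ∈ s.1) (a : ℕ → Ω) (haf : a 5 = f) (hLD : LD p (S.map a)) (hfit : Fit T p a s)
    (hr : ∃ r ∈ s.1, p r ∈ s.1) (hb : ∃ b ∈ s.2, p b ∈ s.2) : Dr p K f s := by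
  obtain ⟨W, us', vs', σ, h1, h2, h3, h4, h5, h6⟩ := root_val hw hs hl hf a haf hLD hfit
  obtain ⟨r, _, hr'⟩ := all2_mem _ _ _ h (us', vs') (mem_prs h2 h3)
  simp only at hr'
  have := lf_sound hr' h6
  rw [h4, h5] at this
  have t10 : tk p a 10 = f := by simp [tk, haf]
  rw [t10] at this
  exact Dr.rot (A := s.1) (B := s.2) h1 this hr hb

/-- **lifting**: the deleted letters are coloured. -/
theorem Dr.fil {q : Ω → Bool} {K : ℕ} {f : Ω} {s : St Ω} (hw : WF p s) (hq : ∀ t, q (p t) = q t)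
    (hm : ∀ t ∈ s.1 ++ s.2, q t = false → Clr p s t) (hl : s.2.getLast? = some f) (hf : p f ∈ s.1) (hqf : q f = true)
    (h : Dr p K f (NA.fil q s)) : Dr p K f s := by
  obtain ⟨u, h1, h2, h3, h4, ⟨o, ho1, ho2⟩, ⟨o', ho3, ho4⟩, h5, h6⟩ := h
  obtain ⟨s', r1, r2, r3, r4⟩ := lift_fil hw ⟨p f, hf, by rw [hq]; exact hqf⟩ h1 h6
  have hn0 := hw.nd
  have dis : ∀ v, v ∈ s.1 → v ∉ s.2 := fun v hv hv' => fix_of_disj hn0 hv' hv
  have hn1 := (List.nodup_append.mp hn0).1
  have hw' : WF p s' := NA.wf_perm hw r3.symm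
  have hn1' := (List.nodup_append.mp hw'.nd).1
  have e1 : ∀ v, v ∈ u.1 ↔ v ∈ s'.1 ∧ q v = true := by
    intro v; rw [← r2]; simp [NA.fil]
  have e2 : ∀ v, v ∈ u.2 ↔ v ∈ s'.2 ∧ q v = true := by
    intro v; rw [← r2]; simp [NA.fil]
  refine ⟨s', r1, hw', r4 f hl h3, ((e1 _).mp h4).1, ⟨o, ((e1 _).mp ho1).1, ((e1 _).mp ho2).1⟩,
    ⟨o', ((e2 _).mp ho3).1, ((e2 _).mp ho4).1⟩, ?_, r3⟩
  have hwf : WF p (NA.fil q s) := by
    refine ⟨?_, ?_, hw.inv, hw.ne⟩
    · have : ((NA.fil q s).1 ++ (NA.fil q s).2) = (s.1 ++ s.2).filter q := by simp [NA.fil]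
      rw [this]; exact hn0.filter _
    · intro t ht
      have e3 : ((NA.fil q s).1 ++ (NA.fil q s).2) = (s.1 ++ s.2).filter q := by simp [NA.fil]
      rw [e3, List.mem_filter] at ht ⊢
      exact ⟨hw.cl t ht.1, by rw [hq]; exact ht.2⟩
  have m1 := NA.D2_mx hwf
  have m2 := NA.D2_mx h2
  have m3 := NA.D2_mx hw
  have m4 := NA.D2_mx hw'
  have l1 := h6.length_eq
  have l2 := r3.length_eq
  have g1 : NA.mx p s ≤ NA.mx p (NA.fil q s) := by
    apply mx_le hn1 (by simpa [NA.fil] using hn1.filter _)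
    intro v v1 v2
    have hqv : q v = true := by
      by_contra hc
      rw [Bool.not_eq_true] at hc
      rcases hm v (List.mem_append_left _ v1) hc with h7 | h7
      · exact dis _ h7.2 v2
      · exact dis _ v1 h7.1
    simp only [NA.fil, List.mem_filter]
    exact ⟨⟨v1, hqv⟩, v2, by rw [hq]; exact hqv⟩
  have g2 : NA.mx p u ≤ NA.mx p s' := by
    apply mx_le (List.nodup_append.mp h2.nd).1 hn1'
    intro v v1 v2
    exact ⟨((e1 v).mp v1).1, ((e2 _).mp v2).1⟩
  omega

end Pool.Agent.helper55.BG
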