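import Pool.Agent.helper55.BG.Root0

/-!
# MP_c8d30a, exponent 12: tables checked in pieces (less memory for the kernel)
-/

set_option autoImplicit false

namespace Pool.Agent.helper55.BG

open NTH Pool.Agent.helper32.RH List

theorem all2_append {α β : Type} (f : α → β → Bool) : ∀ (a : List α) (b : List β) (a' : List α) (b' : List β),
    all2 f a b = true → all2 f a' b' = true → all2 f (a ++ a') (b ++ b') = true
  | [], [], _, _, _, h => h
  | x :: a, y :: b, a', b', h1, h2 => by
    have h3 : (match f x y with | true => all2 f a b | false => false) = true := h1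
    show (match f x y with | true => all2 f (a ++ a') (b ++ b') | false => false) = true
    cases hf : f x y with
    | true =>
      rw [hf] at h3
      exact all2_append f a b a' b' h3 h2
    | false =>
      rw [hf] at h3
      exact absurd h3 (by simp)
  | [], _ :: _, _, _, h, _ => absurd h (by simp [all2])
  | _ :: _, [], _, _, h, _ => absurd h (by simp [all2])

theorem all2_chunks {α β : Type} (f : α → β → Bool) (m : ℕ) : ∀ (k : ℕ) (xs : List α) (ys : List β),
    xs.length ≤ m * k → ys.length ≤ m * k →
    (∀ i < k, all2 f ((xs.drop (m * i)).take m) ((ys.drop (m * i)).take m) = true) → all2 f xs ys = true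
  | 0, xs, ys, h1, h2, _ => by
    rw [Nat.mul_zero] at h1 h2
    rw [List.eq_nil_of_length_eq_zero (Nat.le_zero.1 h1), List.eq_nil_of_length_eq_zero (Nat.le_zero.1 h2)]
    rfl
  | k + 1, xs, ys, h1, h2, h => by
    have h0 := h 0 (Nat.succ_pos k)
    rw [Nat.mul_zero, List.drop_zero, List.drop_zero] at h0
    have h3 : all2 f (xs.drop m) (ys.drop m) = true := by
      refine all2_chunks f m k (xs.drop m) (ys.drop m) ?_ ?_ ?_
      · rw [List.length_drop, Nat.mul_succ] at *
        omega
      · rw [List.length_drop, Nat.mul_succ] at *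
        omega
      · intro i hi
        have h4 := h (i + 1) (by omega)
        rw [Nat.mul_succ, Nat.add_comm] at h4
        rw [List.drop_drop, List.drop_drop]
        exact h4
    have h5 := all2_append f (xs.take m) (ys.take m) (xs.drop m) (ys.drop m) h0 h3
    rwa [List.take_append_drop, List.take_append_drop] at h5

/-- one piece of the check of a table of leaves. -/
def chlP (T : TD) (K : ℕ) (rs : List (ℕ × ℕ × ℕ × ℕ)) (m i : ℕ) : Bool :=
  all2 (fun q r => lf K (T.U q.1) (T.V q.2) (dcw 60 r.1) (dcw 60 r.2.1) (dec 120 r.2.2.1) (dec 120 r.2.2.2))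
    (((prs T.us T.vs).drop (m * i)).take m) ((rs.drop (m * i)).take m)

theorem chl_of {T : TD} {K : ℕ} {rs : List (ℕ × ℕ × ℕ × ℕ)} (m k : ℕ)
    (hl : (Nat.ble (prs T.us T.vs).length (m * k) && Nat.ble rs.length (m * k)) = true)
    (h : ∀ i < k, chlP T K rs m i = true) : chl T K rs = true := by
  rw [Bool.and_eq_true] at hl
  exact all2_chunks _ m k _ _ (Nat.le_of_ble_eq_true hl.1) (Nat.le_of_ble_eq_true hl.2) h

/-- one piece of the check of a table with trees. -/
def chrP (T : TD) (K : ℕ) (S0 : List ℕ) (ex : List ℕ → List ℕ → Bool) (ts : List Tc) (m i : ℕ) : Bool :=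
  all2 (fun q t => chc K S0 ex t [(T.U q.1, T.V q.2)]) (((prs T.us T.vs).drop (m * i)).take m) ((ts.drop (m * i)).take m)

theorem chr_of {T : TD} {K : ℕ} {S0 : List ℕ} {ex : List ℕ → List ℕ → Bool} {ts : List Tc} (m k : ℕ)
    (hl : (Nat.ble (prs T.us T.vs).length (m * k) && Nat.ble ts.length (m * k)) = true)
    (h : ∀ i < k, chrP T K S0 ex ts m i = true) : chr T K S0 ex ts = true := by
  rw [Bool.and_eq_true] at hl
  exact all2_chunks _ m k _ _ (Nat.le_of_ble_eq_true hl.1) (Nat.le_of_ble_eq_true hl.2) h

/-! ## trees in pieces -/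

theorem chc_nil (K : ℕ) (S0 : List ℕ) (ex : List ℕ → List ℕ → Bool) : chc K S0 ex .nil [] = true := rfl

theorem chc_br {K : ℕ} {S0 : List ℕ} {ex : List ℕ → List ℕ → Bool} {t r : Tc} {s : List ℕ × List ℕ}
    {ss : List (List ℕ × List ℕ)} (h1 : chc K S0 ex t [s] = true) (h2 : chc K S0 ex r ss = true) :
    chc K S0 ex (.br t r) (s :: ss) = true := by
  show (match chc K S0 ex t [s] with | true => chc K S0 ex r ss | false => false) = true
  rw [h1]
  exact h2

theorem chc_nd {K : ℕ} {S0 : List ℕ} {ex : List ℕ → List ℕ → Bool} {w : Bool} {b n o : ℕ} {t : Tc}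
    {s : List ℕ × List ℕ} {l : List (List ℕ × List ℕ)} (h1 : ndc S0 b n o s.1 s.2 = true)
    (h2 : exd w b n o s.1 s.2 = some l) (h3 : chc K S0 ex t l = true) : chc K S0 ex (.nd w b n o t) [s] = true := by
  show (match ndc S0 b n o s.1 s.2 with
    | false => false
    | true => match exd w b n o s.1 s.2 with
      | some l => chc K S0 ex t l
      | none => false) = true
  rw [h1, h2]
  exact h3

end Pool.Agent.helper55.BG
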