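import Pool.Agent.helper55.BG.LeafS

/-!
# MP_c8d30a, exponent 12: checked decision trees

A node looks at the first (or last) token of a block: the block is empty, or the token is a token of a
new mixed letter whose partner is in one of the blocks of the other word.
-/

set_option autoImplicit false

namespace Pool.Agent.helper55.BG

open NTH Pool.Agent.helper32.RH

variable {Ω : Type} {p : Ω → Ω}

/-- all ways to put the token `x` into a block; the rest of the block is the new block `o`. -/
def spt (x o : ℕ) : List ℕ → List (List ℕ)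
  | [] => []
  | a :: w => match Nat.blt a 64 with
    | true => (spt x o w).map (fun v => a :: v)
    | false => (a :: x :: o :: w) :: (spt x o w).map (fun v => a :: v)

theorem spt_mem (x o : ℕ) : ∀ (w1 : List ℕ) (c : ℕ) (w2 : List ℕ), 64 ≤ c → w1 ++ c :: x :: o :: w2 ∈ spt x o (w1 ++ c :: w2)
  | [], c, w2, hc => by
    have : Nat.blt c 64 = false := (blt_false c).mpr hc
    simp only [List.nil_append]
    unfold spt
    rw [this]
    exact List.mem_cons_self
  | a :: w1, c, w2, hc => by
    have ih := spt_mem x o w1 c w2 hc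
    simp only [List.cons_append]
    unfold spt
    cases h : Nat.blt a 64 with
    | true => exact List.mem_map.mpr ⟨_, ih, rfl⟩
    | false => exact List.mem_cons_of_mem _ (List.mem_map.mpr ⟨_, ih, rfl⟩)

/-- the two atoms which replace a block. -/
def two (w : Bool) (x b : ℕ) : List ℕ := match w with
  | true => [x, b]
  | false => [b, x]

/-- the children of a node. -/
def exd (w : Bool) (b n o : ℕ) (A B : List ℕ) : Option (List (List ℕ × List ℕ)) :=
  match cut b A with
  | some r => some ((r.1 ++ r.2, B) :: (spt (2 * n + 1) o B).map (fun B' => (r.1 ++ (two w (2 * n) b ++ r.2), B')))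
  | none => match cut b B with
    | some r => some ((A, r.1 ++ r.2) :: (spt (2 * n + 1) o A).map (fun A' => (A', r.1 ++ (two w (2 * n) b ++ r.2))))
    | none => none

/-- the conditions of a node. -/
def ndc (S0 : List ℕ) (b n o : ℕ) (A B : List ℕ) : Bool :=
  ndp (A ++ B) && (clob (A ++ B) (A ++ B) && (Nat.blt (2 * n + 1) 64 && (Nat.ble 64 b && (Nat.ble 64 o &&
  (!(mb (2 * n) (S0 ++ (A ++ B))) && (!(mb (2 * n + 1) (S0 ++ (A ++ B))) && (!(mb o (A ++ B)))))))))

/-- the tokens in the blocks are mixed. -/
def Mx (p : Ω → Ω) (σ : ℕ → List Ω) (A B : List ℕ) : Prop :=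
  (∀ a ∈ A, 64 ≤ a → ∀ t ∈ σ a, ∃ c ∈ B, 64 ≤ c ∧ p t ∈ σ c) ∧ (∀ a ∈ B, 64 ≤ a → ∀ t ∈ σ a, ∃ c ∈ A, 64 ≤ c ∧ p t ∈ σ c)

theorem Mx.swap {σ : ℕ → List Ω} {A B : List ℕ} (h : Mx p σ A B) : Mx p σ B A := ⟨h.2, h.1⟩

theorem Vd.swap {τ : ℕ → Ω} {σ : ℕ → List Ω} {A B : List ℕ} (h : Vd p τ σ A B) : Vd p τ σ B A :=
  ⟨h.part, h.wf.mir⟩

theorem at_tok (τ : ℕ → Ω) (σ : ℕ → List Ω) {a : ℕ} (h : a < 64) : at1 τ σ a = [τ a] := by simp [at1, h]

theorem at_blk (τ : ℕ → Ω) (σ : ℕ → List Ω) {a : ℕ} (h : 64 ≤ a) : at1 τ σ a = σ a := by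
  simp [at1, show ¬ a < 64 by omega]

/-- **one step** of the expansion, a block of the first word. -/
theorem expand {S0 : List ℕ} {w : Bool} {b n o : ℕ} {A1 A2 B : List ℕ} {τ : ℕ → Ω} {σ : ℕ → List Ω}
    (hc : ndc S0 b n o (A1 ++ b :: A2) B = true) (hv : Vd p τ σ (A1 ++ b :: A2) B) (hm : Mx p σ (A1 ++ b :: A2) B) :
    (Vd p τ σ (A1 ++ A2) B ∧ Mx p σ (A1 ++ A2) B ∧ vl τ σ (A1 ++ A2) = vl τ σ (A1 ++ b :: A2)) ∨
    ∃ B' ∈ spt (2 * n + 1) o B, ∃ (τ' : ℕ → Ω) (σ' : ℕ → List Ω), Vd p τ' σ' (A1 ++ (two w (2 * n) b ++ A2)) B' ∧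
      Mx p σ' (A1 ++ (two w (2 * n) b ++ A2)) B' ∧ vl τ' σ' (A1 ++ (two w (2 * n) b ++ A2)) = vl τ σ (A1 ++ b :: A2) ∧
      vl τ' σ' B' = vl τ σ B ∧ ∀ m ∈ S0, τ' m = τ m := by
  unfold ndc at hc
  obtain ⟨c1, hc⟩ := bool_and hc
  obtain ⟨c2, hc⟩ := bool_and hc
  obtain ⟨c3, hc⟩ := bool_and hc
  obtain ⟨c4, hc⟩ := bool_and hc
  obtain ⟨c5, hc⟩ := bool_and hc
  obtain ⟨c6, hc⟩ := bool_and hc
  obtain ⟨c7, c8⟩ := bool_and hc
  have hnd := ndp_spec c1
  have h2n : 2 * n + 1 < 64 := (blt_iff _).mp c3
  have hb : 64 ≤ b := Nat.le_of_ble_eq_true c4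
  have ho : 64 ≤ o := Nat.le_of_ble_eq_true c5
  have f1 : 2 * n ∉ S0 ++ ((A1 ++ b :: A2) ++ B) := (mb_false _ _).mp (by simpa using c6)
  have f2 : 2 * n + 1 ∉ S0 ++ ((A1 ++ b :: A2) ++ B) := (mb_false _ _).mp (by simpa using c7)
  have f3 : o ∉ (A1 ++ b :: A2) ++ B := (mb_false _ _).mp (by simpa using c8)
  have hp := hv.wf.inv
  have hne := hv.wf.ne
  have hvn := hv.wf.nd
  simp only at hvn
  have hbA : b ∈ A1 ++ b :: A2 := by simp
  have ev : vl τ σ (A1 ++ b :: A2) = vl τ σ A1 ++ (σ b ++ vl τ σ A2) := by
    rw [vl_append, vl_cons, at_blk τ σ hb]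
  rcases hσ : σ b with _ | ⟨t0, l0⟩
  · -- the block is empty
    left
    have e1 : vl τ σ (A1 ++ A2) = vl τ σ (A1 ++ b :: A2) := by rw [ev, hσ, vl_append]; simp
    refine ⟨⟨hv.part, by rw [e1]; exact hv.wf⟩, ⟨?_, ?_⟩, e1⟩
    · intro a ha
      exact hm.1 a (by
        rcases List.mem_append.mp ha with h | h
        · exact List.mem_append_left _ h
        · exact List.mem_append_right _ (List.mem_cons_of_mem _ h))
    · intro a ha ha64 t ht
      obtain ⟨c, hc, hc64, hct⟩ := hm.2 a ha ha64 t ht
      refine ⟨c, ?_, hc64, hct⟩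
      rcases List.mem_append.mp hc with h | h
      · exact List.mem_append_left _ h
      · rcases List.mem_cons.mp h with rfl | h
        · rw [hσ] at hct; simp at hct
        · exact List.mem_append_right _ h
  · right
    -- the token and the rest
    obtain ⟨t, l, hl, htb, hlb⟩ : ∃ (t : Ω) (l : List Ω), σ b = (match w with | true => t :: l | false => l ++ [t]) ∧ t ∈ σ b ∧
        (∀ u ∈ l, u ∈ σ b) := by
      cases w with
      | true => exact ⟨t0, l0, hσ, by rw [hσ]; simp, fun u hu => by rw [hσ]; exact List.mem_cons_of_mem _ hu⟩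
      | false =>
        obtain ⟨l, t, h'⟩ := List.eq_nil_or_concat (σ b) |>.resolve_left (by rw [hσ]; simp)
        have h : σ b = l ++ [t] := by rw [h', List.concat_eq_append]
        exact ⟨t, l, h, by rw [h]; simp, fun u hu => by rw [h]; simp [hu]⟩
    obtain ⟨c, hcB, hc64, hct⟩ := hm.1 b hbA hb t htb
    obtain ⟨B1, B2, rfl⟩ := List.append_of_mem hcB
    obtain ⟨c1', c2', hcc⟩ := List.append_of_mem hct
    set σ' : ℕ → List Ω := fun j => if j = b then l else if j = c then c1' else if j = o then c2' else σ j with hσ'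
    set τ' : ℕ → Ω := fun j => if j = 2 * n then t else if j = 2 * n + 1 then p t else τ j with hτ'
    have hbc : b ≠ c := by
      rintro rfl
      exact (List.nodup_append.mp hnd).2.2 b hbA b hcB rfl
    have hbo : b ≠ o := by
      rintro rfl
      exact f3 (List.mem_append_left _ hbA)
    have hco : c ≠ o := by
      rintro rfl
      exact f3 (List.mem_append_right _ hcB)
    have n1 := (List.nodup_append.mp hnd).1
    have n2 := (List.nodup_append.mp hnd).2.1
    have nb : b ∉ A1 ∧ b ∉ A2 := by
      rw [List.nodup_middle, List.nodup_cons, List.mem_append, not_or] at n1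
      exact n1.1
    have nc : c ∉ B1 ∧ c ∉ B2 := by
      rw [List.nodup_middle, List.nodup_cons, List.mem_append, not_or] at n2
      exact n2.1
    have same : ∀ a, a ∈ (A1 ++ b :: A2) ++ (B1 ++ c :: B2) → a ≠ b → a ≠ c → at1 τ' σ' a = at1 τ σ a := by
      intro a ha h1 h2
      have h3 : a ≠ o := by rintro rfl; exact f3 ha
      have h4 : a ≠ 2 * n := by rintro rfl; exact f1 (List.mem_append_right _ ha)
      have h5 : a ≠ 2 * n + 1 := by rintro rfl; exact f2 (List.mem_append_right _ ha)
      simp [at1, hτ', hσ', h1, h2, h3, h4, h5]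
    have eA1 : vl τ' σ' A1 = vl τ σ A1 := vl_congr (fun a ha => same a (by simp [ha]) (fun h => nb.1 (h ▸ ha))
      (fun h => (List.nodup_append.mp hnd).2.2 a (by simp [ha]) c hcB h))
    have eA2 : vl τ' σ' A2 = vl τ σ A2 := vl_congr (fun a ha => same a (by simp [ha]) (fun h => nb.2 (h ▸ ha))
      (fun h => (List.nodup_append.mp hnd).2.2 a (by simp [ha]) c hcB h))
    have eB1 : vl τ' σ' B1 = vl τ σ B1 := vl_congr (fun a ha => same a (by simp [ha])
      (fun h => (List.nodup_append.mp hnd).2.2 b hbA a (by simp [ha]) h.symm) (fun h => nc.1 (h ▸ ha)))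
    have eB2 : vl τ' σ' B2 = vl τ σ B2 := vl_congr (fun a ha => same a (by simp [ha])
      (fun h => (List.nodup_append.mp hnd).2.2 b hbA a (by simp [ha]) h.symm) (fun h => nc.2 (h ▸ ha)))
    have t2n : τ' (2 * n) = t := by simp [hτ']
    have t2n1 : τ' (2 * n + 1) = p t := by simp [hτ']
    have eA : vl τ' σ' (A1 ++ (two w (2 * n) b ++ A2)) = vl τ σ (A1 ++ b :: A2) := by
      rw [vl_append, vl_append, eA1, eA2, ev]
      congr 2
      have s1 : σ' b = l := by simp [hσ']
      cases w with
      | true =>
        simp only at hl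
        rw [hl]
        simp only [two]
        rw [vl_tok τ' σ' (by omega), vl_cons, at_blk τ' σ' hb, t2n, s1]
        simp [vl]
      | false =>
        simp only at hl
        rw [hl]
        simp only [two]
        rw [vl_cons, at_blk τ' σ' hb, vl_tok τ' σ' (by omega), t2n, s1]
        simp [vl]
    have eB : vl τ' σ' (B1 ++ c :: (2 * n + 1) :: o :: B2) = vl τ σ (B1 ++ c :: B2) := by
      rw [vl_append, vl_append, eB1, vl_cons, vl_tok τ' σ' h2n, vl_cons, eB2, vl_cons, at_blk τ' σ' hc64, at_blk τ' σ' ho,
        at_blk τ σ hc64, t2n1, hcc]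
      simp [hσ', hbc.symm, hbo.symm, hco.symm]
    have key : ∀ u, u ∈ σ b → u ∈ σ c → False := by
      intro u h1 h2
      refine (List.nodup_append.mp hvn).2.2 u ?_ u ?_ rfl
      · exact mem_vl'.mpr ⟨b, hbA, by rw [at_blk τ σ hb]; exact h1⟩
      · exact mem_vl'.mpr ⟨c, hcB, by rw [at_blk τ σ hc64]; exact h2⟩
    refine ⟨B1 ++ c :: (2 * n + 1) :: o :: B2, spt_mem _ _ _ _ _ hc64, τ', σ', ⟨?_, ?_⟩, ⟨?_, ?_⟩, eA, eB, ?_⟩
    · -- partners
      intro m hm64
      have x1 : (2 * n) ^^^ 1 = 2 * n + 1 := Nat.xor_one_of_even ⟨n, by ring⟩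
      have x2 : (2 * n + 1) ^^^ 1 = 2 * n := by rw [← x1, xor_xor]
      by_cases h1 : m = 2 * n
      · subst h1; rw [x1, t2n, t2n1]
      by_cases h2 : m = 2 * n + 1
      · subst h2; rw [x2, t2n, t2n1, hp]
      have h3 : m ^^^ 1 ≠ 2 * n := by
        intro e1
        apply h2
        have := congrArg (· ^^^ 1) e1
        simp only [xor_xor] at this
        rw [this, x1]
      have h4 : m ^^^ 1 ≠ 2 * n + 1 := by
        intro e1
        apply h1
        have := congrArg (· ^^^ 1) e1
        simp only [xor_xor] at this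
        rw [this, x2]
      simp only [hτ', h1, h2, h3, h4, if_false]
      exact hv.part m hm64
    · rw [eA, eB]; exact hv.wf
    · -- mixed, first word
      intro a ha ha64 u hu
      -- a is an old block
      have haA : a ∈ A1 ++ b :: A2 := by
        rcases List.mem_append.mp ha with h | h
        · simp [h]
        · rcases List.mem_append.mp h with h | h
          · cases w with
            | true =>
              simp only [two, List.mem_cons, List.not_mem_nil, or_false] at h
              rcases h with h | h
              · omega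
              · simp [h]
            | false =>
              simp only [two, List.mem_cons, List.not_mem_nil, or_false] at h
              rcases h with h | h
              · simp [h]
              · omega
          · simp [h]
      have hac : a ≠ c := fun h => (List.nodup_append.mp hnd).2.2 a haA c hcB h
      have hao : a ≠ o := by rintro rfl; exact f3 (List.mem_append_left _ haA)
      have hua : u ∈ σ a := by
        by_cases hab : a = b
        · subst hab
          have : σ' a = l := by simp [hσ']
          rw [this] at hu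
          exact hlb u hu
        · simpa [hσ', hab, hac, hao] using hu
      obtain ⟨d, hd, hd64, hdt⟩ := hm.1 a haA ha64 u hua
      have hut : u ≠ t := by
        rintro rfl
        by_cases hab : a = b
        · subst hab
          have s1 : σ' a = l := by simp [hσ']
          rw [s1] at hu
          have hnb : (σ a).Nodup := by
            have h1 := (List.nodup_append.mp hvn).1
            rw [ev] at h1
            exact (List.nodup_append.mp (List.nodup_append.mp h1).2.1).1
          rw [hl] at hnb
          cases w with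
          | true => exact (List.nodup_cons.mp hnb).1 hu
          | false => exact (List.nodup_append.mp hnb).2.2 u hu u (by simp) rfl
        · have h1 := (List.nodup_append.mp hvn).1
          exact at1_pw τ σ h1 haA hbA hab (by rw [at_blk τ σ ha64]; exact hua) (by rw [at_blk τ σ hb]; exact htb)
      by_cases hdc : d = c
      · subst hdc
        rw [hcc, List.mem_append, List.mem_cons] at hdt
        rcases hdt with h | h | h
        · exact ⟨d, by simp, hd64, by simpa [hσ', hbc.symm] using h⟩
        · exact absurd (by rw [← hp u, h, hp]) hut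
        · exact ⟨o, by simp, ho, by simpa [hσ', hbo.symm, hco.symm] using h⟩
      · have hdb : d ≠ b := fun h => (List.nodup_append.mp hnd).2.2 b hbA d hd h.symm
        have hdo : d ≠ o := by rintro rfl; exact f3 (List.mem_append_right _ hd)
        refine ⟨d, ?_, hd64, by simpa [hσ', hdb, hdc, hdo] using hdt⟩
        rcases List.mem_append.mp hd with h | h
        · simp [h]
        · rcases List.mem_cons.mp h with h | h
          · exact absurd h hdc
          · simp [h]
    · -- mixed, second word
      intro a ha ha64 u hu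
      have hcase : ∃ a' ∈ B1 ++ c :: B2, 64 ≤ a' ∧ u ∈ σ a' ∧ u ≠ p t := by
        have hpt : ∀ a', a' ∈ B1 ++ c :: B2 → 64 ≤ a' → a' ≠ c → u ∈ σ a' → u ≠ p t := by
          rintro a' h1 h2 h3 h4 rfl
          have h5 := (List.nodup_append.mp hvn).2.1
          exact at1_pw τ σ h5 h1 hcB h3 (by rw [at_blk τ σ h2]; exact h4) (by rw [at_blk τ σ hc64]; exact hct)
        have hcn : (σ c).Nodup := by
          have h5 := (List.nodup_append.mp hvn).2.1
          rw [vl_append, vl_cons, at_blk τ σ hc64] at h5
          exact (List.nodup_append.mp (List.nodup_append.mp h5).2.1).1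
        rw [hcc] at hcn
        have q1 := (List.nodup_append.mp hcn)
        by_cases hac : a = c
        · subst hac
          have s1 : σ' a = c1' := by simp [hσ', hbc.symm]
          rw [s1] at hu
          refine ⟨a, hcB, ha64, by rw [hcc]; simp [hu], ?_⟩
          rintro rfl
          exact q1.2.2 _ hu _ List.mem_cons_self rfl
        by_cases hao : a = o
        · subst hao
          have s1 : σ' a = c2' := by simp [hσ', hbo.symm, hco.symm]
          rw [s1] at hu
          refine ⟨c, hcB, hc64, by rw [hcc]; simp [hu], ?_⟩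
          rintro rfl
          exact (List.nodup_cons.mp q1.2.1).1 hu
        have haB : a ∈ B1 ++ c :: B2 := by
          rcases List.mem_append.mp ha with h | h
          · simp [h]
          · rcases List.mem_cons.mp h with h | h
            · exact absurd h hac
            · rcases List.mem_cons.mp h with h | h
              · omega
              · rcases List.mem_cons.mp h with h | h
                · exact absurd h hao
                · simp [h]
        have hab : a ≠ b := fun h => (List.nodup_append.mp hnd).2.2 b hbA a haB h.symm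
        have hua : u ∈ σ a := by simpa [hσ', hab, hac, hao] using hu
        exact ⟨a, haB, ha64, hua, hpt a haB ha64 hac hua⟩
      obtain ⟨a', ha', ha'64, hua', hupt⟩ := hcase
      obtain ⟨d, hd, hd64, hdt⟩ := hm.2 a' ha' ha'64 u hua'
      have hpu : p u ≠ t := fun h => hupt (by rw [← h, hp])
      by_cases hdb : d = b
      · subst hdb
        rw [hl] at hdt
        refine ⟨d, ?_, hd64, ?_⟩
        · cases w <;> simp [two]
        · have s1 : σ' d = l := by simp [hσ']
          rw [s1]
          cases w with
          | true =>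
            rcases List.mem_cons.mp hdt with h | h
            · exact absurd h hpu
            · exact h
          | false =>
            rcases List.mem_append.mp hdt with h | h
            · exact h
            · exact absurd (List.mem_singleton.mp h) hpu
      · have hdc : d ≠ c := fun h => (List.nodup_append.mp hnd).2.2 d hd c hcB h
        have hdo : d ≠ o := by rintro rfl; exact f3 (List.mem_append_left _ hd)
        refine ⟨d, ?_, hd64, by simpa [hσ', hdb, hdc, hdo] using hdt⟩
        rcases List.mem_append.mp hd with h | h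
        · simp [h]
        · rcases List.mem_cons.mp h with h | h
          · exact absurd h hdb
          · simp [h]
    · intro m hm0
      have h1 : m ≠ 2 * n := by rintro rfl; exact f1 (List.mem_append_left _ hm0)
      have h2 : m ≠ 2 * n + 1 := by rintro rfl; exact f2 (List.mem_append_left _ hm0)
      simp [hτ', h1, h2]

end Pool.Agent.helper55.BG
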