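import Pool.Agent.helper55.BG.Tree

/-!
# MP_c8d30a, exponent 12: soundness of the decision trees
-/

set_option autoImplicit false

namespace Pool.Agent.helper55.BG

open NTH Pool.Agent.helper32.RH

variable {Ω : Type} {p : Ω → Ω}

/-- decode a word: digits in base 128, shifted by one. -/
def dcw : ℕ → ℕ → List ℕ
  | 0, _ => []
  | n + 1, a => match Nat.beq a 0 with
    | true => []
    | false => (Nat.sub (Nat.mod a 128) 1) :: dcw n (Nat.div a 128)

/-- trees with coded leaves. -/
inductive Tc
  | lf (A B k1 k2 : ℕ)
  | exc
  | nd (w : Bool) (b n o : ℕ) (t : Tc)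
  | nil
  | br (t r : Tc)

/-- the check of a tree. -/
def chc (K : ℕ) (S0 : List ℕ) (ex : List ℕ → List ℕ → Bool) : Tc → List (List ℕ × List ℕ) → Bool
  | .lf A' B' k1 k2, [s] => lf K s.1 s.2 (dcw 60 A') (dcw 60 B') (dec 120 k1) (dec 120 k2)
  | .exc, [s] => ex s.1 s.2
  | .nd w b n o t, [s] => match ndc S0 b n o s.1 s.2 with
    | false => false
    | true => match exd w b n o s.1 s.2 with
      | some l => chc K S0 ex t l
      | none => false
  | .nil, [] => true
  | .br t r, s :: ss => match chc K S0 ex t [s] with
    | true => chc K S0 ex r ss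
    | false => false
  | _, _ => false

/-- all valuations of the symbolic state have the conclusion. -/
def Gd (p : Ω → Ω) (S0 : List ℕ) (τ0 : ℕ → Ω) (s : St Ω) (C : Prop) (q : List ℕ × List ℕ) : Prop :=
  ∀ (τ : ℕ → Ω) (σ : ℕ → List Ω), Vd p τ σ q.1 q.2 → Mx p σ q.1 q.2 → (∀ m ∈ S0, τ m = τ0 m) →
    vl τ σ q.1 = s.1 → vl τ σ q.2 = s.2 → C

theorem exd_good {S0 : List ℕ} {τ0 : ℕ → Ω} {s : St Ω} {C : Prop} {w : Bool} {b n o : ℕ} {A B : List ℕ}
    {l : List (List ℕ × List ℕ)} (hc : ndc S0 b n o A B = true) (he : exd w b n o A B = some l)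
    (hl : ∀ q ∈ l, Gd p S0 τ0 s C q) : Gd p S0 τ0 s C (A, B) := by
  intro τ σ hv hm h0 h1 h2
  simp only at hv hm h1 h2
  unfold exd at he
  cases h3 : cut b A with
  | some r =>
    rw [h3] at he
    simp only [Option.some.injEq] at he
    subst he
    have hA : A = r.1 ++ b :: r.2 := cut_spec b A r.1 r.2 h3
    obtain ⟨A1, A2⟩ := r
    simp only at hA hl
    subst hA
    rcases expand hc hv hm with ⟨g1, g2, g3⟩ | ⟨B', hB', τ', σ', g1, g2, g3, g4, g5⟩
    · refine hl (A1 ++ A2, B) List.mem_cons_self τ σ g1 g2 h0 ?_ h2
      rw [g3]; exact h1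
    · refine hl _ (List.mem_cons_of_mem _ (List.mem_map.mpr ⟨B', hB', rfl⟩)) τ' σ' g1 g2 ?_ ?_ ?_
      · intro m hm'; rw [g5 m hm']; exact h0 m hm'
      · rw [g3]; exact h1
      · rw [g4]; exact h2
  | none =>
    rw [h3] at he
    simp only at he
    cases h4 : cut b B with
    | none => rw [h4] at he; exact absurd he (by simp)
    | some r =>
      rw [h4] at he
      simp only [Option.some.injEq] at he
      subst he
      have hB : B = r.1 ++ b :: r.2 := cut_spec b B r.1 r.2 h4
      obtain ⟨B1, B2⟩ := r
      simp only at hB hl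
      subst hB
      have hc' : ndc S0 b n o (B1 ++ b :: B2) A = true := by
        unfold ndc at hc ⊢
        obtain ⟨c1, hc⟩ := bool_and hc
        obtain ⟨c2, hc⟩ := bool_and hc
        obtain ⟨c3, hc⟩ := bool_and hc
        obtain ⟨c4, hc⟩ := bool_and hc
        obtain ⟨c5, hc⟩ := bool_and hc
        obtain ⟨c6, hc⟩ := bool_and hc
        obtain ⟨c7, c8⟩ := bool_and hc
        have k1 : ndp ((B1 ++ b :: B2) ++ A) = true := by
          have := (List.perm_append_comm.nodup_iff).1 (ndp_spec c1)
          clear c2 hc c3 c4 c5 c6 c7 c8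
          generalize (B1 ++ b :: B2) ++ A = W at this
          induction W with
          | nil => rfl
          | cons a W ih =>
            unfold ndp
            rw [(mb_false a W).mpr (List.nodup_cons.mp this).1]
            exact ih (List.nodup_cons.mp this).2
        have k2 : clob ((B1 ++ b :: B2) ++ A) ((B1 ++ b :: B2) ++ A) = true := by
          have h5 := clob_spec c2
          have h6 : ∀ a ∈ (B1 ++ b :: B2) ++ A, a < 64 → a ^^^ 1 ∈ (B1 ++ b :: B2) ++ A := by
            intro a ha h64
            have := h5 a (List.mem_append.mpr (List.mem_append.mp ha).symm) h64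
            exact List.mem_append.mpr (List.mem_append.mp this).symm
          clear c1 hc c3 c4 c5 c6 c7 c8 h5 c2
          revert h6
          generalize hW : (B1 ++ b :: B2) ++ A = W
          intro h6
          have : ∀ V : List ℕ, (∀ a ∈ V, a ∈ W) → clob W V = true := by
            intro V
            induction V with
            | nil => intro _; rfl
            | cons a V ih =>
              intro hV
              unfold clob
              cases h7 : Nat.blt a 64 with
              | false => exact ih (fun c hc => hV c (List.mem_cons_of_mem _ hc))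
              | true =>
                rw [(mb_iff _ _).mpr (h6 a (hV a List.mem_cons_self) ((blt_iff a).mp h7))]
                exact ih (fun c hc => hV c (List.mem_cons_of_mem _ hc))
          exact this W (fun _ h => h)
        have k3 : ∀ m, mb m (S0 ++ (A ++ (B1 ++ b :: B2))) = mb m (S0 ++ ((B1 ++ b :: B2) ++ A)) := by
          intro m
          rw [Bool.eq_iff_iff, mb_iff, mb_iff]
          simp only [List.mem_append]
          tauto
        have k4 : mb o (A ++ (B1 ++ b :: B2)) = mb o ((B1 ++ b :: B2) ++ A) := by
          rw [Bool.eq_iff_iff, mb_iff, mb_iff]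
          simp only [List.mem_append]
          tauto
        rw [k1, k2, c3, c4, c5, ← k3, ← k3, ← k4, c6, c7, c8]
        rfl
      rcases expand (w := w) hc' hv.swap hm.swap with ⟨g1, g2, g3⟩ | ⟨A', hA', τ', σ', g1, g2, g3, g4, g5⟩
      · refine hl (A, B1 ++ B2) List.mem_cons_self τ σ g1.swap g2.swap h0 h1 ?_
        rw [g3]; exact h2
      · refine hl _ (List.mem_cons_of_mem _ (List.mem_map.mpr ⟨A', hA', rfl⟩)) τ' σ' g1.swap g2.swap ?_ ?_ ?_
        · intro m hm'; rw [g5 m hm']; exact h0 m hm'
        · rw [g4]; exact h1
        · rw [g3]; exact h2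

/-- **a checked tree**. -/
theorem chc_sound {K : ℕ} {S0 : List ℕ} {ex : List ℕ → List ℕ → Bool} {τ0 : ℕ → Ω} {s : St Ω} {Q : Prop} (h10 : 10 ∈ S0)
    (hex : ∀ A B, ex A B = true → Gd p S0 τ0 s Q (A, B)) : ∀ (t : Tc) (l : List (List ℕ × List ℕ)),
    chc K S0 ex t l = true → ∀ q ∈ l, Gd p S0 τ0 s (Dr p K (τ0 10) s ∨ Q) q := by
  intro t
  induction t with
  | lf A' B' k1 k2 =>
    intro l hl q hq
    match l, hl with
    | [s'], hl =>
      rw [List.mem_singleton] at hq
      subst hq
      simp only [chc] at hl
      intro τ σ hv hm h0 h1 h2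
      left
      have := lf_sound hl hv
      rw [h0 10 h10, h1, h2] at this
      exact this
  | exc =>
    intro l hl q hq
    match l, hl with
    | [s'], hl =>
      rw [List.mem_singleton] at hq
      subst hq
      simp only [chc] at hl
      intro τ σ hv hm h0 h1 h2
      exact Or.inr (hex _ _ hl τ σ hv hm h0 h1 h2)
  | nd w b n o t ih =>
    intro l hl q hq
    match l, hl with
    | [s'], hl =>
      rw [List.mem_singleton] at hq
      subst hq
      simp only [chc] at hl
      cases h1 : ndc S0 b n o q.1 q.2 with
      | false => rw [h1] at hl; exact absurd hl (by simp)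
      | true =>
        rw [h1] at hl
        simp only at hl
        cases h2 : exd w b n o q.1 q.2 with
        | none => rw [h2] at hl; exact absurd hl (by simp)
        | some l' =>
          rw [h2] at hl
          simp only at hl
          have := exd_good (p := p) (τ0 := τ0) (s := s) h1 h2 (ih l' hl)
          exact this
  | nil =>
    intro l hl q hq
    match l, hl with
    | [], hl => exact absurd hq (by simp)
  | br t r iht ihr =>
    intro l hl q hq
    match l, hl with
    | s' :: ss, hl =>
      simp only [chc] at hl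
      cases h1 : chc K S0 ex t [s'] with
      | false => rw [h1] at hl; exact absurd hl (by simp)
      | true =>
        rw [h1] at hl
        simp only at hl
        rcases List.mem_cons.mp hq with rfl | hq
        · exact iht _ h1 _ (List.mem_singleton.mpr rfl)
        · exact ihr _ hl _ hq

end Pool.Agent.helper55.BG
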